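import Mathlib

/-!
# Integral points on ramified covers of tori: basic definitions
-/

set_option autoImplicit false

namespace Pool.Agent.Helper10.RC

open MvPolynomial

/-- A finite family of absolute values on `K`, with the product inequality on a ring `O` of
integers, and the Subspace theorem with one distinguished absolute value. -/
structure PSys (K : Type) [Field K] (Λ : Type) [Fintype Λ] [DecidableEq Λ] where
  abv : Λ → AbsoluteValue K ℝ
  O : Subring K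
  closed : ∀ x : K, (∃ f : Polynomial K, f.Monic ∧ (∀ k, f.coeff k ∈ O) ∧ f.eval x = 0) → x ∈ O
  one_le : ∀ x ∈ O, x ≠ 0 → 1 ≤ ∏ σ, abv σ x
  fin : ∀ B : ℝ, {x : K | x ∈ O ∧ ∀ σ, abv σ x ≤ B}.Finite
  sub : ∀ (σ₁ : Λ) (ι : Type) [Fintype ι] [DecidableEq ι] (A : Matrix ι ι K),
    2 ≤ Fintype.card ι → A.det ≠ 0 → ∀ δ B : ℝ, 0 < δ →
    ∃ 𝒲 : Finset (Submodule K (ι → K)), (∀ W ∈ 𝒲, W ≠ ⊤) ∧
      ∀ (Q : ℝ) (a : ι → ℝ) (y : ι → K), 1 ≤ Q → (∀ i, y i ∈ O) →
        (∀ i, Q ^ (-B) ≤ a i ∧ a i ≤ Q ^ B) →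
        (∀ σ i, Q ^ (-B) ≤ abv σ (y i) ∧ abv σ (y i) ≤ Q ^ B) →
        (∀ i, abv σ₁ (∑ j, A i j * y j) ≤ a i) →
        (∏ i, a i) * ∏ i, ∏ σ ∈ Finset.univ.erase σ₁, abv σ (y i) ≤ Q ^ (-δ) →
        ∃ W ∈ 𝒲, y ∈ W

/-- The units of the ring `Z.O`. -/
def PSys.IsU {K : Type} [Field K] {Λ : Type} [Fintype Λ] [DecidableEq Λ] (Z : PSys K Λ) (x : K) :
    Prop := x ≠ 0 ∧ x ∈ Z.O ∧ x⁻¹ ∈ Z.O

section weights
variable (K : Type) [Field K] (n : ℕ)

/-- The ring `K[t₁, …, t_n][Y]`. -/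
abbrev Pl : Type := Polynomial (MvPolynomial (Fin n) K)

variable {K n}

/-- The weight of `t ^ α Y ^ k`. -/
noncomputable def wt (θ : Fin n → ℝ) (h : ℝ) (α : Fin n →₀ ℕ) (k : ℕ) : ℝ := ∑ j, θ j * α j + h * k

/-- All terms have weight at most `w`. -/
def LeW (θ : Fin n → ℝ) (h w : ℝ) (H : Pl K n) : Prop :=
  ∀ k α, coeff α (H.coeff k) ≠ 0 → wt θ h α k ≤ w

/-- All terms have weight `w`. -/
def HomW (θ : Fin n → ℝ) (h w : ℝ) (H : Pl K n) : Prop :=
  ∀ k α, coeff α (H.coeff k) ≠ 0 → wt θ h α k = w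

/-- Evaluation at the point `(t, y)`. -/
noncomputable def evh (t : Fin n → K) (y : K) : Pl K n →+* K :=
  Polynomial.eval₂RingHom (MvPolynomial.eval t) y

/-- The exponent vector with the coordinates of `f`. -/
noncomputable def ex {m : ℕ} (f : Fin n → Fin m) : Fin n →₀ ℕ :=
  Finsupp.equivFunOnFinite.symm fun j => (f j : ℕ)

/-- The monomial `t ^ α Y ^ k`. -/
noncomputable def mono {m δ : ℕ} (i : (Fin n → Fin m) × Fin δ) : Pl K n :=
  Polynomial.C (monomial (ex i.1) (1 : K)) * Polynomial.X ^ (i.2 : ℕ)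

/-- The point `t` is close to the direction `θ`, at scale `X`, for the absolute value `a`. -/
def Near (a : AbsoluteValue K ℝ) (θ : Fin n → ℝ) (r X : ℝ) (t : Fin n → K) : Prop :=
  ∀ j, t j ≠ 0 ∧ |Real.log (a (t j)) - X * θ j| ≤ r * X

/-- `P(t₁^N, …, t_n^N; Y)` over the extension `L`. -/
noncomputable def kum (L : Type) [Field L] [Algebra K L] (P : Pl K n) (N : ℕ) : Pl L n :=
  P.map ((expand N : MvPolynomial (Fin n) L →ₐ[L] MvPolynomial (Fin n) L).toRingHom.comp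
    (MvPolynomial.map (algebraMap K L)))

end weights

/-- A notion of largeness for subsets of a set: the complement of an ideal containing the finite
sets. -/
structure LN (β : Type*) where
  Big : Set β → Prop
  mono : ∀ {E E' : Set β}, E ⊆ E' → Big E → Big E'
  union : ∀ {E E' : Set β}, Big (E ∪ E') → Big E ∨ Big E'
  inf : ∀ {E : Set β}, Big E → E.Infinite

lemma LN.nonempty {β : Type*} (𝔅 : LN β) {E : Set β} (h : 𝔅.Big E) : E.Nonempty :=
  (𝔅.inf h).nonempty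

lemma LN.partition {β α : Type*} (𝔅 : LN β) (s : Finset α) {E : Set β} (h : 𝔅.Big E)
    (R : α → β → Prop) (hR : ∀ x ∈ E, ∃ i ∈ s, R i x) :
    ∃ i ∈ s, 𝔅.Big {x | x ∈ E ∧ R i x} := by
  classical
  induction s using Finset.induction_on generalizing E with
  | empty =>
    obtain ⟨x, hx⟩ := 𝔅.nonempty h
    obtain ⟨i, hi, -⟩ := hR x hx
    exact absurd hi (Finset.notMem_empty i)
  | insert a s ha ih =>
    have h1 : E ⊆ {x | x ∈ E ∧ R a x} ∪ {x | x ∈ E ∧ ¬ R a x} := by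
      intro x hx
      by_cases h : R a x
      · exact Or.inl ⟨hx, h⟩
      · exact Or.inr ⟨hx, h⟩
    rcases 𝔅.union (𝔅.mono h1 h) with h2 | h2
    · exact ⟨a, Finset.mem_insert_self _ _, h2⟩
    · obtain ⟨i, hi, h3⟩ := ih h2 (by
        rintro x ⟨hx, hxa⟩
        obtain ⟨i, hi, hix⟩ := hR x hx
        rcases Finset.mem_insert.mp hi with rfl | hi
        · exact absurd hix hxa
        · exact ⟨i, hi, hix⟩)
      exact ⟨i, Finset.mem_insert_of_mem hi, 𝔅.mono (fun x hx => ⟨hx.1.1, hx.2⟩) h3⟩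

lemma LN.partition' {β α : Type*} (𝔅 : LN β) [Finite α] {E : Set β} (h : 𝔅.Big E)
    (R : α → β → Prop) (hR : ∀ x ∈ E, ∃ i, R i x) :
    ∃ i, 𝔅.Big {x | x ∈ E ∧ R i x} := by
  classical
  have := Fintype.ofFinite α
  obtain ⟨i, -, hi⟩ := 𝔅.partition Finset.univ h R (fun x hx => by
    obtain ⟨i, hi⟩ := hR x hx
    exact ⟨i, Finset.mem_univ _, hi⟩)
  exact ⟨i, hi⟩

/-- `E` is covered by finitely many proper cosets `t ^ α = c`. -/
def Cov {K : Type} [Field K] {n : ℕ} (E : Set ((Fin n → K) × K)) : Prop :=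
  ∃ A : Finset ((Fin n → ℤ) × K), (∀ a ∈ A, a.1 ≠ 0) ∧
    ∀ p ∈ E, ∃ a ∈ A, ∏ j, p.1 j ^ a.1 j = a.2

/-- Largeness: not covered by finitely many proper cosets. -/
def bigC (K : Type) [Field K] (n : ℕ) (hn : 0 < n) : LN ((Fin n → K) × K) where
  Big E := ¬ Cov E
  mono := by
    rintro E E' hE hbig ⟨A, h1, h2⟩
    exact hbig ⟨A, h1, fun p hp => h2 p (hE hp)⟩
  union := by
    classical
    intro E E' hbig
    by_contra hcon
    rw [not_or, not_not, not_not] at hcon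
    obtain ⟨⟨A, h1, h2⟩, ⟨A', h1', h2'⟩⟩ := hcon
    apply hbig
    refine ⟨A ∪ A', ?_, ?_⟩
    · intro a ha
      rcases Finset.mem_union.mp ha with ha | ha
      exacts [h1 a ha, h1' a ha]
    · rintro p (hp | hp)
      · obtain ⟨a, ha, h⟩ := h2 p hp
        exact ⟨a, Finset.mem_union_left _ ha, h⟩
      · obtain ⟨a, ha, h⟩ := h2' p hp
        exact ⟨a, Finset.mem_union_right _ ha, h⟩
  inf := by
    classical
    intro E hbig hfin
    apply hbig
    refine ⟨hfin.toFinset.image fun p => (fun j => if j = (⟨0, hn⟩ : Fin n) then 1 else 0,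
      ∏ j, p.1 j ^ (if j = (⟨0, hn⟩ : Fin n) then (1 : ℤ) else 0)), ?_, ?_⟩
    · intro a ha
      obtain ⟨p, -, rfl⟩ := Finset.mem_image.mp ha
      intro h0
      have := congrFun h0 ⟨0, hn⟩
      simp at this
    · intro p hp
      exact ⟨_, Finset.mem_image.mpr ⟨p, hfin.mem_toFinset.mpr hp, rfl⟩, rfl⟩

end Pool.Agent.Helper10.RC
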