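import Pool.Agent.Helper10.RC.Strong

/-!
# The theorem in a cone of directions
-/

set_option autoImplicit false

namespace Pool.Agent.Helper10.RC

open MvPolynomial NumberField
open Pool.Agent.Helper40.RC (curves_two_of)
open Pool.Agent.Helper41.RC (locData_of_abs)

section
variable {K : Type} [Field K] [NumberField K] (S : Finset (FinitePlace K))
  (B : FinitePlace K → ℝ) (hB : {v | B v ≠ 0}.Finite)

/-- The inclusion of the set of places. -/
def incl {S S' : Finset (FinitePlace K)} (h : S ⊆ S') :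
    InfinitePlace K ⊕ {v // v ∈ S} → InfinitePlace K ⊕ {v // v ∈ S'} :=
  Sum.map id fun v => ⟨v.1, h v.2⟩

lemma incl_injective {S S' : Finset (FinitePlace K)} (h : S ⊆ S') :
    Function.Injective (incl h) := by
  apply Sum.map_injective.mpr
  refine ⟨Function.injective_id, ?_⟩
  intro v v' hv
  apply Subtype.ext
  have h1 : (⟨v.1, h v.2⟩ : {v // v ∈ S'}) = ⟨v'.1, h v'.2⟩ := hv
  exact congrArg (fun x : {v // v ∈ S'} => x.1) h1

lemma lvec_incl {S S' : Finset (FinitePlace K)} (h : S ⊆ S') {n : ℕ} (u : Fin n → K) :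
    lvec S u = lvec S' u ∘ incl h := by
  funext p
  rcases p with w | v
  · rfl
  · rfl

lemma notMem_incl {S S' : Finset (FinitePlace K)} (h : S ⊆ S')
    {p : InfinitePlace K ⊕ {v // v ∈ S'}} (hp : p ∉ Set.range (incl h)) :
    ∃ v : {v // v ∈ S'}, p = Sum.inr v ∧ v.1 ∉ S := by
  rcases p with w | v
  · exact absurd ⟨Sum.inl w, rfl⟩ hp
  · refine ⟨v, rfl, fun hv => hp ⟨Sum.inr ⟨v.1, hv⟩, rfl⟩⟩

include hB in
theorem main_cone {n : ℕ} (hn : 0 < n)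
    (𝒦 : Set (InfinitePlace K ⊕ {v // v ∈ S} → Fin n → ℝ)) (h𝒦 : IsClosed 𝒦)
    (hc : ∀ x ∈ 𝒦, ∀ t : ℝ, 0 < t → t • x ∈ 𝒦) (N : ℕ) (hN : 1 ≤ N)
    (R : Pl (AlgebraicClosure K) n)
    (hsplit : ∀ x ∈ 𝒦, ∑ p, x p = 0 → x ≠ 0 → ∃ p, ∃ N', 1 ≤ N' ∧ LocData (pw R N') (x p)) :
    Cov {q | q ∈ PtsR S B N R ∧ lvec S q.1 ∈ 𝒦} := by
  classical
  set S' : Finset (FinitePlace K) := S ∪ hB.toFinset with hS'
  have hSS : S ⊆ S' := Finset.subset_union_left
  have hsub : PtsR S B N R ⊆ PtsS S' N R := fun q hq => ⟨fun j => (hq.1 j).su S B hB, hq.2⟩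
  -- compactness
  set 𝒮 : Set (InfinitePlace K ⊕ {v // v ∈ S'} → Fin n → ℝ) :=
    Metric.sphere 0 1 ∩ {x | ∑ p, x p = 0} with h𝒮
  have hcomp : IsCompact 𝒮 := by
    apply (isCompact_sphere 0 1).inter_right
    exact isClosed_eq (by fun_prop) continuous_const
  have hkey : ∃ D : ℝ, 0 < D ∧ Cov {q | (q ∈ PtsR S B N R ∧ lvec S q.1 ∈ 𝒦) ∧
      D ≤ ‖lvec S' q.1‖ ∧ ‖lvec S' q.1‖⁻¹ • lvec S' q.1 ∈ 𝒮} := by
    refine hcomp.induction_on (p := fun A => ∃ D : ℝ, 0 < D ∧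
      Cov {q | (q ∈ PtsR S B N R ∧ lvec S q.1 ∈ 𝒦) ∧
        D ≤ ‖lvec S' q.1‖ ∧ ‖lvec S' q.1‖⁻¹ • lvec S' q.1 ∈ A}) ?_ ?_ ?_ ?_
    · exact ⟨1, one_pos, Cov.mono (fun q hq => hq.2.2) Cov.empty⟩
    · rintro A A' hA ⟨D, hD, h⟩
      refine ⟨D, hD, Cov.mono ?_ h⟩
      rintro q ⟨hq1, hq2, hq3⟩
      exact ⟨hq1, hq2, hA hq3⟩
    · rintro A A' ⟨D, hD, h⟩ ⟨D', hD', h'⟩
      refine ⟨max D D', lt_max_of_lt_left hD, Cov.mono ?_ (Cov.union h h')⟩
      rintro q ⟨hq1, hq2, hq3 | hq3⟩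
      · exact Or.inl ⟨hq1, (le_max_left _ _).trans hq2, hq3⟩
      · exact Or.inr ⟨hq1, (le_max_right _ _).trans hq2, hq3⟩
    · intro x hx
      have hx0 : x ≠ 0 := by
        rintro rfl
        have := hx.1
        simp at this
      by_cases hxI : ∀ p, p ∉ Set.range (incl hSS) → x p = 0
      · by_cases hxK : x ∘ incl hSS ∈ 𝒦
        · obtain ⟨p, N', hN', hp⟩ := hsplit (x ∘ incl hSS) hxK (by
            rw [← hx.2]
            change ∑ p, x (incl hSS p) = ∑ p, x p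
            rw [← Finset.sum_subset (Finset.subset_univ
              (Finset.univ.map ⟨incl hSS, incl_injective hSS⟩)), Finset.sum_map]
            · rfl
            · intro p _ hp
              apply hxI p
              rintro ⟨p', rfl⟩
              exact hp (Finset.mem_map.mpr ⟨p', Finset.mem_univ _, rfl⟩)) (by
            intro h
            apply hx0
            funext p
            by_cases hp : p ∈ Set.range (incl hSS)
            · obtain ⟨p', rfl⟩ := hp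
              exact congrFun h p'
            · exact hxI p hp)
          obtain ⟨r, D, hr, hD, h⟩ := local_step' S' hn N hN R N' hN' (incl hSS p) x hp
          refine ⟨Metric.closedBall x r, mem_nhdsWithin_of_mem_nhds
            (Metric.closedBall_mem_nhds x hr), D, hD, Cov.mono ?_ h⟩
          rintro q ⟨hq1, hq2, hq3⟩
          refine ⟨hsub hq1.1, hq2, ?_⟩
          rwa [Metric.mem_closedBall, dist_eq_norm] at hq3
        · have hopen : IsOpen {x' : InfinitePlace K ⊕ {v // v ∈ S'} → Fin n → ℝ |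
              x' ∘ incl hSS ∉ 𝒦} := by
            have : Continuous fun x' : InfinitePlace K ⊕ {v // v ∈ S'} → Fin n → ℝ =>
                x' ∘ incl hSS := by fun_prop
            exact h𝒦.isOpen_compl.preimage this
          refine ⟨_, mem_nhdsWithin_of_mem_nhds (hopen.mem_nhds hxK), 1, one_pos,
            Cov.mono ?_ Cov.empty⟩
          rintro q ⟨hq1, hq2, hq3⟩
          exfalso
          apply hq3
          have h1 := hc _ hq1.2 (‖lvec S' q.1‖⁻¹) (inv_pos.mpr (by linarith))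
          rw [lvec_incl hSS] at h1
          exact h1
      · push Not at hxI
        obtain ⟨p, hpI, hxp⟩ := hxI
        obtain ⟨v, rfl, hvS⟩ := notMem_incl hSS hpI
        obtain ⟨j, hj⟩ : ∃ j, x (Sum.inr v) j ≠ 0 := by
          by_contra hcon
          push Not at hcon
          exact hxp (funext hcon)
        have hj0 : 0 < |x (Sum.inr v) j| := abs_pos.mpr hj
        refine ⟨Metric.closedBall x (|x (Sum.inr v) j| / 2), mem_nhdsWithin_of_mem_nhds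
          (Metric.closedBall_mem_nhds x (by positivity)),
          2 * |B v.1| / |x (Sum.inr v) j| + 1, by positivity, Cov.mono ?_ Cov.empty⟩
        rintro q ⟨hq1, hq2, hq3⟩
        exfalso
        rw [Metric.mem_closedBall, dist_eq_norm] at hq3
        set H := ‖lvec S' q.1‖ with hH
        have hH0 : 0 < H := lt_of_lt_of_le (by positivity) hq2
        have h3 : |H⁻¹ * plog S' (Sum.inr v) (q.1 j) - x (Sum.inr v) j| ≤
            |x (Sum.inr v) j| / 2 := by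
          have h4 := norm_le_pi_norm (H⁻¹ • lvec S' q.1 - x) (Sum.inr v)
          have h5 := norm_le_pi_norm ((H⁻¹ • lvec S' q.1 - x) (Sum.inr v)) j
          exact (h5.trans h4).trans hq3
        have h6 : |plog S' (Sum.inr v) (q.1 j)| ≤ |B v.1| :=
          ((hq1.1.1 j).2 v.1 hvS).trans (le_abs_self _)
        have h7 : |x (Sum.inr v) j| / 2 ≤ |H⁻¹ * plog S' (Sum.inr v) (q.1 j)| := by
          have := abs_sub_abs_le_abs_sub (x (Sum.inr v) j) (H⁻¹ * plog S' (Sum.inr v) (q.1 j))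
          rw [abs_sub_comm] at h3
          linarith
        rw [abs_mul, abs_of_pos (inv_pos.mpr hH0)] at h7
        have h8 : |x (Sum.inr v) j| / 2 ≤ H⁻¹ * |B v.1| :=
          h7.trans (mul_le_mul_of_nonneg_left h6 (by positivity))
        rw [← div_eq_inv_mul, le_div_iff₀ hH0] at h8
        have h9 : H ≤ 2 * |B v.1| / |x (Sum.inr v) j| := by
          rw [le_div_iff₀ hj0]
          linarith
        linarith
  obtain ⟨D, hD, h⟩ := hkey
  refine Cov.mono ?_ (Cov.union (cov_bounded' S' hn N R D) h)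
  intro q hq
  rcases le_total ‖lvec S' q.1‖ D with h1 | h1
  · exact Or.inl ⟨hsub hq.1, h1⟩
  · refine Or.inr ⟨hq, h1, Set.mem_inter ?_ ?_⟩
    · have h2 : ‖lvec S' q.1‖ ≠ 0 := by
        have : 0 < ‖lvec S' q.1‖ := lt_of_lt_of_le hD h1
        exact this.ne'
      rw [mem_sphere_zero_iff_norm, norm_smul, norm_inv, norm_norm, inv_mul_cancel₀ h2]
    · change ∑ p, (‖lvec S' q.1‖⁻¹ • lvec S' q.1) p = 0
      funext j
      rw [Finset.sum_apply]
      simp only [Pi.smul_apply, smul_eq_mul, Pi.zero_apply]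
      rw [← Finset.mul_sum]
      rw [show ∑ p, lvec S' q.1 p j = 0 from plog_sum S' ((hq.1.1 j).su S B hB), mul_zero]

include hB in
/-- The non-density theorem in a cone, intrinsic form. -/
theorem cov_cone {n : ℕ} (hn : 0 < n) (P : Pl K n) (hP : P.Monic)
    (hirr : ∀ N, 1 ≤ N → Irreducible (kum (AlgebraicClosure K) P N))
    (𝒦 : Set (InfinitePlace K ⊕ {v // v ∈ S} → Fin n → ℝ)) (h𝒦 : IsClosed 𝒦)
    (hc : ∀ x ∈ 𝒦, ∀ t : ℝ, 0 < t → t • x ∈ 𝒦)
    (hsplit : ∀ x ∈ 𝒦, ∑ p, x p = 0 → x ≠ 0 → ∃ p, x p ≠ 0 ∧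
      ∃ N, 1 ≤ N ∧ ∃ w₁ w₂ : AbsoluteValue (AdjoinRoot (kum (AlgebraicClosure K) P N)) ℝ,
        w₁ ≠ w₂ ∧ Extends _ (x p) w₁ ∧ Extends _ (x p) w₂) :
    Cov {p : (Fin n → K) × K | ((∀ j, QU S B (p.1 j)) ∧ evh p.1 p.2 P = 0) ∧
      lvec S p.1 ∈ 𝒦} := by
  refine Cov.mono ?_ (main_cone S B hB hn 𝒦 h𝒦 hc 1 le_rfl
    (P.map (MvPolynomial.map (algebraMap K (AlgebraicClosure K)))) ?_)
  · rintro ⟨u, y⟩ ⟨⟨hu, hy⟩, hK⟩
    refine ⟨⟨hu, fun j => algebraMap K (AlgebraicClosure K) (u j), fun j => pow_one _, ?_⟩, hK⟩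
    have h1 := evh_map (algebraMap K (AlgebraicClosure K)) P u y
    change evh u y P = 0 at hy
    rw [hy, map_zero] at h1
    exact h1
  · intro x hx hx0 hxne
    obtain ⟨p, -, N, hN, w₁, w₂, hne, h₁, h₂⟩ := hsplit x hx hx0 hxne
    refine ⟨p, N, hN, ?_⟩
    rw [← kum_eq_pw]
    exact locData_of_abs _ (Pool.Agent.Helper47.RC.kum_monic P hP N _) (hirr N hN) (x p) w₁ w₂ hne
      h₁ h₂

include hB in
/-- **The strong form in a cone.** -/
theorem strong_cone {n : ℕ} (hn : 0 < n) (P : Pl K n) (hP : P.Monic)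
    (hirr : ∀ N, 1 ≤ N → Irreducible (kum (AlgebraicClosure K) P N))
    (𝒦 : Set (InfinitePlace K ⊕ {v // v ∈ S} → Fin n → ℝ)) (h𝒦 : IsClosed 𝒦)
    (hc : ∀ x ∈ 𝒦, ∀ t : ℝ, 0 < t → t • x ∈ 𝒦)
    (hsplit : ∀ x ∈ 𝒦, ∑ p, x p = 0 → x ≠ 0 → ∃ p, x p ≠ 0 ∧
      ∃ N, 1 ≤ N ∧ ∃ w₁ w₂ : AbsoluteValue (AdjoinRoot (kum (AlgebraicClosure K) P N)) ℝ,
        w₁ ≠ w₂ ∧ Extends _ (x p) w₁ ∧ Extends _ (x p) w₂) :
    ∃ (F : Set ((Fin n → K) × K)) (𝒞 : Finset ((Fin n → K) × (Fin n → ℤ) × Polynomial K × ℕ))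
      (A : Finset ((Fin n → ℤ) × K)), F.Finite ∧
      (∀ c ∈ 𝒞, (∀ j, c.1 j ≠ 0) ∧ c.2.1 ≠ 0 ∧
        ∀ t : K, t ≠ 0 → evh (fun j => c.1 j * t ^ c.2.1 j)
          (c.2.2.1.eval t / t ^ c.2.2.2) P = 0) ∧
      (∀ a ∈ A, 3 ≤ n ∧ a.1 ≠ 0) ∧
      ∀ p : (Fin n → K) × K, (∀ j, QU S B (p.1 j)) → evh p.1 p.2 P = 0 → lvec S p.1 ∈ 𝒦 →
        p ∈ F ∨ (∃ c ∈ 𝒞, ∃ t : K, t ≠ 0 ∧ (∀ j, p.1 j = c.1 j * t ^ c.2.1 j) ∧
          p.2 = c.2.2.1.eval t / t ^ c.2.2.2) ∨ ∃ a ∈ A, ∏ j, p.1 j ^ a.1 j = a.2 := by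
  classical
  have hcov := cov_cone S B hB hn P hP hirr 𝒦 h𝒦 hc hsplit
  rcases lt_trichotomy n 2 with hn2 | hn2 | hn2
  · obtain rfl : n = 1 := by omega
    refine ⟨_, ∅, ∅, finite_of_cov P hP _ (fun p hp => ⟨(hp.1.1 0).1, hp.1.2⟩) hcov, ?_, ?_, ?_⟩
    · intro c hc
      exact absurd hc (Finset.notMem_empty c)
    · intro c hc
      exact absurd hc (Finset.notMem_empty c)
    · exact fun p hp hy hK => Or.inl ⟨⟨hp, hy⟩, hK⟩
  · subst hn2
    obtain ⟨A, hA, h⟩ := hcov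
    choose F 𝒞 hF h𝒞 hpt using fun (a : {a // a ∈ A}) =>
      curves_two_of K (fun S B hB P hP => curves_one K S B hB P hP) S B hB P hP a.1.1
        (hA a.1 a.2) a.1.2
    refine ⟨⋃ a, F a, Finset.univ.biUnion 𝒞, ∅, Set.finite_iUnion hF, ?_, ?_, ?_⟩
    · intro c hc
      obtain ⟨a, -, ha⟩ := Finset.mem_biUnion.mp hc
      exact h𝒞 a c ha
    · intro c hc
      exact absurd hc (Finset.notMem_empty c)
    · intro p hp hy hK
      obtain ⟨a, ha, hap⟩ := h p ⟨⟨hp, hy⟩, hK⟩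
      rcases hpt ⟨a, ha⟩ p.1 p.2 (fun j => (hp j).1) (fun v hv j => (hp j).2 v hv) hap hy with
        h1 | ⟨c, hc, h1⟩
      · exact Or.inl (Set.mem_iUnion.mpr ⟨_, h1⟩)
      · exact Or.inr (Or.inl ⟨c, Finset.mem_biUnion.mpr ⟨_, Finset.mem_univ _, hc⟩, h1⟩)
  · obtain ⟨A, hA, h⟩ := hcov
    refine ⟨∅, ∅, A, Set.finite_empty, ?_, fun a ha => ⟨by omega, hA a ha⟩, ?_⟩
    · intro c hc
      exact absurd hc (Finset.notMem_empty c)
    · exact fun p hp hy hK => Or.inr (Or.inr (h p ⟨⟨hp, hy⟩, hK⟩))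

end

end Pool.Agent.Helper10.RC
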