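import Pool.Agent.Helper10.RC.Small

/-!
# A small factor gives a contradiction
-/

set_option autoImplicit false

namespace Pool.Agent.Helper10.RC

open MvPolynomial
open Pool.Agent.Helper98.RC (unit_rel)
open Pool.Agent.Helper88.RC (forms)
open Pool.Agent.Helper74.RC (root_le ev_le main_est)
open Pool.Agent.Helper54.RC (irr_rel bezout)
open Pool.Agent.Helper64.RC (hensel homog)

variable {K Λ : Type} [Field K] [Fintype Λ] [DecidableEq Λ]

lemma tdeg_ex_le {n m : ℕ} (f : Fin n → Fin m) : tdeg (ex f) ≤ n * m := by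
  rw [tdeg]
  calc ∑ j, ex f j ≤ ∑ _j : Fin n, m := Finset.sum_le_sum fun j _ => by
        simp only [ex, Finsupp.equivFunOnFinite_symm_apply_apply]
        exact (f j).2.le
    _ = n * m := by rw [Finset.sum_const, Finset.card_univ, Fintype.card_fin, smul_eq_mul]

/-- **One small factor.** -/
theorem small_factor (Z : PSys K Λ) (σ₁ : Λ) {n : ℕ} (hn : 0 < n) (P : Pl K n) (hP : P.Monic)
    (hirr : Irreducible P) (hPO : ∀ k α, coeff α (P.coeff k) ∈ Z.O) (θ : Fin n → ℝ) (h w : ℝ)
    (C₀ Cy : ℝ) (hCy1 : 1 ≤ Cy) (hCy : ∀ (r : ℝ) (t : Fin n → K) (y : K) (X : ℝ),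
      Good Z σ₁ θ C₀ r t X → evh t y P = 0 → ∀ σ, Z.abv σ y ≤ Real.exp (Cy * X))
    (hPle : LeW θ h (h * P.natDegree) P)
    (Q : Pl K n) (hQ : Q.Monic) (hQd : Q.natDegree < P.natDegree)
    (g : MvPolynomial (Fin n) K) (hg0 : g ≠ 0) (hg : HomW θ h w (Polynomial.C g))
    (B : Polynomial (Pl K n)) (hB : ∀ j, (B.coeff j).degree < Q.degree) (τ : ℝ)
    (hτ : |h| * P.natDegree + 5 + (Fintype.card Λ * P.natDegree * Cy) *
      (1 + 2 ^ n * P.natDegree) ≤ τ) (C₂ : ℝ) (hC₂ : 1 ≤ C₂) :
    ∃ r₀ : ℝ, 0 < r₀ ∧ ∃ X₀ : ℝ, ∀ r : ℝ, 0 ≤ r → r ≤ r₀ →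
      ∀ (E : Set ((Fin n → K) × K)) (X : (Fin n → K) × K → ℝ), (bigC K n hn).Big E →
        (∀ p ∈ E, Good Z σ₁ θ C₀ r p.1 (X p)) → (∀ p ∈ E, X₀ ≤ X p) →
        (∀ p ∈ E, evh p.1 p.2 P = 0) → (∀ p ∈ E, p.2 ≠ 0) → (∀ p ∈ E, eval p.1 g ≠ 0) →
        (∀ p ∈ E, Z.abv σ₁ (Polynomial.eval₂ (evh p.1 p.2) ((eval p.1 g)⁻¹ ^ 2)
          (Polynomial.C Q + Polynomial.X * Polynomial.C (Polynomial.C g) * B)) ≤
            C₂ * Real.exp ((h * Q.natDegree - τ + 1 + C₂ * r) * X p)) → False := by
  classical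
  set δ : ℕ := P.natDegree with hδ
  set ℓ : ℕ := Q.natDegree with hℓ
  set H := Polynomial.C Q + Polynomial.X * Polynomial.C (Polynomial.C g) * B with hH
  obtain ⟨D, hGd, hGl, hD⟩ := clear_deg g hg0 Q hQ B hB
  rw [← hH] at hGd hGl hD
  set G : Pl K n := clear g H with hG
  have hG0 : G ≠ 0 := by
    intro h0
    rw [h0, Polynomial.leadingCoeff_zero] at hGl
    exact pow_ne_zero _ hg0 hGl.symm
  have hGw : HomW θ h ((2 * D : ℕ) * w) (Polynomial.C G.leadingCoeff) := by
    rw [hGl]
    exact homW_pow hg (2 * D)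
  obtain ⟨m, s, A, hm, hs, hdet, hrow, hrows⟩ := forms θ h G δ (by rw [hGd]; exact hQd) hG0 _ hGw
  choose! β hβ₁ hβ₂ hβ₃ using hrows
  rw [hGd] at hβ₁ hβ₃
  -- constants
  obtain ⟨C₁, hC₁, hroot⟩ := root_le (Z.abv σ₁) θ h P hP hPle
  obtain ⟨Cg, hCg, hgle⟩ := ev_le (Z.abv σ₁) θ h w (Polynomial.C g)
    (fun k α hk => (hg k α hk).le) C₁ hC₁
  set N : ℕ := Fintype.card ((Fin n → Fin (2 * m)) × Fin δ) with hN
  have hNeq : N = (2 * m) ^ n * δ := by
    rw [hN, Fintype.card_prod, Fintype.card_fun, Fintype.card_fin, Fintype.card_fin,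
      Fintype.card_fin]
  -- a bound for the total degrees of `β i`
  set Tβ : ℝ := n * (2 * m : ℕ) + ∑ i ∈ s, (tdeg (β i) : ℝ) with hTβ
  have hTβi : ∀ i ∈ s, (tdeg (β i) : ℝ) ≤ Tβ := by
    intro i hi
    have h1 := Finset.single_le_sum (f := fun i => (tdeg (β i) : ℝ))
      (fun _ _ => Nat.cast_nonneg _) hi
    have h2 : (0 : ℝ) ≤ n * (2 * m : ℕ) := by positivity
    linarith
  have hTβe : ∀ i : (Fin n → Fin (2 * m)) × Fin δ, (tdeg (ex i.1) : ℝ) ≤ Tβ := by
    intro i
    have h1 : (tdeg (ex i.1) : ℝ) ≤ n * (2 * m : ℕ) := by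
      exact_mod_cast tdeg_ex_le i.1
    have h2 : 0 ≤ ∑ i ∈ s, (tdeg (β i) : ℝ) := Finset.sum_nonneg fun _ _ => Nat.cast_nonneg _
    linarith
  have hTβ0 : 0 ≤ Tβ := by
    have h2 : 0 ≤ ∑ i ∈ s, (tdeg (β i) : ℝ) := Finset.sum_nonneg fun _ _ => Nat.cast_nonneg _
    have h3 : (0 : ℝ) ≤ n * (2 * m : ℕ) := by positivity
    linarith
  -- total constant for `r`
  set Cr : ℝ := Tβ + δ * C₁ + (2 * D : ℕ) * Cg + C₂ + 1 with hCr
  have hCr0 : 0 < Cr := by
    have : (0 : ℝ) ≤ δ * C₁ := by positivity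
    have : (0 : ℝ) ≤ (2 * D : ℕ) * Cg := by positivity
    linarith
  -- total multiplicative constant
  set Cm : ℝ := C₁ ^ δ * Cg ^ (2 * D) * C₂ with hCm
  have hCm1 : 1 ≤ Cm := by
    have h1 : 1 ≤ C₁ ^ δ := one_le_pow₀ hC₁
    have h2 : 1 ≤ Cg ^ (2 * D) := one_le_pow₀ hCg
    have h3 : 1 ≤ C₁ ^ δ * Cg ^ (2 * D) := by nlinarith
    nlinarith
  -- exponents
  set e : (Fin n → Fin (2 * m)) × Fin δ → ℝ := fun i =>
    wt θ 0 (ex i.1) 0 + h * (i.2 : ℕ) - τ + 3 with he
  set c₅ : ℝ := Fintype.card Λ * δ * Cy with hc₅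
  have hc₅0 : 0 ≤ c₅ := by positivity
  set Bd : ℝ := (∑ i, |e i|) + Tβ * |C₀| + Fintype.card Λ * δ * Cy + 1 with hBd
  have hcardI : 2 ≤ Fintype.card ((Fin n → Fin (2 * m)) × Fin δ) := by
    rw [← hN, hNeq]
    have h1 : 2 ≤ (2 * m) ^ n := by
      calc 2 ≤ 2 * m := by omega
        _ = (2 * m) ^ 1 := (pow_one _).symm
        _ ≤ (2 * m) ^ n := Nat.pow_le_pow_right (by omega) hn
    have h2 : 1 ≤ δ := by omega
    nlinarith
  obtain ⟨𝒲, hW, hsub⟩ := Z.sub σ₁ ((Fin n → Fin (2 * m)) × Fin δ) A hcardI hdet 1 Bd one_pos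
  refine ⟨1 / Cr, by positivity, Real.log Cm + 1, ?_⟩
  intro r hr0 hr E X hE hgood hX hev hy0 hg0' hsmall
  have hCrr : Cr * r ≤ 1 := by
    calc Cr * r ≤ Cr * (1 / Cr) := mul_le_mul_of_nonneg_left hr hCr0.le
      _ = 1 := by field_simp
  obtain ⟨cc, hcc0, hrel⟩ := rel_of_sub (bigC K n hn) hE
    (fun p (i : (Fin n → Fin (2 * m)) × Fin δ) => evh p.1 p.2 (mono i)) 𝒲 hW (by
    intro p hp
    have hGd' := hgood p hp
    have hX1 := hGd'.X1
    have hX0 : 0 ≤ X p := by linarith
    have hC₀ := hGd'.C₀_nonneg hn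
    have hQ : ∀ b : ℝ, Real.exp (X p) ^ b = Real.exp (b * X p) := by
      intro b
      rw [← Real.exp_mul, mul_comm]
    have hyO : p.2 ∈ Z.O := y_mem Z P hP hPO p.1 (fun j => (hGd'.unit j).2.1) p.2 (hev p hp)
    have hyU := hCy r p.1 p.2 (X p) hGd' (hev p hp)
    have hypos : ∀ σ, 0 < Z.abv σ p.2 := fun σ => Z.pos σ (hy0 p hp)
    have hmono : ∀ σ (i : (Fin n → Fin (2 * m)) × Fin δ), Z.abv σ (evh p.1 p.2 (mono i)) =
        Z.abv σ (mon p.1 (ex i.1)) * Z.abv σ p.2 ^ (i.2 : ℕ) := by
      intro σ i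
      rw [evh_mono, map_mul, map_pow]
    have hCyX : 1 ≤ Real.exp (Cy * X p) := Real.one_le_exp (by positivity)
    -- product over subsets of absolute values
    have hprodle : ∀ (T : Finset Λ), ∏ σ ∈ T, Z.abv σ p.2 ≤ Real.exp (Fintype.card Λ * Cy * X p) := by
      intro T
      calc ∏ σ ∈ T, Z.abv σ p.2 ≤ ∏ σ ∈ T, Real.exp (Cy * X p) :=
            Finset.prod_le_prod (fun σ _ => (hypos σ).le) fun σ _ => hyU σ
        _ = Real.exp (Cy * X p) ^ T.card := Finset.prod_const _
        _ ≤ Real.exp (Cy * X p) ^ Fintype.card Λ :=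
            pow_le_pow_right₀ hCyX (Finset.card_le_univ T)
        _ = Real.exp (Fintype.card Λ * Cy * X p) := by
            rw [← Real.exp_nat_mul]
            congr 1
            ring
    have hylow : ∀ σ, Real.exp (-(Fintype.card Λ * Cy * X p)) ≤ Z.abv σ p.2 := by
      intro σ
      have h1 := Z.one_le p.2 hyO (hy0 p hp)
      rw [← Finset.mul_prod_erase _ _ (Finset.mem_univ σ)] at h1
      have h2 := hprodle (Finset.univ.erase σ)
      have h3 : 1 ≤ Z.abv σ p.2 * Real.exp (Fintype.card Λ * Cy * X p) :=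
        h1.trans (mul_le_mul_of_nonneg_left h2 (hypos σ).le)
      rw [Real.exp_neg]
      rw [inv_le_iff_one_le_mul₀ (Real.exp_pos _)]
      linarith
    have hkδ : ∀ i : (Fin n → Fin (2 * m)) × Fin δ, ((i.2 : ℕ) : ℝ) ≤ δ := fun i => by
      exact_mod_cast i.2.2.le
    have hΛ1 : (1 : ℝ) ≤ Fintype.card Λ := by
      exact_mod_cast Fintype.card_pos_iff.mpr ⟨σ₁⟩
    -- bounds for the coordinates
    have hcoord : ∀ σ (i : (Fin n → Fin (2 * m)) × Fin δ),
        Real.exp (-(Bd * X p)) ≤ Z.abv σ (evh p.1 p.2 (mono i)) ∧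
          Z.abv σ (evh p.1 p.2 (mono i)) ≤ Real.exp (Bd * X p) := by
      intro σ i
      rw [hmono]
      obtain ⟨h1, h2⟩ := hGd'.mon_bounds σ (ex i.1)
      have h3 : (tdeg (ex i.1) : ℝ) * C₀ * X p ≤ Tβ * |C₀| * X p := by
        rw [abs_of_nonneg hC₀]
        exact mul_le_mul_of_nonneg_right (mul_le_mul_of_nonneg_right (hTβe i) hC₀) hX0
      have h4 : 0 ≤ ∑ i, |e i| := Finset.sum_nonneg fun _ _ => abs_nonneg _
      have h5 : Real.exp (-(Fintype.card Λ * δ * Cy * X p)) ≤ Z.abv σ p.2 ^ (i.2 : ℕ) := by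
        calc Real.exp (-(Fintype.card Λ * δ * Cy * X p))
            ≤ Real.exp ((i.2 : ℕ) * (-(Fintype.card Λ * Cy * X p))) := by
              apply Real.exp_le_exp.mpr
              have h6 : ((i.2 : ℕ) : ℝ) * (Fintype.card Λ * Cy * X p) ≤
                  δ * (Fintype.card Λ * Cy * X p) :=
                mul_le_mul_of_nonneg_right (hkδ i) (by positivity)
              nlinarith
          _ = Real.exp (-(Fintype.card Λ * Cy * X p)) ^ (i.2 : ℕ) := Real.exp_nat_mul _ _
          _ ≤ _ := pow_le_pow_left₀ (Real.exp_pos _).le (hylow σ) _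
      have h5' : Z.abv σ p.2 ^ (i.2 : ℕ) ≤ Real.exp (Fintype.card Λ * δ * Cy * X p) := by
        calc Z.abv σ p.2 ^ (i.2 : ℕ) ≤ Real.exp (Cy * X p) ^ (i.2 : ℕ) :=
              pow_le_pow_left₀ (hypos σ).le (hyU σ) _
          _ = Real.exp ((i.2 : ℕ) * (Cy * X p)) := (Real.exp_nat_mul _ _).symm
          _ ≤ _ := by
              apply Real.exp_le_exp.mpr
              have h6 : ((i.2 : ℕ) : ℝ) * (Cy * X p) ≤ δ * (Cy * X p) :=
                mul_le_mul_of_nonneg_right (hkδ i) (by positivity)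
              have h7 : (δ : ℝ) * (Cy * X p) ≤ Fintype.card Λ * (δ * (Cy * X p)) :=
                le_mul_of_one_le_left (by positivity) hΛ1
              nlinarith
      constructor
      · calc Real.exp (-(Bd * X p)) ≤
            Real.exp (-(Tβ * |C₀| * X p) + -(Fintype.card Λ * δ * Cy * X p)) := by
              apply Real.exp_le_exp.mpr
              have : 0 ≤ ((∑ i, |e i|) + 1) * X p := by positivity
              rw [hBd]
              nlinarith
          _ = Real.exp (-(Tβ * |C₀| * X p)) * Real.exp (-(Fintype.card Λ * δ * Cy * X p)) :=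
              Real.exp_add _ _
          _ ≤ _ := mul_le_mul (le_trans (Real.exp_le_exp.mpr (by linarith)) h1) h5
              (Real.exp_pos _).le ((Z.abv σ).nonneg _)
      · calc Z.abv σ (mon p.1 (ex i.1)) * Z.abv σ p.2 ^ (i.2 : ℕ)
            ≤ Real.exp (Tβ * |C₀| * X p) * Real.exp (Fintype.card Λ * δ * Cy * X p) :=
              mul_le_mul (h2.trans (Real.exp_le_exp.mpr h3)) h5'
                (pow_nonneg ((Z.abv σ).nonneg _) _) (Real.exp_pos _).le
          _ = Real.exp (Tβ * |C₀| * X p + Fintype.card Λ * δ * Cy * X p) :=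
              (Real.exp_add _ _).symm
          _ ≤ _ := by
              apply Real.exp_le_exp.mpr
              have : 0 ≤ ((∑ i, |e i|) + 1) * X p := by positivity
              rw [hBd]
              nlinarith
    apply hsub (Real.exp (X p)) (fun i => if i ∈ s then Real.exp (e i * X p) else
      Z.abv σ₁ (evh p.1 p.2 (mono i))) (fun i => evh p.1 p.2 (mono i))
    · exact Real.one_le_exp hX0
    · intro i
      rw [evh_mono]
      exact Z.O.mul_mem (hGd'.mon_isU _).2.1 (Z.O.pow_mem hyO _)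
    · intro i
      rw [hQ, hQ, neg_mul]
      by_cases hi : i ∈ s
      · simp only [hi, if_true]
        have h1 : |e i| ≤ Bd := by
          have h2 := Finset.single_le_sum (f := fun i => |e i|) (fun _ _ => abs_nonneg _)
            (Finset.mem_univ i)
          have h3 : 0 ≤ Tβ * |C₀| := by positivity
          have h4 : 0 ≤ (Fintype.card Λ : ℝ) * δ * Cy := by positivity
          linarith
        have h5 := neg_abs_le (e i)
        have h6 := le_abs_self (e i)
        constructor
        · apply Real.exp_le_exp.mpr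
          rw [← neg_mul]
          exact mul_le_mul_of_nonneg_right (by linarith) hX0
        · apply Real.exp_le_exp.mpr
          exact mul_le_mul_of_nonneg_right (by linarith) hX0
      · simp only [hi, if_false]
        exact hcoord σ₁ i
    · intro σ i
      rw [hQ, hQ, neg_mul]
      exact hcoord σ i
    · intro i
      by_cases hi : i ∈ s
      · simp only [hi, if_true]
        have h1 : ∑ j, A i j * evh p.1 p.2 (mono j) =
            mon p.1 (β i) * p.2 ^ ((i.2 : ℕ) - ℓ) * (eval p.1 g ^ (2 * D) *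
              Polynomial.eval₂ (evh p.1 p.2) ((eval p.1 g)⁻¹ ^ 2) H) := by
          have h2 := congrArg (evh p.1 p.2) (hβ₃ i hi)
          rw [map_sum] at h2
          have h3 : ∀ j, evh p.1 p.2 (Polynomial.C (C (A i j)) * mono j) =
              A i j * evh p.1 p.2 (mono j) := by
            intro j
            rw [map_mul, evh_C, eval_C]
          rw [Finset.sum_congr rfl fun j _ => h3 j] at h2
          rw [h2, map_mul, map_mul, evh_C, map_pow, evh_X, eval_monomial', one_mul, hG,
            evh_clear g H p.1 p.2 (hg0' p hp), ← hD]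
        rw [h1, map_mul, map_mul, map_mul, map_pow, map_pow]
        have ha := mon_le hGd'.near (β i)
        have hb : Z.abv σ₁ p.2 ≤ C₁ * Real.exp ((h + C₁ * r) * X p) :=
          hroot p.1 p.2 r (X p) hX1 hr0 hGd'.near (hev p hp)
        have hc := hgle p.1 p.2 r (X p) hX1 hr0 hGd'.near hb
        rw [evh_C] at hc
        have hd := hsmall p hp
        have hwt : wt θ 0 (β i) 0 + (2 * D : ℕ) * w = wt θ 0 (ex i.1) 0 := by
          have := hβ₂ i hi
          rw [wt_zero_right, wt_zero_right θ h (ex i.1)] at this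
          exact this
        have hℓk := hβ₁ i hi
        set k' : ℕ := (i.2 : ℕ) - ℓ with hk'
        have hk'' : ((k' : ℕ) : ℝ) = (i.2 : ℕ) - ℓ := by
          rw [hk', Nat.cast_sub hℓk]
        have hk'δ : (k' : ℝ) ≤ δ := by
          have := hkδ i
          have h0 : (0 : ℝ) ≤ ℓ := Nat.cast_nonneg _
          linarith
        have hk'n : k' ≤ δ := by exact_mod_cast hk'δ
        have hb' : Z.abv σ₁ p.2 ^ k' ≤ C₁ ^ δ * Real.exp (k' * ((h + C₁ * r) * X p)) := by
          calc Z.abv σ₁ p.2 ^ k' ≤ (C₁ * Real.exp ((h + C₁ * r) * X p)) ^ k' :=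
                pow_le_pow_left₀ (hypos σ₁).le hb _
            _ = C₁ ^ k' * Real.exp (k' * ((h + C₁ * r) * X p)) := by
                rw [mul_pow, ← Real.exp_nat_mul]
            _ ≤ _ := mul_le_mul_of_nonneg_right (pow_le_pow_right₀ hC₁ hk'n) (Real.exp_pos _).le
        have hc' : Z.abv σ₁ (eval p.1 g) ^ (2 * D) ≤
            Cg ^ (2 * D) * Real.exp ((2 * D : ℕ) * ((w + Cg * r) * X p)) := by
          calc Z.abv σ₁ (eval p.1 g) ^ (2 * D) ≤ (Cg * Real.exp ((w + Cg * r) * X p)) ^ (2 * D) :=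
                pow_le_pow_left₀ ((Z.abv σ₁).nonneg _) hc _
            _ = _ := by rw [mul_pow, ← Real.exp_nat_mul]
        calc Z.abv σ₁ (mon p.1 (β i)) * Z.abv σ₁ p.2 ^ k' * (Z.abv σ₁ (eval p.1 g) ^ (2 * D) *
              Z.abv σ₁ (Polynomial.eval₂ (evh p.1 p.2) ((eval p.1 g)⁻¹ ^ 2) H))
            ≤ Real.exp ((wt θ 0 (β i) 0 + tdeg (β i) * r) * X p) *
                (C₁ ^ δ * Real.exp (k' * ((h + C₁ * r) * X p))) *
                ((Cg ^ (2 * D) * Real.exp ((2 * D : ℕ) * ((w + Cg * r) * X p))) *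
                  (C₂ * Real.exp ((h * ℓ - τ + 1 + C₂ * r) * X p))) := by
              apply mul_le_mul
              · exact mul_le_mul ha hb' (pow_nonneg ((Z.abv σ₁).nonneg _) _) (Real.exp_pos _).le
              · exact mul_le_mul hc' hd ((Z.abv σ₁).nonneg _) (by positivity)
              · exact mul_nonneg (pow_nonneg ((Z.abv σ₁).nonneg _) _) ((Z.abv σ₁).nonneg _)
              · positivity
          _ = Cm * Real.exp ((wt θ 0 (β i) 0 + tdeg (β i) * r) * X p +
                k' * ((h + C₁ * r) * X p) + (2 * D : ℕ) * ((w + Cg * r) * X p) +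
                (h * ℓ - τ + 1 + C₂ * r) * X p) := by
              rw [Real.exp_add, Real.exp_add, Real.exp_add, hCm]
              ring
          _ ≤ Real.exp (X p) * Real.exp ((wt θ 0 (β i) 0 + tdeg (β i) * r) * X p +
                k' * ((h + C₁ * r) * X p) + (2 * D : ℕ) * ((w + Cg * r) * X p) +
                (h * ℓ - τ + 1 + C₂ * r) * X p) := by
              apply mul_le_mul_of_nonneg_right _ (Real.exp_pos _).le
              rw [← Real.log_le_iff_le_exp (by linarith)]
              have := hX p hp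
              linarith
          _ ≤ Real.exp (e i * X p) := by
              rw [← Real.exp_add]
              apply Real.exp_le_exp.mpr
              have h10 : X p + ((wt θ 0 (β i) 0 + tdeg (β i) * r) * X p +
                k' * ((h + C₁ * r) * X p) + (2 * D : ℕ) * ((w + Cg * r) * X p) +
                (h * ℓ - τ + 1 + C₂ * r) * X p) =
                (wt θ 0 (ex i.1) 0 + h * (i.2 : ℕ) - τ + 2 + (tdeg (β i) + k' * C₁ +
                  (2 * D : ℕ) * Cg + C₂) * r) * X p := by
                rw [← hwt, hk'']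
                ring
              rw [h10, he]
              apply mul_le_mul_of_nonneg_right _ hX0
              have h11 : ((tdeg (β i) : ℝ) + k' * C₁ + (2 * D : ℕ) * Cg + C₂) * r ≤ Cr * r := by
                apply mul_le_mul_of_nonneg_right _ hr0
                have h12 := hTβi i hi
                have h13 : (k' : ℝ) * C₁ ≤ δ * C₁ := mul_le_mul_of_nonneg_right hk'δ (by linarith)
                linarith
              simp only
              linarith
      · simp only [hi, if_false]
        rw [Finset.sum_eq_single i]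
        · rw [hrow i hi i, if_pos rfl, one_mul]
        · intro j _ hj
          rw [hrow i hi j, if_neg (fun h => hj h.symm), zero_mul]
        · exact fun h => absurd (Finset.mem_univ _) h
    · -- the product
      rw [hQ, ← Finset.prod_mul_distrib]
      have hX0' := hX0
      have hP1 : ∀ i : (Fin n → Fin (2 * m)) × Fin δ, ∏ σ ∈ Finset.univ.erase σ₁,
          Z.abv σ (evh p.1 p.2 (mono i)) ≤
            (Z.abv σ₁ (mon p.1 (ex i.1)))⁻¹ * Real.exp (c₅ * X p) := by
        intro i
        rw [Finset.prod_congr rfl fun σ _ => hmono σ i, Finset.prod_mul_distrib,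
          Z.prod_erase (hGd'.mon_isU _), Finset.prod_pow]
        apply mul_le_mul_of_nonneg_left _ (inv_nonneg.mpr ((Z.abv σ₁).nonneg _))
        calc (∏ σ ∈ Finset.univ.erase σ₁, Z.abv σ p.2) ^ (i.2 : ℕ)
            ≤ Real.exp (Fintype.card Λ * Cy * X p) ^ (i.2 : ℕ) :=
              pow_le_pow_left₀ (Finset.prod_nonneg fun σ _ => (hypos σ).le) (hprodle _) _
          _ ≤ Real.exp (Fintype.card Λ * Cy * X p) ^ δ :=
              pow_le_pow_right₀ (Real.one_le_exp (by positivity)) i.2.2.le
          _ = Real.exp (c₅ * X p) := by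
              rw [← Real.exp_nat_mul, hc₅]
              congr 1
              ring
      have hP2 : ∀ i : (Fin n → Fin (2 * m)) × Fin δ,
          (if i ∈ s then Real.exp (e i * X p) else Z.abv σ₁ (evh p.1 p.2 (mono i))) *
            ∏ σ ∈ Finset.univ.erase σ₁, Z.abv σ (evh p.1 p.2 (mono i)) ≤
          if i ∈ s then Real.exp ((|h| * δ + 4 - τ + c₅) * X p) else Real.exp (c₅ * X p) := by
        intro i
        by_cases hi : i ∈ s
        · simp only [hi, if_true]
          have h1 := le_mon hGd'.near (ex i.1)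
          have h2 : (Z.abv σ₁ (mon p.1 (ex i.1)))⁻¹ ≤
              Real.exp (-((wt θ 0 (ex i.1) 0 - tdeg (ex i.1) * r) * X p)) := by
            rw [Real.exp_neg]
            exact inv_anti₀ (Real.exp_pos _) h1
          have h3 : (tdeg (ex i.1) : ℝ) * r ≤ 1 := by
            refine le_trans (mul_le_mul_of_nonneg_right ?_ hr0) hCrr
            have h12 := hTβe i
            have h13 : (0 : ℝ) ≤ δ * C₁ := by positivity
            have h14 : (0 : ℝ) ≤ (2 * D : ℕ) * Cg := by positivity
            linarith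
          have h4 : h * (i.2 : ℕ) ≤ |h| * δ := by
            calc h * (i.2 : ℕ) ≤ |h| * (i.2 : ℕ) :=
                  mul_le_mul_of_nonneg_right (le_abs_self h) (Nat.cast_nonneg _)
              _ ≤ |h| * δ := mul_le_mul_of_nonneg_left (hkδ i) (abs_nonneg h)
          calc Real.exp (e i * X p) * ∏ σ ∈ Finset.univ.erase σ₁, Z.abv σ (evh p.1 p.2 (mono i))
              ≤ Real.exp (e i * X p) * (Real.exp (-((wt θ 0 (ex i.1) 0 -
                  tdeg (ex i.1) * r) * X p)) * Real.exp (c₅ * X p)) := by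
                apply mul_le_mul_of_nonneg_left _ (Real.exp_pos _).le
                exact (hP1 i).trans (mul_le_mul_of_nonneg_right h2 (Real.exp_pos _).le)
            _ = Real.exp ((h * (i.2 : ℕ) - τ + 3 + tdeg (ex i.1) * r + c₅) * X p) := by
                rw [← Real.exp_add, ← Real.exp_add]
                congr 1
                rw [he]
                ring
            _ ≤ _ := by
                apply Real.exp_le_exp.mpr
                apply mul_le_mul_of_nonneg_right _ hX0
                linarith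
        · simp only [hi, if_false]
          calc Z.abv σ₁ (evh p.1 p.2 (mono i)) * ∏ σ ∈ Finset.univ.erase σ₁,
                Z.abv σ (evh p.1 p.2 (mono i))
              = ∏ σ, Z.abv σ (evh p.1 p.2 (mono i)) :=
                Finset.mul_prod_erase Finset.univ
                  (fun σ => Z.abv σ (evh p.1 p.2 (mono i))) (Finset.mem_univ σ₁)
            _ = (∏ σ, Z.abv σ p.2) ^ (i.2 : ℕ) := by
                rw [Finset.prod_congr rfl fun σ _ => hmono σ i, Finset.prod_mul_distrib,
                  Z.prod_unit (hGd'.mon_isU _), one_mul, Finset.prod_pow]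
            _ ≤ Real.exp (Fintype.card Λ * Cy * X p) ^ (i.2 : ℕ) :=
                pow_le_pow_left₀ (Finset.prod_nonneg fun σ _ => (hypos σ).le) (hprodle _) _
            _ ≤ Real.exp (Fintype.card Λ * Cy * X p) ^ δ :=
                pow_le_pow_right₀ (Real.one_le_exp (by positivity)) i.2.2.le
            _ = Real.exp (c₅ * X p) := by
                rw [← Real.exp_nat_mul, hc₅]
                congr 1
                ring
      refine (Finset.prod_le_prod (fun i _ => ?_) fun i _ => hP2 i).trans ?_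
      · apply mul_nonneg
        · split_ifs
          · exact (Real.exp_pos _).le
          · exact (Z.abv σ₁).nonneg _
        · exact Finset.prod_nonneg fun σ _ => (Z.abv σ).nonneg _
      · rw [Finset.prod_ite, Finset.prod_const, Finset.prod_const]
        have hf1 : (Finset.univ.filter fun i => i ∈ s) = s := by
          ext i
          simp
        rw [hf1, ← Real.exp_nat_mul, ← Real.exp_nat_mul, ← Real.exp_add]
        apply Real.exp_le_exp.mpr
        have hcs : ((Finset.univ.filter fun i => ¬ i ∈ s).card : ℝ) ≤ N := by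
          exact_mod_cast Finset.card_le_univ _
        have hNs : (N : ℝ) ≤ 2 ^ n * δ * s.card := by
          have h1 : N ≤ 2 ^ n * δ * s.card := by
            rw [hNeq, mul_pow]
            calc 2 ^ n * m ^ n * δ = 2 ^ n * δ * m ^ n := by ring
              _ ≤ 2 ^ n * δ * s.card := Nat.mul_le_mul_left _ hs
          exact_mod_cast h1
        have hs1 : (1 : ℝ) ≤ s.card := by
          have : 1 ≤ s.card := (Nat.one_le_pow _ _ (by omega)).trans hs
          exact_mod_cast this
        have h20 : ((Finset.univ.filter fun i => ¬ i ∈ s).card : ℝ) * (c₅ * X p) ≤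
            2 ^ n * δ * s.card * (c₅ * X p) :=
          mul_le_mul_of_nonneg_right (hcs.trans hNs) (by positivity)
        have h21 : (s.card : ℝ) * ((|h| * δ + 4 - τ + c₅) * X p) +
            2 ^ n * δ * s.card * (c₅ * X p) =
            s.card * ((|h| * δ + 4 + c₅ * (1 + 2 ^ n * δ) - τ) * X p) := by ring
        have h22 : (|h| * δ + 4 + c₅ * (1 + 2 ^ n * δ) - τ) * X p ≤ (-1) * X p := by
          apply mul_le_mul_of_nonneg_right _ hX0
          linarith
        have h23 : (s.card : ℝ) * ((-1) * X p) ≤ -1 * X p := by nlinarith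
        calc (s.card : ℝ) * ((|h| * δ + 4 - τ + c₅) * X p) +
              ((Finset.univ.filter fun i => ¬ i ∈ s).card : ℝ) * (c₅ * X p)
            ≤ s.card * ((|h| * δ + 4 + c₅ * (1 + 2 ^ n * δ) - τ) * X p) := by linarith
          _ ≤ s.card * ((-1) * X p) := mul_le_mul_of_nonneg_left h22 (by linarith)
          _ ≤ -1 * X p := h23)
  -- the relation is impossible
  set G' : Pl K n := ∑ i, Polynomial.C (C (cc i)) * mono i with hG'
  have hG'0 : G' ≠ 0 := by
    intro h0
    apply hcc0
    funext i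
    have h1 := coeff_sum_mono cc i.1 i.2
    rw [← hG', h0, Polynomial.coeff_zero, coeff_zero] at h1
    exact h1.symm
  have hG'd : G'.degree < P.degree := by
    rw [Polynomial.degree_eq_natDegree hP.ne_zero]
    exact degree_sum_mono cc
  obtain ⟨g', hg'0, hg'⟩ := irr_rel P hP hirr G' hG'0 hG'd
  apply hrel
  refine unit_rel Z hn g' hg'0 _ ?_
  rintro p ⟨hp, hp0⟩
  refine ⟨(hgood p hp).unit, hg' p.1 p.2 (hev p hp) ?_⟩
  rw [hG', map_sum, ← hp0]
  apply Finset.sum_congr rfl
  intro i _
  rw [map_mul, evh_C, eval_C]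

end Pool.Agent.Helper10.RC
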