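import Pool.Agent.Helper10.RC.Local
import Pool.Agent.Helper85.RCSYS

/-!
# The global theorem
-/

set_option autoImplicit false

namespace Pool.Agent.Helper10.RC

open MvPolynomial NumberField
open Pool.Agent.Helper47.RC (descent kum_monic kum_map irr_descent)
open Pool.Agent.Helper54.RC (bezout)
open Pool.Agent.Helper16.RC (fin_classes)
open Pool.Agent.Helper85.RC (exists_psys)

/-- The initial polynomial of `P(u₁^N, …, u_n^N; Y)` in the direction `ν` splits into two coprime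
factors over the algebraic closure, for some `N`. -/
def SplitsAt {K : Type} [Field K] {n : ℕ} (P : Pl K n) (ν : Fin n → ℝ) : Prop :=
  ∃ (N : ℕ) (h : ℝ) (Q₁ Q₂ : Pl (AlgebraicClosure K) n), 1 ≤ N ∧ Q₁.Monic ∧ Q₂.Monic ∧
    1 ≤ Q₁.natDegree ∧ 1 ≤ Q₂.natDegree ∧
    IsCoprime (Q₁.map (algebraMap _ (FractionRing (MvPolynomial (Fin n) (AlgebraicClosure K)))))
      (Q₂.map (algebraMap _ (FractionRing (MvPolynomial (Fin n) (AlgebraicClosure K))))) ∧
    (∀ k α, coeff α ((kum (AlgebraicClosure K) P N).coeff k) ≠ 0 →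
      wt ν h α k ≤ h * P.natDegree) ∧
    ∀ k α, coeff α ((Q₁ * Q₂).coeff k) =
      if wt ν h α k = h * P.natDegree then coeff α ((kum (AlgebraicClosure K) P N).coeff k) else 0

lemma Cov.mono {K : Type} [Field K] {n : ℕ} {E E' : Set ((Fin n → K) × K)} (h : E ⊆ E')
    (hE' : Cov E') : Cov E := by
  obtain ⟨A, h1, h2⟩ := hE'
  exact ⟨A, h1, fun p hp => h2 p (h hp)⟩

lemma Cov.union {K : Type} [Field K] {n : ℕ} {E E' : Set ((Fin n → K) × K)} (hE : Cov E)
    (hE' : Cov E') : Cov (E ∪ E') := by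
  classical
  obtain ⟨A, h1, h2⟩ := hE
  obtain ⟨A', h1', h2'⟩ := hE'
  refine ⟨A ∪ A', ?_, ?_⟩
  · intro a ha
    rcases Finset.mem_union.mp ha with ha | ha
    exacts [h1 a ha, h1' a ha]
  · rintro p (hp | hp)
    · obtain ⟨a, ha, h⟩ := h2 p hp
      exact ⟨a, Finset.mem_union_left _ ha, h⟩
    · obtain ⟨a, ha, h⟩ := h2' p hp
      exact ⟨a, Finset.mem_union_right _ ha, h⟩

lemma Cov.empty {K : Type} [Field K] {n : ℕ} : Cov (∅ : Set ((Fin n → K) × K)) :=
  ⟨∅, fun a ha => absurd ha (Finset.notMem_empty a), fun p hp => absurd hp (Set.notMem_empty p)⟩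

/-- Cosets descend along `N`-th powers. -/
lemma Cov.descend {K L : Type} [Field K] [Field L] [Algebra K L] {n : ℕ} (N : ℕ)
    {E : Set ((Fin n → K) × K)} {E' : Set ((Fin n → L) × L)}
    (h : ∀ p ∈ E, ∃ q ∈ E', ∀ j, q.1 j ^ N = algebraMap K L (p.1 j)) (hE' : Cov E') : Cov E := by
  classical
  obtain ⟨A, h1, h2⟩ := hE'
  refine ⟨A.image fun a => (a.1, if h : ∃ c : K, algebraMap K L c = a.2 ^ N then h.choose else 0),
    ?_, ?_⟩
  · intro a ha
    obtain ⟨b, hb, rfl⟩ := Finset.mem_image.mp ha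
    exact h1 b hb
  · intro p hp
    obtain ⟨q, hq, hqp⟩ := h p hp
    obtain ⟨a, ha, haq⟩ := h2 q hq
    have h3 : algebraMap K L (∏ j, p.1 j ^ a.1 j) = a.2 ^ N := by
      rw [← haq, map_prod, ← Finset.prod_pow]
      refine Finset.prod_congr rfl fun j _ => ?_
      rw [map_zpow₀, ← hqp j, ← zpow_natCast, ← zpow_natCast, ← zpow_mul, ← zpow_mul, mul_comm]
    refine ⟨_, Finset.mem_image.mpr ⟨a, ha, rfl⟩, ?_⟩
    have h4 : ∃ c : K, algebraMap K L c = a.2 ^ N := ⟨_, h3⟩
    simp only [dif_pos h4]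
    apply (algebraMap K L).injective
    rw [h4.choose_spec, h3]

lemma evh_kum {K L : Type} [Field K] [Field L] [Algebra K L] {n : ℕ} (P : Pl K n) (N : ℕ)
    (T : Fin n → L) (u : Fin n → K) (y : K) (hT : ∀ j, T j ^ N = algebraMap K L (u j)) :
    evh T (algebraMap K L y) (kum L P N) = algebraMap K L (evh u y P) := by
  unfold evh kum
  rw [Polynomial.coe_eval₂RingHom, Polynomial.coe_eval₂RingHom, Polynomial.eval₂_map,
    Polynomial.hom_eval₂]
  congr 1
  apply MvPolynomial.ringHom_ext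
  · intro r
    change eval T (expand N (MvPolynomial.map (algebraMap K L) (C r))) =
      algebraMap K L (eval u (C r))
    rw [map_C, expand_C, eval_C, eval_C]
  · intro i
    change eval T (expand N (MvPolynomial.map (algebraMap K L) (X i))) =
      algebraMap K L (eval u (X i))
    rw [map_X, expand_X, map_pow, eval_X, eval_X, hT i]

section places
variable {K : Type} [Field K] [NumberField K] (S : Finset (FinitePlace K))

/-- The logarithm attached to a place (with the multiplicity for the infinite ones). -/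
noncomputable def plog : InfinitePlace K ⊕ {v // v ∈ S} → K → ℝ
  | Sum.inl w, x => w.mult * Real.log (w x)
  | Sum.inr v, x => Real.log (v.1 x)

/-- `x` is an `S`-unit. -/
def SU (x : K) : Prop := x ≠ 0 ∧ ∀ v : FinitePlace K, v ∉ S → v x = 1

lemma plog_sum {x : K} (hx : SU S x) : ∑ p, plog S p x = 0 := by
  classical
  have h := prod_abs_eq_one hx.1
  have h1 : ∏ᶠ v : FinitePlace K, v x = ∏ v ∈ S, v x := by
    apply finprod_eq_prod_of_mulSupport_subset
    intro v hv
    rw [Function.mem_mulSupport] at hv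
    by_contra hvS
    exact hv (hx.2 v hvS)
  rw [h1] at h
  have h2 := congrArg Real.log h
  have hw0 : ∀ w : InfinitePlace K, w x ≠ 0 := fun w => (InfinitePlace.pos_iff.mpr hx.1).ne'
  have hv0 : ∀ v : FinitePlace K, v x ≠ 0 := fun v => by
    rw [Ne, map_eq_zero]
    exact hx.1
  rw [Real.log_one, Real.log_mul (Finset.prod_ne_zero_iff.mpr fun w _ => pow_ne_zero _ (hw0 w))
    (Finset.prod_ne_zero_iff.mpr fun v _ => hv0 v),
    Real.log_prod (fun w _ => pow_ne_zero _ (hw0 w)), Real.log_prod (fun v _ => hv0 v)] at h2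
  rw [Fintype.sum_sum_type]
  rw [← h2]
  congr 1
  · refine Finset.sum_congr rfl fun w _ => ?_
    rw [Real.log_pow]
    rfl
  · rw [← Finset.sum_attach S]
    rfl

/-- Comparison of the absolute values of `exists_psys` with the places. -/
lemma exists_psys' (L : Type) [Field L] [NumberField L] [Algebra K L] (F : Finset L) :
    ∃ (Λ : Type) (_ : Fintype Λ) (_ : DecidableEq Λ) (Z : PSys L Λ),
      (∀ x ∈ F, x ∈ Z.O) ∧ (∀ x : K, SU S x → Z.IsU (algebraMap K L x)) ∧
      (∀ p : InfinitePlace K ⊕ {v // v ∈ S}, ∃ (σ : Λ) (κ : ℝ), 0 < κ ∧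
        ∀ x : K, x ≠ 0 → Real.log (Z.abv σ (algebraMap K L x)) = κ * plog S p x) ∧
      ∃ C : ℝ, 0 ≤ C ∧ ∀ (σ : Λ) (x : K) (H : ℝ), 0 ≤ H → SU S x → (∀ p, |plog S p x| ≤ H) →
        |Real.log (Z.abv σ (algebraMap K L x))| ≤ C * H := by
  classical
  obtain ⟨Λ, i1, i2, Z, hF, hO, hinf, hfin, hall⟩ := exists_psys K L S F
  have hw0 : ∀ (w : InfinitePlace K) (x : K), x ≠ 0 → 0 < w x :=
    fun w x hx => InfinitePlace.pos_iff.mpr hx
  have hv0 : ∀ (v : FinitePlace K) (x : K), x ≠ 0 → 0 < v x := fun v x hx => by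
    exact FinitePlace.pos_iff.mpr hx
  refine ⟨Λ, i1, i2, Z, hF, ?_, ?_, ?_⟩
  · intro x hx
    refine ⟨?_, hO x fun v hv => (hx.2 v hv).le, ?_⟩
    · rw [Ne, map_eq_zero]
      exact hx.1
    · rw [← map_inv₀]
      apply hO
      intro v hv
      rw [map_inv₀, hx.2 v hv, inv_one]
  · rintro (w | v)
    · obtain ⟨σ, κ, hκ, h⟩ := hinf w
      have hm : (0 : ℝ) < w.mult := by exact_mod_cast w.mult_pos
      refine ⟨σ, κ / w.mult, by positivity, fun x hx => ?_⟩
      rw [h x, Real.log_rpow (hw0 w x hx)]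
      change κ * _ = κ / w.mult * (w.mult * Real.log (w x))
      field_simp
    · obtain ⟨σ, κ, hκ, h⟩ := hfin v.1 v.2
      refine ⟨σ, κ, hκ, fun x hx => ?_⟩
      rw [h x, Real.log_rpow (hv0 v.1 x hx)]
      rfl
  · have h1 : ∀ σ : Λ, ∃ C : ℝ, 0 ≤ C ∧ ∀ (x : K) (H : ℝ), 0 ≤ H → SU S x →
        (∀ p, |plog S p x| ≤ H) → |Real.log (Z.abv σ (algebraMap K L x))| ≤ C * H := by
      intro σ
      rcases hall σ with ⟨w, κ, hκ, h⟩ | ⟨v, κ, hκ, h⟩
      · have hm : (0 : ℝ) < w.mult := by exact_mod_cast w.mult_pos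
        refine ⟨κ / w.mult, by positivity, fun x H hH hx hxH => ?_⟩
        have h2 := hxH (Sum.inl w)
        change |w.mult * Real.log (w x)| ≤ H at h2
        rw [abs_mul, abs_of_pos hm] at h2
        rw [h x, Real.log_rpow (hw0 w x hx.1), abs_mul, abs_of_pos hκ, div_mul_eq_mul_div,
          le_div_iff₀ hm]
        nlinarith
      · refine ⟨κ, hκ.le, fun x H hH hx hxH => ?_⟩
        rw [h x, Real.log_rpow (hv0 v x hx.1), abs_mul, abs_of_pos hκ]
        apply mul_le_mul_of_nonneg_left _ hκ.le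
        by_cases hv : v ∈ S
        · exact hxH (Sum.inr ⟨v, hv⟩)
        · rw [hx.2 v hv, Real.log_one, abs_zero]
          exact hH
    choose C hC h using h1
    refine ⟨∑ σ, C σ, Finset.sum_nonneg fun σ _ => hC σ, fun σ x H hH hx hxH => ?_⟩
    refine (h σ x H hH hx hxH).trans (mul_le_mul_of_nonneg_right ?_ hH)
    exact Finset.single_le_sum (f := C) (fun σ _ => hC σ) (Finset.mem_univ σ)

/-- The pairs `(u, y)` with `u` a vector of `S`-units and `P(u; y) = 0`. -/
def Pts {n : ℕ} (P : Pl K n) : Set ((Fin n → K) × K) :=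
  {p | (∀ j, SU S (p.1 j)) ∧ evh p.1 p.2 P = 0}

/-- The logarithms of the coordinates of `u`. -/
noncomputable def lvec {n : ℕ} (u : Fin n → K) : InfinitePlace K ⊕ {v // v ∈ S} → Fin n → ℝ :=
  fun p j => plog S p (u j)

lemma lvec_le {n : ℕ} (u : Fin n → K) (p : InfinitePlace K ⊕ {v // v ∈ S}) (j : Fin n) :
    |plog S p (u j)| ≤ ‖lvec S u‖ := by
  have h1 := norm_le_pi_norm (lvec S u) p
  have h2 := norm_le_pi_norm (lvec S u p) j
  exact h2.trans h1

lemma isU_of_pow {L Λ : Type} [Field L] [Fintype Λ] [DecidableEq Λ] (Z : PSys L Λ) {N : ℕ}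
    (hN : 1 ≤ N) {T : L} (h : Z.IsU (T ^ N)) : Z.IsU T := by
  have key : ∀ z : L, z ^ N ∈ Z.O → z ∈ Z.O := by
    intro z hz
    apply Z.closed z
    refine ⟨Polynomial.X ^ N - Polynomial.C (z ^ N), ?_, ?_, ?_⟩
    · exact Polynomial.monic_X_pow_sub_C _ (by omega)
    · intro k
      rw [Polynomial.coeff_sub, Polynomial.coeff_X_pow, Polynomial.coeff_C]
      apply Z.O.sub_mem
      · split_ifs
        exacts [Z.O.one_mem, Z.O.zero_mem]
      · split_ifs
        exacts [hz, Z.O.zero_mem]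
    · simp
  refine ⟨?_, key T h.2.1, key T⁻¹ ?_⟩
  · rintro rfl
    exact h.1 (zero_pow (by omega))
  · rw [inv_pow]
    exact h.2.2

lemma local_step {n : ℕ} (hn : 0 < n) (P : Pl K n) (hP : P.Monic)
    (hirr : ∀ N, 1 ≤ N → Irreducible (kum (AlgebraicClosure K) P N))
    (p : InfinitePlace K ⊕ {v // v ∈ S}) (x : InfinitePlace K ⊕ {v // v ∈ S} → Fin n → ℝ)
    (hs : SplitsAt P (x p)) : ∃ r B : ℝ, 0 < r ∧ 0 < B ∧
      Cov {q | q ∈ Pts S P ∧ B ≤ ‖lvec S q.1‖ ∧
        ‖‖lvec S q.1‖⁻¹ • lvec S q.1 - x‖ ≤ r} := by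
  classical
  obtain ⟨N, h, Q₁, Q₂, hN, hQ₁, hQ₂, hd₁, hd₂, hcop, hle, hin⟩ := hs
  obtain ⟨U, V, g, hg0, hUV⟩ := bezout Q₁ Q₂ hcop
  obtain ⟨𝒞, h𝒞⟩ := fin_classes K S N hN
  have hroot : ∀ c : K, ∃ γ : AlgebraicClosure K, γ ^ N = algebraMap K _ c :=
    fun c => IsAlgClosed.exists_pow_nat_eq _ (by omega)
  choose γ hγ using hroot
  obtain ⟨L, iF, iN, iA, φ, hFs, hGs⟩ := descent (𝒞.image γ) {Q₁, Q₂, U, V, Polynomial.C g}
  obtain ⟨Q₁', hQ₁'⟩ := hGs Q₁ (by simp)
  obtain ⟨Q₂', hQ₂'⟩ := hGs Q₂ (by simp)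
  obtain ⟨U', hU'⟩ := hGs U (by simp)
  obtain ⟨V', hV'⟩ := hGs V (by simp)
  obtain ⟨g', hg'⟩ := hGs (Polynomial.C g) (by simp)
  set ψ : MvPolynomial (Fin n) L →+* MvPolynomial (Fin n) (AlgebraicClosure K) :=
    MvPolynomial.map (φ : L →+* AlgebraicClosure K) with hψ
  have hψi : Function.Injective ψ := map_injective _ (φ : L →+* AlgebraicClosure K).injective
  have hPi : Function.Injective (Polynomial.map ψ) := Polynomial.map_injective _ hψi
  have hg'C : g' = Polynomial.C (g'.coeff 0) := by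
    apply hPi
    rw [hg', Polynomial.map_C, ← Polynomial.coeff_map, hg', Polynomial.coeff_C_zero]
  have hmap : ∀ k α, coeff α ((kum (AlgebraicClosure K) P N).coeff k) =
      φ (coeff α ((kum L P N).coeff k)) := by
    intro k α
    rw [← kum_map P N L (AlgebraicClosure K) φ, Polynomial.coeff_map, coeff_map]
    rfl
  have hdegP : (kum L P N).natDegree = P.natDegree := hP.natDegree_map _
  -- the system of absolute values
  obtain ⟨Λ, i1, i2, Z, hF, hU, hpl, C, hC, hCle⟩ := exists_psys' S L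
    ((kum L P N).support.biUnion fun k => ((kum L P N).coeff k).support.image
      fun α => coeff α ((kum L P N).coeff k))
  obtain ⟨σ₁, κ, hκ, hσ₁⟩ := hpl p
  have hPO : ∀ k α, coeff α ((kum L P N).coeff k) ∈ Z.O := by
    intro k α
    by_cases h0 : coeff α ((kum L P N).coeff k) = 0
    · rw [h0]
      exact Z.O.zero_mem
    · apply hF
      rw [Finset.mem_biUnion]
      refine ⟨k, ?_, Finset.mem_image.mpr ⟨α, mem_support_iff.mpr h0, rfl⟩⟩
      rw [Polynomial.mem_support_iff]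
      intro h1
      rw [h1, coeff_zero] at h0
      exact h0 rfl
  have hN0 : (0 : ℝ) < N := by exact_mod_cast hN
  obtain ⟨r, hr, hmain⟩ := main_local Z σ₁ hn (kum L P N) (kum_monic P hP N L)
    (irr_descent P hP N hN (hirr N hN) L φ) hPO (x p) h Q₁' Q₂' U' V' (g'.coeff 0)
    (Polynomial.monic_of_injective hψi (by rwa [hQ₁']))
    (Polynomial.monic_of_injective hψi (by rwa [hQ₂']))
    (by rwa [← Polynomial.natDegree_map_eq_of_injective hψi, hQ₁'])
    (by rwa [← Polynomial.natDegree_map_eq_of_injective hψi, hQ₂'])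
    (by
      apply hPi
      rw [Polynomial.map_add, Polynomial.map_mul, Polynomial.map_mul, hU', hV', hQ₁', hQ₂', hUV,
        ← hg'C, hg'])
    (by
      intro h0
      rw [h0, Polynomial.C_0] at hg'C
      rw [hg'C, Polynomial.map_zero] at hg'
      exact hg0 (Polynomial.C_eq_zero.mp hg'.symm))
    (by
      intro k α hk
      rw [hdegP]
      apply hle k α
      rw [hmap]
      intro h0
      apply hk
      apply (φ : L →+* AlgebraicClosure K).injective
      rw [map_zero]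
      exact h0)
    (by
      intro k α
      apply (φ : L →+* AlgebraicClosure K).injective
      change φ (coeff α ((Q₁' * Q₂').coeff k)) = φ _
      have h1 := hin k α
      rw [← hQ₁', ← hQ₂', ← Polynomial.map_mul, Polynomial.coeff_map, coeff_map] at h1
      change φ (coeff α ((Q₁' * Q₂').coeff k)) = _ at h1
      rw [h1, hdegP]
      split_ifs
      · exact hmap k α
      · rw [map_zero])
    (C / κ)
  refine ⟨r, N / κ, hr, by positivity, ?_⟩
  -- lifting the points
  set E' : Set ((Fin n → L) × L) := {q | ∃ u : Fin n → K, ∃ y : K,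
    (u, y) ∈ Pts S P ∧ N / κ ≤ ‖lvec S u‖ ∧ ‖‖lvec S u‖⁻¹ • lvec S u - x‖ ≤ r ∧
      (∀ j, q.1 j ^ N = algebraMap K L (u j)) ∧ q.2 = algebraMap K L y} with hE'
  have hcov : Cov E' := by
    apply hmain
    rintro ⟨T, z⟩ ⟨u, y, ⟨hu, huy⟩, hB, hnear, hT, rfl⟩
    simp only at hT
    set H := ‖lvec S u‖ with hH
    have hH0 : 0 < H := lt_of_lt_of_le (by positivity) hB
    refine ⟨?_, κ / N * H, ?_, ?_, ?_, ?_⟩
    · change evh T (algebraMap K L y) (kum L P N) = 0
      rw [evh_kum P N T u y hT]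
      rw [show evh u y P = 0 from huy, map_zero]
    · rw [div_le_iff₀ hκ] at hB
      rw [div_mul_eq_mul_div, le_div_iff₀ hN0]
      linarith
    · intro j
      apply isU_of_pow Z hN
      change Z.IsU (T j ^ N)
      rw [hT j]
      exact hU _ (hu j)
    · intro j
      have hTU : Z.IsU (T j) := by
        apply isU_of_pow Z hN
        rw [hT j]
        exact hU _ (hu j)
      refine ⟨hTU.1, ?_⟩
      have h1 := hσ₁ (u j) (hu j).1
      rw [← hT j, map_pow, Real.log_pow] at h1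
      change |Real.log (Z.abv σ₁ (T j)) - κ / N * H * x p j| ≤ r * (κ / N * H)
      have h2 : Real.log (Z.abv σ₁ (T j)) = κ / N * plog S p (u j) := by
        field_simp
        linarith
      have h3 : |H⁻¹ * plog S p (u j) - x p j| ≤ r := by
        have h4 := norm_le_pi_norm (H⁻¹ • lvec S u - x) p
        have h5 := norm_le_pi_norm ((H⁻¹ • lvec S u - x) p) j
        exact (h5.trans h4).trans hnear
      have h6 : Real.log (Z.abv σ₁ (T j)) - κ / N * H * x p j =
          κ / N * H * (H⁻¹ * plog S p (u j) - x p j) := by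
        rw [h2]
        field_simp
      rw [h6, abs_mul, abs_of_pos (by positivity), mul_comm]
      exact mul_le_mul_of_nonneg_right h3 (by positivity)
    · intro σ j
      have h1 := hCle σ (u j) H hH0.le (hu j) (fun p => lvec_le S u p j)
      rw [← hT j, map_pow, Real.log_pow, abs_mul, abs_of_pos hN0] at h1
      change |Real.log (Z.abv σ (T j))| ≤ C / κ * (κ / N * H)
      have h2 : C / κ * (κ / N * H) = C * H / N := by
        field_simp
      rw [h2, le_div_iff₀ hN0]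
      linarith
  refine Cov.descend N ?_ hcov
  rintro ⟨u, y⟩ ⟨⟨hu, huy⟩, hB, hnear⟩
  have hT : ∀ j, ∃ T : L, T ^ N = algebraMap K L (u j) := by
    intro j
    obtain ⟨c, hc, t, ht⟩ := h𝒞 (u j) (hu j).1 (hu j).2
    obtain ⟨z, hz⟩ := hFs (γ c) (Finset.mem_image_of_mem _ hc)
    refine ⟨z * algebraMap K L t, ?_⟩
    rw [mul_pow, ht, map_mul, map_pow]
    congr 1
    apply (φ : L →+* AlgebraicClosure K).injective
    change φ (z ^ N) = φ (algebraMap K L c)
    rw [map_pow, hz, hγ, AlgHom.commutes]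
  choose T hT using hT
  exact ⟨(T, algebraMap K L y), ⟨u, y, ⟨hu, huy⟩, hB, hnear, hT, rfl⟩, hT⟩

/-- The points of bounded size are covered by finitely many cosets. -/
lemma cov_bounded {n : ℕ} (hn : 0 < n) (P : Pl K n) (B : ℝ) :
    Cov {q | q ∈ Pts S P ∧ ‖lvec S q.1‖ ≤ B} := by
  classical
  obtain ⟨Λ, i1, i2, Z, -, hU, -, C, hC, hCle⟩ := exists_psys' S K (∅ : Finset K)
  set j₀ : Fin n := ⟨0, hn⟩ with hj₀
  have hfin := Z.fin (Real.exp (C * B))
  refine ⟨hfin.toFinset.image fun x => (Pi.single j₀ 1, x), ?_, ?_⟩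
  · intro a ha
    obtain ⟨x, -, rfl⟩ := Finset.mem_image.mp ha
    intro h0
    have := congrFun h0 j₀
    simp at this
  · rintro ⟨u, y⟩ ⟨⟨hu, -⟩, hB⟩
    change ‖lvec S u‖ ≤ B at hB
    have hUj := hU (u j₀) (hu j₀)
    rw [Algebra.algebraMap_self_apply] at hUj
    refine ⟨(Pi.single j₀ 1, u j₀), Finset.mem_image.mpr ⟨u j₀, ?_, rfl⟩, ?_⟩
    · rw [Set.Finite.mem_toFinset]
      refine ⟨hUj.2.1, fun σ => ?_⟩
      have hpos : 0 < Z.abv σ (u j₀) := (Z.abv σ).pos hUj.1
      rw [← Real.log_le_iff_le_exp hpos]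
      have h1 := hCle σ (u j₀) ‖lvec S u‖ (norm_nonneg _) (hu j₀) (fun p => lvec_le S u p j₀)
      rw [Algebra.algebraMap_self_apply] at h1
      exact (abs_le.mp h1).2.trans (mul_le_mul_of_nonneg_left hB hC)
    · change ∏ j, u j ^ (Pi.single j₀ 1 : Fin n → ℤ) j = u j₀
      rw [Finset.prod_eq_single j₀]
      · simp
      · intro j _ hj
        simp [Pi.single_eq_of_ne hj]
      · exact fun h => absurd (Finset.mem_univ _) h

/-- **The main theorem.** -/
theorem main_global {n : ℕ} (hn : 0 < n) (s : ℕ)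
    (hs : Fintype.card (InfinitePlace K) + S.card ≤ s) (P : Pl K n) (hP : P.Monic)
    (hirr : ∀ N, 1 ≤ N → Irreducible (kum (AlgebraicClosure K) P N))
    (hsplit : ∀ ν : Fin s → Fin n → ℝ, ∑ i, ν i = 0 → ν ≠ 0 →
      ∃ i, ν i ≠ 0 ∧ SplitsAt P (ν i)) :
    Cov (Pts S P) := by
  classical
  have hcard : Fintype.card (InfinitePlace K ⊕ {v // v ∈ S}) ≤ Fintype.card (Fin s) := by
    rw [Fintype.card_sum, Fintype.card_coe, Fintype.card_fin]
    exact hs
  obtain ⟨e⟩ := Function.Embedding.nonempty_of_card_le hcard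
  have hsplit' : ∀ x : InfinitePlace K ⊕ {v // v ∈ S} → Fin n → ℝ, ∑ p, x p = 0 → x ≠ 0 →
      ∃ p, SplitsAt P (x p) := by
    intro x hx hx0
    obtain ⟨i, hi0, hi⟩ := hsplit (Function.extend e x 0) (by
      rw [← hx]
      symm
      rw [← Finset.sum_subset (Finset.subset_univ (Finset.univ.map e)), Finset.sum_map]
      · exact Finset.sum_congr rfl fun p _ => (e.injective.extend_apply x 0 p).symm
      · intro i _ hi
        rw [Function.extend_apply']
        · rfl
        · rintro ⟨p, rfl⟩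
          exact hi (Finset.mem_map_of_mem e (Finset.mem_univ p))) (by
      intro h
      apply hx0
      funext p
      have := congrFun h (e p)
      rwa [e.injective.extend_apply] at this)
    by_cases hp : ∃ p, e p = i
    · obtain ⟨p, rfl⟩ := hp
      rw [e.injective.extend_apply] at hi
      exact ⟨p, hi⟩
    · rw [Function.extend_apply' _ _ _ hp] at hi0
      exact absurd rfl hi0
  -- compactness
  set 𝒮 : Set (InfinitePlace K ⊕ {v // v ∈ S} → Fin n → ℝ) :=
    Metric.sphere 0 1 ∩ {x | ∑ p, x p = 0} with h𝒮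
  have hcomp : IsCompact 𝒮 := by
    apply (isCompact_sphere 0 1).inter_right
    exact isClosed_eq (by fun_prop) continuous_const
  have hkey : ∃ B : ℝ, 0 < B ∧ Cov {q | q ∈ Pts S P ∧ B ≤ ‖lvec S q.1‖ ∧
      ‖lvec S q.1‖⁻¹ • lvec S q.1 ∈ 𝒮} := by
    refine hcomp.induction_on (p := fun A => ∃ B : ℝ, 0 < B ∧ Cov {q | q ∈ Pts S P ∧
      B ≤ ‖lvec S q.1‖ ∧ ‖lvec S q.1‖⁻¹ • lvec S q.1 ∈ A}) ?_ ?_ ?_ ?_
    · exact ⟨1, one_pos, Cov.mono (fun q hq => hq.2.2) Cov.empty⟩
    · rintro A A' hA ⟨B, hB, h⟩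
      refine ⟨B, hB, Cov.mono ?_ h⟩
      rintro q ⟨hq1, hq2, hq3⟩
      exact ⟨hq1, hq2, hA hq3⟩
    · rintro A A' ⟨B, hB, h⟩ ⟨B', hB', h'⟩
      refine ⟨max B B', lt_max_of_lt_left hB, Cov.mono ?_ (Cov.union h h')⟩
      rintro q ⟨hq1, hq2, hq3 | hq3⟩
      · exact Or.inl ⟨hq1, (le_max_left _ _).trans hq2, hq3⟩
      · exact Or.inr ⟨hq1, (le_max_right _ _).trans hq2, hq3⟩
    · intro x hx
      have hx0 : x ≠ 0 := by
        rintro rfl
        have := hx.1
        simp at this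
      obtain ⟨p, hp⟩ := hsplit' x hx.2 hx0
      obtain ⟨r, B, hr, hB, h⟩ := local_step S hn P hP hirr p x hp
      refine ⟨Metric.closedBall x r, mem_nhdsWithin_of_mem_nhds (Metric.closedBall_mem_nhds x hr),
        B, hB, Cov.mono ?_ h⟩
      rintro q ⟨hq1, hq2, hq3⟩
      refine ⟨hq1, hq2, ?_⟩
      rwa [Metric.mem_closedBall, dist_eq_norm] at hq3
  obtain ⟨B, hB, h⟩ := hkey
  refine Cov.mono ?_ (Cov.union (cov_bounded S hn P B) h)
  intro q hq
  rcases le_total ‖lvec S q.1‖ B with h1 | h1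
  · exact Or.inl ⟨hq, h1⟩
  · refine Or.inr ⟨hq, h1, Set.mem_inter ?_ ?_⟩
    · have h2 : ‖lvec S q.1‖ ≠ 0 := by
        have : 0 < ‖lvec S q.1‖ := lt_of_lt_of_le hB h1
        exact this.ne'
      rw [mem_sphere_zero_iff_norm, norm_smul, norm_inv, norm_norm, inv_mul_cancel₀ h2]
    · change ∑ p, (‖lvec S q.1‖⁻¹ • lvec S q.1) p = 0
      funext j
      rw [Finset.sum_apply]
      simp only [Pi.smul_apply, smul_eq_mul, Pi.zero_apply]
      rw [← Finset.mul_sum]
      rw [show ∑ p, lvec S q.1 p j = 0 from plog_sum S (hq.1 j), mul_zero]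

end places

end Pool.Agent.Helper10.RC
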