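import Pool.Agent.Helper10.RC.Basic
import Pool.Agent.Helper98.RCST
import Pool.Agent.Helper88.RCFORMS
import Pool.Agent.Helper74.RCEST
import Pool.Agent.Helper54.RCIRR
import Pool.Agent.Helper64.RCHEN
import Pool.Agent.Helper16.RCFIN
import Pool.Agent.Helper47.RCDESC
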