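import Pool.Agent.Helper10.RC.Basic

/-!
# Local data of a cover in a direction: definitions
-/

set_option autoImplicit false

namespace Pool.Agent.Helper10.RC

open MvPolynomial

/-- `R(t₁^N, …, t_n^N; Y)`. -/
noncomputable def pw {C : Type} [Field C] {n : ℕ} (R : Pl C n) (N : ℕ) : Pl C n :=
  R.map (expand N : MvPolynomial (Fin n) C →ₐ[C] MvPolynomial (Fin n) C).toRingHom

/-- Local data of the cover `R = 0` in the direction `ν`: an element `R₀` of the ring
`C[t][Y]/(R)` which is a root of the irreducible polynomial `P'`, such that the initial polynomial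
of `P'` in the direction `ν` (for the largest slope `h`) splits into two coprime factors. -/
def LocData {C : Type} [Field C] {n : ℕ} (R : Pl C n) (ν : Fin n → ℝ) : Prop :=
  ∃ (P' R₀ M Q₁ Q₂ : Pl C n) (h : ℝ), P'.Monic ∧ Irreducible P' ∧ P'.comp R₀ = R * M ∧
    Q₁.Monic ∧ Q₂.Monic ∧ 1 ≤ Q₁.natDegree ∧ 1 ≤ Q₂.natDegree ∧
    IsCoprime (Q₁.map (algebraMap _ (FractionRing (MvPolynomial (Fin n) C))))
      (Q₂.map (algebraMap _ (FractionRing (MvPolynomial (Fin n) C)))) ∧
    (∀ k α, coeff α (P'.coeff k) ≠ 0 → wt ν h α k ≤ h * P'.natDegree) ∧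
    ∀ k α, coeff α ((Q₁ * Q₂).coeff k) =
      if wt ν h α k = h * P'.natDegree then coeff α (P'.coeff k) else 0

/-- The absolute value `w` of `C[t][Y]/(R)` extends the absolute value
`f ↦ exp (max {ν·α : α ∈ supp f})` of `C[t]`. -/
def Extends {C : Type} [Field C] {n : ℕ} (R : Pl C n) (ν : Fin n → ℝ)
    (w : AbsoluteValue (AdjoinRoot R) ℝ) : Prop :=
  ∀ f : MvPolynomial (Fin n) C, f ≠ 0 → ∃ α ∈ f.support,
    (∀ β ∈ f.support, ∑ j, ν j * β j ≤ ∑ j, ν j * α j) ∧
      w (AdjoinRoot.of R f) = Real.exp (∑ j, ν j * α j)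

/-- `x` is a quasi-`S`-unit: it is a unit outside `S` up to the bounds `B v`. -/
def QU {K : Type} [Field K] [NumberField K] (S : Finset (NumberField.FinitePlace K))
    (B : NumberField.FinitePlace K → ℝ) (x : K) : Prop :=
  x ≠ 0 ∧ ∀ v : NumberField.FinitePlace K, v ∉ S → |Real.log (v x)| ≤ B v

/-- The pairs `(u, y)` with `u` a vector of quasi-`S`-units and `R(T; y) = 0` for some `N`-th root
`T` of `u`. -/
def PtsR {K : Type} [Field K] [NumberField K] (S : Finset (NumberField.FinitePlace K))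
    (B : NumberField.FinitePlace K → ℝ) {n : ℕ} (N : ℕ) (R : Pl (AlgebraicClosure K) n) :
    Set ((Fin n → K) × K) :=
  {p | (∀ j, QU S B (p.1 j)) ∧ ∃ T : Fin n → AlgebraicClosure K,
    (∀ j, T j ^ N = algebraMap K (AlgebraicClosure K) (p.1 j)) ∧
      evh T (algebraMap K (AlgebraicClosure K) p.2) R = 0}

end Pool.Agent.Helper10.RC
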