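import Pool.Agent.Helper10.RC.Factor

/-!
# The local theorem
-/

set_option autoImplicit false

namespace Pool.Agent.Helper10.RC

open MvPolynomial
open Pool.Agent.Helper98.RC (unit_rel)
open Pool.Agent.Helper74.RC (root_le ev_le main_est)
open Pool.Agent.Helper64.RC (hensel homog)

lemma exists_gap {α : Type*} (T : Finset α) (f : α → ℝ) (M : ℝ) :
    ∃ c : ℝ, 0 < c ∧ ∀ x ∈ T, f x < M → f x ≤ M - c := by
  classical
  induction T using Finset.induction_on with
  | empty => exact ⟨1, one_pos, fun x hx => absurd hx (Finset.notMem_empty x)⟩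
  | insert a T ha ih =>
    obtain ⟨c, hc, h⟩ := ih
    by_cases hM : f a < M
    · refine ⟨min c (M - f a), lt_min hc (by linarith), fun x hx hxM => ?_⟩
      rcases Finset.mem_insert.mp hx with rfl | hx
      · have := min_le_right c (M - f x)
        linarith
      · have := min_le_left c (M - f a)
        have := h x hx hxM
        linarith
    · refine ⟨c, hc, fun x hx hxM => ?_⟩
      rcases Finset.mem_insert.mp hx with rfl | hx
      · exact absurd hxM hM
      · exact h x hx hxM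

variable {K Λ : Type} [Field K] [Fintype Λ] [DecidableEq Λ]

lemma evh_zero_right {n : ℕ} (t : Fin n → K) (P : Pl K n) : evh t 0 P = eval t (P.coeff 0) := by
  rw [evh, Polynomial.coe_eval₂RingHom, Polynomial.eval₂_eq_eval_map,
    ← Polynomial.coeff_zero_eq_eval_zero, Polynomial.coeff_map]

lemma coeff_zero_ne {n : ℕ} (P : Pl K n) (hirr : Irreducible P) (hd : 2 ≤ P.natDegree) :
    P.coeff 0 ≠ 0 := by
  intro h0
  obtain ⟨q, hq⟩ := Polynomial.X_dvd_iff.mpr h0
  have hP0 : P ≠ 0 := hirr.ne_zero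
  rcases hirr.isUnit_or_isUnit hq with h | h
  · exact Polynomial.not_isUnit_X h
  · have h1 := Polynomial.natDegree_eq_zero_of_isUnit h
    have hq0 : q ≠ 0 := by
      rintro rfl
      rw [mul_zero] at hq
      exact hP0 hq
    rw [hq, Polynomial.natDegree_X_mul hq0, h1] at hd
    omega

/-- **The local theorem**: if the initial polynomial of `P` in the direction `θ` splits, then the
unit points near the direction `θ` over which `P` has a root are covered by finitely many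
cosets. -/
theorem main_local (Z : PSys K Λ) (σ₁ : Λ) {n : ℕ} (hn : 0 < n) (P : Pl K n) (hP : P.Monic)
    (hirr : Irreducible P) (hPO : ∀ k α, coeff α (P.coeff k) ∈ Z.O) (θ : Fin n → ℝ) (h : ℝ)
    (Q₁ Q₂ U V : Pl K n) (g : MvPolynomial (Fin n) K) (hQ₁ : Q₁.Monic) (hQ₂ : Q₂.Monic)
    (hd₁ : 1 ≤ Q₁.natDegree) (hd₂ : 1 ≤ Q₂.natDegree)
    (hUV : U * Q₁ + V * Q₂ = Polynomial.C g) (hg : g ≠ 0)
    (hle : ∀ k α, coeff α (P.coeff k) ≠ 0 → wt θ h α k ≤ h * P.natDegree)
    (hin : ∀ k α, coeff α ((Q₁ * Q₂).coeff k) =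
      if wt θ h α k = h * P.natDegree then coeff α (P.coeff k) else 0)
    (C₀ : ℝ) : ∃ r : ℝ, 0 < r ∧ ∀ E : Set ((Fin n → K) × K),
      (∀ p ∈ E, evh p.1 p.2 P = 0 ∧ ∃ X, Good Z σ₁ θ C₀ r p.1 X) → Cov E := by
  classical
  have hQm : (Q₁ * Q₂).Monic := hQ₁.mul hQ₂
  have hQd : (Q₁ * Q₂).natDegree = Q₁.natDegree + Q₂.natDegree := hQ₁.natDegree_mul hQ₂
  have hdeg : Q₁.natDegree + Q₂.natDegree = P.natDegree := by
    apply le_antisymm
    · rw [← hQd]
      have h1 := hin (Q₁ * Q₂).natDegree 0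
      rw [hQm.coeff_natDegree, coeff_zero_one] at h1
      apply Polynomial.le_natDegree_of_ne_zero
      intro h2
      rw [h2, coeff_zero, ite_self] at h1
      exact one_ne_zero h1
    · rw [← hQd]
      have h1 := hin P.natDegree 0
      rw [if_pos (by simp [wt]), hP.coeff_natDegree, coeff_zero_one] at h1
      apply Polynomial.le_natDegree_of_ne_zero
      intro h2
      rw [h2, coeff_zero] at h1
      exact one_ne_zero h1.symm
  have hQh : HomW θ h (h * (Q₁.natDegree + Q₂.natDegree : ℕ)) (Q₁ * Q₂) := by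
    intro k α hk
    rw [hin k α] at hk
    rw [hdeg]
    by_contra hne
    exact hk (if_neg hne)
  obtain ⟨h₁, h₂, U', V', g', w, hg'0, hU', hV', hg', hUV'⟩ :=
    homog θ h Q₁ Q₂ U V g hQ₁ hQ₂ hQh hg hUV
  -- the rest
  set R : Pl K n := P - Q₁ * Q₂ with hR
  have hPR : P = Q₁ * Q₂ + R := by rw [hR]; ring
  have hdeg2 : 2 ≤ P.natDegree := by omega
  have hRd : R.degree < (Q₁.natDegree + Q₂.natDegree : ℕ) := by
    have h3 : P.degree = (Q₁ * Q₂).degree := by
      rw [Polynomial.degree_eq_natDegree hP.ne_zero, Polynomial.degree_eq_natDegree hQm.ne_zero,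
        hQd, hdeg]
    have h4 := Polynomial.degree_sub_lt h3 hP.ne_zero (by rw [hP.leadingCoeff, hQm.leadingCoeff])
    rw [Polynomial.degree_eq_natDegree hP.ne_zero, ← hdeg] at h4
    exact h4
  obtain ⟨c, hc, hgap⟩ := exists_gap (P.support.biUnion fun k => (P.coeff k).support.image
    fun α => (k, α)) (fun x : ℕ × (Fin n →₀ ℕ) => wt θ h x.2 x.1) (h * P.natDegree)
  have hRw : LeW θ h (h * (Q₁.natDegree + Q₂.natDegree : ℕ) - c) R := by
    intro k α hk
    rw [hR, Polynomial.coeff_sub, coeff_sub, hin k α] at hk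
    rw [hdeg]
    have hne : wt θ h α k ≠ h * P.natDegree := by
      intro h5
      rw [if_pos h5, sub_self] at hk
      exact hk rfl
    rw [if_neg hne, sub_zero] at hk
    apply hgap (k, α)
    · rw [Finset.mem_biUnion]
      refine ⟨k, ?_, Finset.mem_image.mpr ⟨α, mem_support_iff.mpr hk, rfl⟩⟩
      rw [Polynomial.mem_support_iff]
      intro h6
      rw [h6, coeff_zero] at hk
      exact hk rfl
    · exact lt_of_le_of_ne (hle k α hk) hne
  have hPle : LeW θ h (h * P.natDegree) P := hle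
  obtain ⟨C₁, hC₁, hroot⟩ := root_le (Z.abv σ₁) θ h P hP hPle
  obtain ⟨Cy, hCy1, hCy⟩ := y_bd Z σ₁ hn P hP θ C₀
  set T₀ : ℝ := |h| * P.natDegree + 5 + (Fintype.card Λ * P.natDegree * Cy) *
    (1 + 2 ^ n * P.natDegree) with hT₀
  obtain ⟨τ', hτ'⟩ := exists_nat_ge (2 * T₀ / c)
  set τ : ℕ := τ' + 1 with hτ
  have hτ1 : 1 ≤ τ := by omega
  have hτc : T₀ ≤ τ * c / 2 := by
    have h7 : 2 * T₀ / c ≤ τ := by
      rw [hτ]
      push_cast
      linarith
    rw [div_le_iff₀ hc] at h7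
    linarith
  obtain ⟨B₁, B₂, F, hB₁d, hB₂d, hB₁, hB₂, hF, hprod⟩ := hensel θ h Q₁ Q₂ U' V' R g' w c hQ₁ hQ₂ h₁ h₂
    hU' hV' hg' hg'0 hUV' hRw hRd τ hτ1
  obtain ⟨Cm, hCm, hest⟩ := main_est (Z.abv σ₁) θ h P Q₁ Q₂ U' V' R g' w c hc hP hPR hQ₁ hQ₂ h₁ h₂
    hU' hV' hg' hg'0 hUV' hRw τ hτ1 B₁ B₂ F hB₁ hB₂ hF hprod C₁ hC₁
  obtain ⟨r₁, hr₁, X₁, hs₁⟩ := small_factor Z σ₁ hn P hP hirr hPO θ h w C₀ Cy hCy1 hCy hPle Q₁ hQ₁
    (by omega) g' hg'0 hg' B₁ hB₁d (τ * c / 2) hτc Cm hCm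
  obtain ⟨r₂, hr₂, X₂, hs₂⟩ := small_factor Z σ₁ hn P hP hirr hPO θ h w C₀ Cy hCy1 hCy hPle Q₂ hQ₂
    (by omega) g' hg'0 hg' B₂ hB₂d (τ * c / 2) hτc Cm hCm
  set η : ℝ := min (c / 16) 1 with hη
  have hη0 : 0 < η := lt_min (by positivity) one_pos
  obtain ⟨r₃, hr₃, X₃, hs₃⟩ := lower_bd Z σ₁ hn θ h w g' hg'0 hg' C₀ η hη0
  set r : ℝ := min (min r₁ r₂) (min r₃ (c / (16 * Cm))) with hr
  have hr0 : 0 < r := by
    apply lt_min (lt_min hr₁ hr₂) (lt_min hr₃ _)
    positivity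
  have hrr₁ : r ≤ r₁ := (min_le_left _ _).trans (min_le_left _ _)
  have hrr₂ : r ≤ r₂ := (min_le_left _ _).trans (min_le_right _ _)
  have hrr₃ : r ≤ r₃ := (min_le_right _ _).trans (min_le_left _ _)
  have hrr₄ : Cm * r ≤ c / 16 := by
    have h8 : r ≤ c / (16 * Cm) := (min_le_right _ _).trans (min_le_right _ _)
    calc Cm * r ≤ Cm * (c / (16 * Cm)) := mul_le_mul_of_nonneg_left h8 (by linarith)
      _ = c / 16 := by field_simp
  refine ⟨r, hr0, fun E hE => ?_⟩
  by_contra hbig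
  change (bigC K n hn).Big E at hbig
  have hE' : ∀ p ∈ E, ∃ X, Good Z σ₁ θ C₀ r p.1 X := fun p hp => (hE p hp).2
  choose! X hX using hE'
  set XM : ℝ := max (max X₁ X₂) (max X₃ (16 / c * Real.log Cm)) with hXM
  -- large scales
  have hbig₁ : (bigC K n hn).Big {p | p ∈ E ∧ XM ≤ X p} := by
    rcases (bigC K n hn).union (E := {p | p ∈ E ∧ XM ≤ X p}) (E' := {p | p ∈ E ∧ X p ≤ XM})
      ((bigC K n hn).mono (by
        intro p hp
        rcases le_total XM (X p) with h | h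
        · exact Or.inl ⟨hp, h⟩
        · exact Or.inr ⟨hp, h⟩) hbig) with h | h
    · exact h
    · exact absurd (cov_of_bounded Z σ₁ hn θ C₀ r XM _ fun p hp => ⟨X p, hX p hp.1, hp.2⟩) h
  -- nonzero roots
  have hbig₂ : (bigC K n hn).Big {p | (p ∈ E ∧ XM ≤ X p) ∧ p.2 ≠ 0} := by
    rcases (bigC K n hn).union (E := {p | (p ∈ E ∧ XM ≤ X p) ∧ p.2 ≠ 0})
      (E' := {p | p ∈ E ∧ p.2 = 0}) ((bigC K n hn).mono (by
        intro p hp
        by_cases h : p.2 = 0
        · exact Or.inr ⟨hp.1, h⟩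
        · exact Or.inl ⟨hp, h⟩) hbig₁) with h | h
    · exact h
    · refine absurd (unit_rel Z hn (P.coeff 0) (coeff_zero_ne P hirr hdeg2) _ ?_) h
      rintro p ⟨hp, hp2⟩
      refine ⟨(hX p hp).unit, ?_⟩
      have := (hE p hp).1
      rw [hp2, evh_zero_right] at this
      exact this
  -- lower bound for `g'`
  have hbig₃ := hs₃ r hr0.le hrr₃ _ X hbig₂ (fun p hp => hX p hp.1.1)
    (fun p hp => ((le_max_left _ _).trans (le_max_right _ _)).trans hp.1.2)
  set E₃ : Set ((Fin n → K) × K) := {p | p ∈ {p | (p ∈ E ∧ XM ≤ X p) ∧ p.2 ≠ 0} ∧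
    Real.exp ((w - η) * X p) ≤ Z.abv σ₁ (eval p.1 g')} with hE₃
  have hgne : ∀ p ∈ E₃, eval p.1 g' ≠ 0 := by
    intro p hp h0
    have := hp.2
    rw [h0, (Z.abv σ₁).map_zero] at this
    exact absurd this (not_le.mpr (Real.exp_pos _))
  have hor : ∀ p ∈ E₃,
      Z.abv σ₁ (Polynomial.eval₂ (evh p.1 p.2) ((eval p.1 g')⁻¹ ^ 2)
          (Polynomial.C Q₁ + Polynomial.X * Polynomial.C (Polynomial.C g') * B₁)) ≤
        Cm * Real.exp ((h * Q₁.natDegree - τ * c / 2 + 1 + Cm * r) * X p) ∨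
      Z.abv σ₁ (Polynomial.eval₂ (evh p.1 p.2) ((eval p.1 g')⁻¹ ^ 2)
          (Polynomial.C Q₂ + Polynomial.X * Polynomial.C (Polynomial.C g') * B₂)) ≤
        Cm * Real.exp ((h * Q₂.natDegree - τ * c / 2 + 1 + Cm * r) * X p) := by
    intro p hp
    have hG := hX p hp.1.1.1
    have hX1 := hG.X1
    have hev := (hE p hp.1.1.1).1
    have hXp := hp.1.1.2
    have h9 : 16 / c * Real.log Cm ≤ X p :=
      ((le_max_right _ _).trans (le_max_right _ _)).trans hXp
    have h10 : Cm ≤ Real.exp (c / 16 * X p) := by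
      rw [← Real.log_le_iff_le_exp (by linarith)]
      have h11 : c / 16 * (16 / c * Real.log Cm) ≤ c / 16 * X p :=
        mul_le_mul_of_nonneg_left h9 (by positivity)
      have h12 : c / 16 * (16 / c * Real.log Cm) = Real.log Cm := by field_simp
      linarith
    have h13 := hest p.1 p.2 r η (X p) hX1 hr0.le hG.near
      (hroot p.1 p.2 r (X p) hX1 hr0.le hG.near hev) hev (hgne p hp) hη0.le (min_le_left _ _) hrr₄
      h10 hp.2
    have h14 : η ≤ 1 := min_le_right _ _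
    have h15 : ∀ a : ℝ, Cm * Real.exp ((a - τ * c / 2 + η + Cm * r) * X p) ≤
        Cm * Real.exp ((a - τ * c / 2 + 1 + Cm * r) * X p) := by
      intro a
      apply mul_le_mul_of_nonneg_left _ (by linarith)
      apply Real.exp_le_exp.mpr
      apply mul_le_mul_of_nonneg_right _ (by linarith)
      linarith
    rcases h13 with h13 | h13
    · exact Or.inl (h13.trans (h15 _))
    · exact Or.inr (h13.trans (h15 _))
  rcases (bigC K n hn).union ((bigC K n hn).mono (by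
    intro p hp
    rcases hor p hp with h | h
    · exact Or.inl (show p ∈ {p | p ∈ E₃ ∧ _} from ⟨hp, h⟩)
    · exact Or.inr (show p ∈ {p | p ∈ E₃ ∧ _} from ⟨hp, h⟩)) hbig₃) with hb | hb
  · exact hs₁ r hr0.le hrr₁ _ X hb (fun p hp => hX p hp.1.1.1.1)
      (fun p hp => ((le_max_left _ _).trans (le_max_left _ _)).trans hp.1.1.1.2)
      (fun p hp => (hE p hp.1.1.1.1).1) (fun p hp => hp.1.1.2) (fun p hp => hgne p hp.1)
      (fun p hp => hp.2)
  · exact hs₂ r hr0.le hrr₂ _ X hb (fun p hp => hX p hp.1.1.1.1)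
      (fun p hp => ((le_max_right _ _).trans (le_max_left _ _)).trans hp.1.1.1.2)
      (fun p hp => (hE p hp.1.1.1.1).1) (fun p hp => hp.1.1.2) (fun p hp => hgne p hp.1)
      (fun p hp => hp.2)

end Pool.Agent.Helper10.RC
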