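import Pool.Agent.Helper10.RC.Inputs

/-!
# Lower bounds for polynomials at unit points
-/

set_option autoImplicit false

namespace Pool.Agent.Helper10.RC

open MvPolynomial
open Pool.Agent.Helper98.RC (unit_rel)
open Pool.Agent.Helper88.RC (forms)
open Pool.Agent.Helper74.RC (root_le ev_le main_est)
open Pool.Agent.Helper54.RC (irr_rel bezout)
open Pool.Agent.Helper64.RC (hensel homog)

section units
variable {K Λ : Type} [Field K] [Fintype Λ] [DecidableEq Λ] (Z : PSys K Λ)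

lemma PSys.pos (σ : Λ) {x : K} (hx : x ≠ 0) : 0 < Z.abv σ x := (Z.abv σ).pos hx

lemma PSys.prod_unit {x : K} (hx : Z.IsU x) : ∏ σ, Z.abv σ x = 1 := by
  obtain ⟨h0, h1, h2⟩ := hx
  have h3 := Z.one_le x h1 h0
  have h4 := Z.one_le x⁻¹ h2 (inv_ne_zero h0)
  have h5 : ∏ σ, Z.abv σ x⁻¹ = (∏ σ, Z.abv σ x)⁻¹ := by
    rw [← Finset.prod_inv_distrib]
    exact Finset.prod_congr rfl fun σ _ => map_inv₀ (Z.abv σ) x
  rw [h5] at h4
  have h6 : 0 < ∏ σ, Z.abv σ x := by linarith
  have h7 := (one_le_inv₀ h6).mp h4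
  linarith

lemma PSys.prod_erase {x : K} (hx : Z.IsU x) (σ₁ : Λ) :
    ∏ σ ∈ Finset.univ.erase σ₁, Z.abv σ x = (Z.abv σ₁ x)⁻¹ := by
  have h1 := Z.prod_unit hx
  rw [← Finset.mul_prod_erase _ _ (Finset.mem_univ σ₁)] at h1
  exact eq_inv_of_mul_eq_one_right h1

lemma PSys.isU_one : Z.IsU (1 : K) := ⟨one_ne_zero, Z.O.one_mem, by rw [inv_one]; exact Z.O.one_mem⟩

lemma PSys.IsU.mul {Z : PSys K Λ} {x y : K} (hx : Z.IsU x) (hy : Z.IsU y) : Z.IsU (x * y) :=
  ⟨mul_ne_zero hx.1 hy.1, Z.O.mul_mem hx.2.1 hy.2.1,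
    by rw [mul_inv]; exact Z.O.mul_mem hx.2.2 hy.2.2⟩

lemma PSys.IsU.pow {Z : PSys K Λ} {x : K} (hx : Z.IsU x) (m : ℕ) : Z.IsU (x ^ m) :=
  ⟨pow_ne_zero _ hx.1, Z.O.pow_mem hx.2.1 m, by rw [← inv_pow]; exact Z.O.pow_mem hx.2.2 m⟩

lemma PSys.IsU.prod {Z : PSys K Λ} {ι : Type*} {s : Finset ι} {f : ι → K}
    (hf : ∀ i ∈ s, Z.IsU (f i)) : Z.IsU (∏ i ∈ s, f i) := by
  classical
  induction s using Finset.induction_on with
  | empty => rw [Finset.prod_empty]; exact Z.isU_one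
  | insert a s ha ih =>
    rw [Finset.prod_insert ha]
    exact (hf a (Finset.mem_insert_self _ _)).mul
      (ih fun i hi => hf i (Finset.mem_insert_of_mem hi))

end units

section mon
variable {K : Type} [Field K] {n : ℕ}

/-- The value of the monomial `t ^ α`. -/
noncomputable def mon (t : Fin n → K) (α : Fin n →₀ ℕ) : K := ∏ j, t j ^ α j

lemma eval_monomial' (t : Fin n → K) (α : Fin n →₀ ℕ) (c : K) :
    eval t (monomial α c) = c * mon t α := by
  rw [eval_monomial, mon, Finsupp.prod_fintype _ _ (fun j => pow_zero _)]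

lemma eval_eq_mon (t : Fin n → K) (g : MvPolynomial (Fin n) K) :
    eval t g = ∑ α ∈ g.support, coeff α g * mon t α := by
  rw [eval_eq']
  rfl

/-- Total degree of an exponent. -/
def tdeg (α : Fin n →₀ ℕ) : ℕ := ∑ j, α j

lemma log_mon (a : AbsoluteValue K ℝ) (t : Fin n → K) (ht : ∀ j, t j ≠ 0) (α : Fin n →₀ ℕ) :
    Real.log (a (mon t α)) = ∑ j, α j * Real.log (a (t j)) := by
  rw [mon, map_prod, Real.log_prod]
  · apply Finset.sum_congr rfl
    intro j _
    rw [map_pow, Real.log_pow]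
  · intro j _
    rw [map_pow]
    exact pow_ne_zero _ (a.ne_zero (ht j))

lemma mon_ne {t : Fin n → K} (ht : ∀ j, t j ≠ 0) (α : Fin n →₀ ℕ) : mon t α ≠ 0 :=
  Finset.prod_ne_zero_iff.mpr fun j _ => pow_ne_zero _ (ht j)

lemma mon_near {a : AbsoluteValue K ℝ} {θ : Fin n → ℝ} {r X : ℝ} {t : Fin n → K}
    (h : Near a θ r X t) (α : Fin n →₀ ℕ) :
    |Real.log (a (mon t α)) - X * wt θ 0 α 0| ≤ tdeg α * (r * X) := by
  rw [log_mon a t (fun j => (h j).1), wt]
  have h1 : ∑ j, (α j : ℝ) * Real.log (a (t j)) - X * (∑ j, θ j * α j + 0 * ((0 : ℕ) : ℝ)) =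
      ∑ j, (α j : ℝ) * (Real.log (a (t j)) - X * θ j) := by
    rw [zero_mul, add_zero, Finset.mul_sum, ← Finset.sum_sub_distrib]
    exact Finset.sum_congr rfl fun j _ => by ring
  rw [h1]
  refine (Finset.abs_sum_le_sum_abs _ _).trans ?_
  rw [tdeg, Nat.cast_sum, Finset.sum_mul]
  apply Finset.sum_le_sum
  intro j _
  rw [abs_mul, Nat.abs_cast]
  exact mul_le_mul_of_nonneg_left (h j).2 (Nat.cast_nonneg _)

lemma wt_zero_right (θ : Fin n → ℝ) (h : ℝ) (α : Fin n →₀ ℕ) : wt θ h α 0 = wt θ 0 α 0 := by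
  simp [wt]

lemma mon_le {a : AbsoluteValue K ℝ} {θ : Fin n → ℝ} {r X : ℝ} {t : Fin n → K}
    (h : Near a θ r X t) (α : Fin n →₀ ℕ) :
    a (mon t α) ≤ Real.exp ((wt θ 0 α 0 + tdeg α * r) * X) := by
  have h1 := (abs_le.mp (mon_near h α)).2
  have h2 : 0 < a (mon t α) := a.pos (mon_ne (fun j => (h j).1) α)
  rw [← Real.log_le_iff_le_exp h2]
  linarith

lemma le_mon {a : AbsoluteValue K ℝ} {θ : Fin n → ℝ} {r X : ℝ} {t : Fin n → K}
    (h : Near a θ r X t) (α : Fin n →₀ ℕ) :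
    Real.exp ((wt θ 0 α 0 - tdeg α * r) * X) ≤ a (mon t α) := by
  have h1 := (abs_le.mp (mon_near h α)).1
  have h2 : 0 < a (mon t α) := a.pos (mon_ne (fun j => (h j).1) α)
  rw [← Real.le_log_iff_exp_le h2]
  linarith

end mon

section good
variable {K Λ : Type} [Field K] [Fintype Λ] [DecidableEq Λ]

/-- The unit point `t` is near the direction `θ` at the distinguished absolute value, and all its
absolute values are controlled. -/
structure Good (Z : PSys K Λ) (σ₁ : Λ) {n : ℕ} (θ : Fin n → ℝ) (C₀ r : ℝ) (t : Fin n → K)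
    (X : ℝ) : Prop where
  X1 : 1 ≤ X
  unit : ∀ j, Z.IsU (t j)
  near : Near (Z.abv σ₁) θ r X t
  ht : ∀ σ j, |Real.log (Z.abv σ (t j))| ≤ C₀ * X

variable {Z : PSys K Λ} {σ₁ : Λ} {n : ℕ} {θ : Fin n → ℝ} {C₀ r : ℝ} {t : Fin n → K} {X : ℝ}

lemma Good.C₀_nonneg (h : Good Z σ₁ θ C₀ r t X) (hn : 0 < n) : 0 ≤ C₀ := by
  have h1 := (abs_nonneg _).trans (h.ht σ₁ ⟨0, hn⟩)
  have := h.X1
  by_contra hcon
  push Not at hcon
  nlinarith

lemma Good.mono_r (h : Good Z σ₁ θ C₀ r t X) {r' : ℝ} (hr : r ≤ r') : Good Z σ₁ θ C₀ r' t X :=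
  ⟨h.X1, h.unit, fun j => ⟨(h.near j).1, (h.near j).2.trans
    (mul_le_mul_of_nonneg_right hr (by linarith [h.X1]))⟩, h.ht⟩

lemma Good.mon_isU (h : Good Z σ₁ θ C₀ r t X) (α : Fin n →₀ ℕ) : Z.IsU (mon t α) :=
  PSys.IsU.prod fun j _ => (h.unit j).pow _

lemma Good.log_mon_le (h : Good Z σ₁ θ C₀ r t X) (σ : Λ) (α : Fin n →₀ ℕ) :
    |Real.log (Z.abv σ (mon t α))| ≤ tdeg α * (C₀ * X) := by
  rw [log_mon _ t (fun j => (h.unit j).1)]
  refine (Finset.abs_sum_le_sum_abs _ _).trans ?_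
  rw [tdeg, Nat.cast_sum, Finset.sum_mul]
  apply Finset.sum_le_sum
  intro j _
  rw [abs_mul, Nat.abs_cast]
  exact mul_le_mul_of_nonneg_left (h.ht σ j) (Nat.cast_nonneg _)

lemma Good.mon_bounds (h : Good Z σ₁ θ C₀ r t X) (σ : Λ) (α : Fin n →₀ ℕ) :
    Real.exp (-(tdeg α * C₀ * X)) ≤ Z.abv σ (mon t α) ∧
      Z.abv σ (mon t α) ≤ Real.exp (tdeg α * C₀ * X) := by
  have h1 := abs_le.mp (h.log_mon_le σ α)
  have h2 : 0 < Z.abv σ (mon t α) := Z.pos σ (h.mon_isU α).1
  constructor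
  · rw [← Real.le_log_iff_exp_le h2]
    linarith [h1.1]
  · rw [← Real.log_le_iff_le_exp h2]
    linarith [h1.2]

/-- From proper subspaces to a linear relation on a large set. -/
lemma rel_of_sub {β ι : Type} [Fintype ι] [DecidableEq ι] (𝔅 : LN β) {E : Set β} (hE : 𝔅.Big E)
    (y : β → ι → K) (𝒲 : Finset (Submodule K (ι → K))) (hW : ∀ W ∈ 𝒲, W ≠ ⊤)
    (h : ∀ x ∈ E, ∃ W ∈ 𝒲, y x ∈ W) :
    ∃ c : ι → K, c ≠ 0 ∧ 𝔅.Big {x | x ∈ E ∧ ∑ i, c i * y x i = 0} := by
  obtain ⟨W, hW𝒲, hbig⟩ := 𝔅.partition 𝒲 hE (fun W x => y x ∈ W) h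
  obtain ⟨f, hf0, hf⟩ := Submodule.exists_le_ker_of_lt_top W (lt_top_iff_ne_top.mpr (hW W hW𝒲))
  have hfe : ∀ v : ι → K, f v = ∑ i, f (Pi.single i 1) * v i := by
    intro v
    rw [LinearMap.pi_apply_eq_sum_univ f v]
    apply Finset.sum_congr rfl
    intro i _
    rw [smul_eq_mul, mul_comm]
    congr 2
    ext j
    rw [Pi.single_apply]
    simp only [eq_comm]
  refine ⟨fun i => f (Pi.single i 1), ?_, 𝔅.mono ?_ hbig⟩
  · intro h0
    apply hf0
    ext i
    simpa using congrFun h0 i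
  · rintro x ⟨hx, hxW⟩
    refine ⟨hx, ?_⟩
    rw [← hfe]
    exact LinearMap.mem_ker.mp (hf hxW)

/-- **Lower bound**: a homogeneous polynomial is not small at most unit points near `θ`. -/
theorem lower_bd (Z : PSys K Λ) (σ₁ : Λ) {n : ℕ} (hn : 0 < n) (θ : Fin n → ℝ) (h w : ℝ)
    (g : MvPolynomial (Fin n) K) (hg0 : g ≠ 0) (hg : HomW θ h w (Polynomial.C g)) (C₀ η : ℝ)
    (hη : 0 < η) : ∃ r₀ : ℝ, 0 < r₀ ∧ ∃ X₀ : ℝ, ∀ r : ℝ, 0 ≤ r → r ≤ r₀ →
      ∀ (E : Set ((Fin n → K) × K)) (X : (Fin n → K) × K → ℝ), (bigC K n hn).Big E →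
        (∀ p ∈ E, Good Z σ₁ θ C₀ r p.1 (X p)) → (∀ p ∈ E, X₀ ≤ X p) →
        (bigC K n hn).Big {p | p ∈ E ∧
          Real.exp ((w - η) * X p) ≤ Z.abv σ₁ (eval p.1 g)} := by
  classical
  have hgw : ∀ α ∈ g.support, wt θ 0 α 0 = w := by
    intro α hα
    rw [← wt_zero_right θ h]
    exact hg 0 α (by simpa using hα)
  set D : ℝ := 1 + ∑ α ∈ g.support, (tdeg α : ℝ) with hD
  have hD0 : 0 < D := by
    have : 0 ≤ ∑ α ∈ g.support, (tdeg α : ℝ) := Finset.sum_nonneg fun _ _ => Nat.cast_nonneg _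
    linarith
  have hDα : ∀ α ∈ g.support, (tdeg α : ℝ) ≤ D := by
    intro α hα
    have := Finset.single_le_sum (f := fun α : Fin n →₀ ℕ => (tdeg α : ℝ))
      (fun _ _ => Nat.cast_nonneg _) hα
    linarith
  obtain ⟨α₀, hα₀⟩ : ∃ α₀, α₀ ∈ g.support := Finset.nonempty_iff_ne_empty.mpr
    (fun h0 => hg0 (support_eq_empty.mp h0))
  have hcα₀ : coeff α₀ g ≠ 0 := mem_support_iff.mp hα₀
  rcases Nat.lt_or_ge g.support.card 2 with hcard | hcard
  · -- a single monomial
    have hsupp : g.support = {α₀} := by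
      rw [Finset.eq_singleton_iff_unique_mem]
      refine ⟨hα₀, fun β hβ => ?_⟩
      exact Finset.card_le_one.mp (by omega) β hβ α₀ hα₀
    have hc0 : 0 < Z.abv σ₁ (coeff α₀ g) := Z.pos σ₁ hcα₀
    refine ⟨η / (2 * D), by positivity, 2 / η * (-Real.log (Z.abv σ₁ (coeff α₀ g))),
      fun r hr0 hr E X hE hgood hX => ?_⟩
    refine (bigC K n hn).mono ?_ hE
    intro p hp
    refine ⟨hp, ?_⟩
    have hG := hgood p hp
    rw [eval_eq_mon, hsupp, Finset.sum_singleton, map_mul]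
    have h1 := le_mon hG.near α₀
    rw [hgw α₀ hα₀] at h1
    have hX1 := hG.X1
    have h2 : (tdeg α₀ : ℝ) * r ≤ η / 2 := by
      calc (tdeg α₀ : ℝ) * r ≤ D * (η / (2 * D)) :=
            mul_le_mul (hDα α₀ hα₀) hr hr0 hD0.le
        _ = η / 2 := by field_simp
    have h3 := hX p hp
    have h4 : -Real.log (Z.abv σ₁ (coeff α₀ g)) ≤ η / 2 * X p := by
      have h5 := mul_le_mul_of_nonneg_left h3 (by positivity : 0 ≤ η / 2)
      have h6 : η / 2 * (2 / η * (-Real.log (Z.abv σ₁ (coeff α₀ g)))) =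
          -Real.log (Z.abv σ₁ (coeff α₀ g)) := by field_simp
      rw [h6] at h5
      exact h5
    calc Real.exp ((w - η) * X p)
        ≤ Real.exp (Real.log (Z.abv σ₁ (coeff α₀ g)) + (w - tdeg α₀ * r) * X p) := by
          apply Real.exp_le_exp.mpr
          nlinarith
      _ = Z.abv σ₁ (coeff α₀ g) * Real.exp ((w - tdeg α₀ * r) * X p) := by
          rw [Real.exp_add, Real.exp_log hc0]
      _ ≤ _ := mul_le_mul_of_nonneg_left h1 hc0.le
  · -- the Subspace theorem
    set i₀ : g.support := ⟨α₀, hα₀⟩ with hi₀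
    set A : Matrix g.support g.support K := fun i j => if i = i₀ then coeff (j : Fin n →₀ ℕ) g else
      if i = j then 1 else 0 with hA
    have hdet : A.det ≠ 0 := by
      intro h0
      obtain ⟨v, hv0, hv⟩ := Matrix.exists_mulVec_eq_zero_iff.mpr h0
      apply hv0
      have h1 : ∀ i, i ≠ i₀ → v i = 0 := by
        intro i hi
        have := congrFun hv i
        simpa [Matrix.mulVec, dotProduct, hA, hi, Finset.sum_ite_eq] using this
      have h2 := congrFun hv i₀
      simp only [Matrix.mulVec, dotProduct, hA, if_true, Pi.zero_apply] at h2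
      rw [Finset.sum_eq_single i₀ (fun j _ hj => by rw [h1 j hj, mul_zero])
        (fun h => absurd (Finset.mem_univ _) h)] at h2
      funext i
      by_cases hi : i = i₀
      · rw [hi]
        exact (mul_eq_zero.mp h2).resolve_left hcα₀
      · exact h1 i hi
    have hcardι : 2 ≤ Fintype.card g.support := by
      rw [Fintype.card_coe]
      exact hcard
    set B : ℝ := D * |C₀| + |w| + η + 1 with hB
    obtain ⟨𝒲, hW, hsub⟩ := Z.sub σ₁ g.support A hcardι hdet (η / 2) B (by positivity)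
    refine ⟨η / (2 * D), by positivity, 0, fun r hr0 hr E X hE hgood hX => ?_⟩
    by_contra hcon
    have hE₁ : (bigC K n hn).Big {p | p ∈ E ∧
        Z.abv σ₁ (eval p.1 g) ≤ Real.exp ((w - η) * X p)} := by
      rcases (bigC K n hn).union (E := {p | p ∈ E ∧
        Real.exp ((w - η) * X p) ≤ Z.abv σ₁ (eval p.1 g)}) (E' := {p | p ∈ E ∧
        Z.abv σ₁ (eval p.1 g) ≤ Real.exp ((w - η) * X p)}) ((bigC K n hn).mono (by
          intro p hp
          rcases le_total (Real.exp ((w - η) * X p)) (Z.abv σ₁ (eval p.1 g)) with h | h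
          · exact Or.inl ⟨hp, h⟩
          · exact Or.inr ⟨hp, h⟩) hE) with h | h
      · exact absurd h hcon
      · exact h
    obtain ⟨c, hc0, hrel⟩ := rel_of_sub (bigC K n hn) hE₁
      (fun p (i : g.support) => mon p.1 (i : Fin n →₀ ℕ)) 𝒲 hW (by
      rintro p ⟨hp, hsmall⟩
      have hG := hgood p hp
      have hX1 := hG.X1
      have hC₀ := hG.C₀_nonneg hn
      have hQ : ∀ b : ℝ, Real.exp (X p) ^ b = Real.exp (b * X p) := by
        intro b
        rw [← Real.exp_mul, mul_comm]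
      have hB1 : ∀ i : g.support, (tdeg (i : Fin n →₀ ℕ) : ℝ) * C₀ * X p ≤ B * X p := by
        intro i
        apply mul_le_mul_of_nonneg_right _ (by linarith)
        have h1 : (tdeg (i : Fin n →₀ ℕ) : ℝ) * C₀ ≤ D * |C₀| := by
          rw [abs_of_nonneg hC₀]
          exact mul_le_mul_of_nonneg_right (hDα i i.2) hC₀
        have := abs_nonneg w
        linarith
      apply hsub (Real.exp (X p)) (fun i => if i = i₀ then Real.exp ((w - η) * X p) else
        Z.abv σ₁ (mon p.1 (i : Fin n →₀ ℕ))) (fun i => mon p.1 (i : Fin n →₀ ℕ))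
      · exact Real.one_le_exp (by linarith)
      · exact fun i => (hG.mon_isU i).2.1
      · intro i
        rw [hQ, hQ]
        by_cases hi : i = i₀
        · simp only [hi, if_true]
          have h1 := neg_abs_le w
          have h2 := le_abs_self w
          have h3 : 0 ≤ D * |C₀| := by positivity
          constructor
          · apply Real.exp_le_exp.mpr
            apply mul_le_mul_of_nonneg_right _ (by linarith)
            linarith
          · apply Real.exp_le_exp.mpr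
            apply mul_le_mul_of_nonneg_right _ (by linarith)
            linarith
        · simp only [hi, if_false]
          obtain ⟨h1, h2⟩ := hG.mon_bounds σ₁ (i : Fin n →₀ ℕ)
          refine ⟨le_trans (Real.exp_le_exp.mpr ?_) h1, h2.trans (Real.exp_le_exp.mpr (hB1 i))⟩
          have := hB1 i
          linarith
      · intro σ i
        rw [hQ, hQ]
        obtain ⟨h1, h2⟩ := hG.mon_bounds σ (i : Fin n →₀ ℕ)
        refine ⟨le_trans (Real.exp_le_exp.mpr ?_) h1, h2.trans (Real.exp_le_exp.mpr (hB1 i))⟩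
        have := hB1 i
        linarith
      · intro i
        by_cases hi : i = i₀
        · simp only [hi, if_true, hA]
          rw [eval_eq_mon] at hsmall
          rw [Finset.sum_coe_sort g.support (fun α => coeff α g * mon p.1 α)]
          exact hsmall
        · simp only [hi, if_false, hA, ite_mul, one_mul, zero_mul]
          rw [Finset.sum_ite_eq Finset.univ i, if_pos (Finset.mem_univ _)]
      · rw [hQ, ← Finset.prod_mul_distrib]
        have h1 : ∀ i : g.support, (if i = i₀ then Real.exp ((w - η) * X p) else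
            Z.abv σ₁ (mon p.1 (i : Fin n →₀ ℕ))) * ∏ σ ∈ Finset.univ.erase σ₁,
            Z.abv σ (mon p.1 (i : Fin n →₀ ℕ)) = if i = i₀ then Real.exp ((w - η) * X p) *
              (Z.abv σ₁ (mon p.1 (i₀ : Fin n →₀ ℕ)))⁻¹ else 1 := by
          intro i
          rw [Z.prod_erase (hG.mon_isU i)]
          by_cases hi : i = i₀
          · simp only [hi, if_true]
          · simp only [hi, if_false]
            exact mul_inv_cancel₀ (Z.pos σ₁ (hG.mon_isU i).1).ne'
        rw [Finset.prod_congr rfl fun i _ => h1 i, Finset.prod_ite_eq' Finset.univ i₀,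
          if_pos (Finset.mem_univ _)]
        have h2 := le_mon hG.near α₀
        rw [hgw α₀ hα₀] at h2
        have h3 : 0 < Z.abv σ₁ (mon p.1 α₀) := Z.pos σ₁ (hG.mon_isU α₀).1
        rw [← div_eq_mul_inv, div_le_iff₀ h3]
        have h4 : (tdeg α₀ : ℝ) * r ≤ η / 2 := by
          calc (tdeg α₀ : ℝ) * r ≤ D * (η / (2 * D)) :=
                mul_le_mul (hDα α₀ hα₀) hr hr0 hD0.le
            _ = η / 2 := by field_simp
        calc Real.exp ((w - η) * X p)
            ≤ Real.exp (-(η / 2) * X p + (w - tdeg α₀ * r) * X p) := by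
              apply Real.exp_le_exp.mpr
              nlinarith
          _ = Real.exp (-(η / 2) * X p) * Real.exp ((w - tdeg α₀ * r) * X p) := Real.exp_add _ _
          _ ≤ _ := mul_le_mul_of_nonneg_left h2 (Real.exp_pos _).le)
    apply hrel
    set G : MvPolynomial (Fin n) K := ∑ i : g.support, monomial (i : Fin n →₀ ℕ) (c i) with hGdef
    have hGc : ∀ i : g.support, coeff (i : Fin n →₀ ℕ) G = c i := by
      intro i
      rw [hGdef, coeff_sum, Finset.sum_eq_single i]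
      · rw [coeff_monomial, if_pos rfl]
      · intro j _ hj
        rw [coeff_monomial, if_neg fun h => hj (Subtype.ext h)]
      · exact fun h => absurd (Finset.mem_univ _) h
    refine unit_rel Z hn G ?_ _ ?_
    · intro h0
      apply hc0
      funext i
      rw [← hGc i, h0, coeff_zero]
      rfl
    · rintro p ⟨⟨hp, -⟩, hp0⟩
      refine ⟨(hgood p hp).unit, ?_⟩
      rw [hGdef, map_sum, ← hp0]
      exact Finset.sum_congr rfl fun i _ => eval_monomial' _ _ _

end good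

end Pool.Agent.Helper10.RC
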