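import Pool.Agent.Helper10.RC.Lower

/-!
# One small factor: application of the Subspace theorem
-/

set_option autoImplicit false

namespace Pool.Agent.Helper10.RC

open MvPolynomial
open Pool.Agent.Helper98.RC (unit_rel)
open Pool.Agent.Helper88.RC (forms)
open Pool.Agent.Helper74.RC (root_le ev_le main_est)
open Pool.Agent.Helper54.RC (irr_rel bezout)
open Pool.Agent.Helper64.RC (hensel homog)

section basic
variable {K : Type} [Field K] {n : ℕ}

lemma evh_C (t : Fin n → K) (y : K) (g : MvPolynomial (Fin n) K) :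
    evh t y (Polynomial.C g) = eval t g := by
  simp [evh]

lemma evh_X (t : Fin n → K) (y : K) : evh t y Polynomial.X = y := by
  simp [evh]

lemma evh_mono {m δ : ℕ} (t : Fin n → K) (y : K) (i : (Fin n → Fin m) × Fin δ) :
    evh t y (mono i) = mon t (ex i.1) * y ^ (i.2 : ℕ) := by
  rw [mono, map_mul, map_pow, evh_C, evh_X, eval_monomial', one_mul]

lemma evh_eq_sum (t : Fin n → K) (y : K) (H : Pl K n) :
    evh t y H = ∑ k ∈ Finset.range (H.natDegree + 1), eval t (H.coeff k) * y ^ k := by
  rw [evh, Polynomial.coe_eval₂RingHom, Polynomial.eval₂_eq_sum_range]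

/-- Roots of monic polynomials are bounded. -/
lemma root_bd (a : AbsoluteValue K ℝ) (f : Polynomial K) (hf : f.Monic) (y : K)
    (hy : f.eval y = 0) : a y ≤ 1 + ∑ k ∈ Finset.range f.natDegree, a (f.coeff k) := by
  have hs : 0 ≤ ∑ k ∈ Finset.range f.natDegree, a (f.coeff k) :=
    Finset.sum_nonneg fun _ _ => a.nonneg _
  rcases le_or_gt (a y) 1 with h | h
  · linarith
  · rw [Polynomial.eval_eq_sum_range, Finset.sum_range_succ, hf.coeff_natDegree, one_mul] at hy
    have h1 : y ^ f.natDegree = -∑ k ∈ Finset.range f.natDegree, f.coeff k * y ^ k := by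
      linear_combination hy
    have hd : f.natDegree ≠ 0 := by
      intro h0
      rw [h0] at h1
      simp at h1
    have h2 : a y ^ f.natDegree ≤
        ∑ k ∈ Finset.range f.natDegree, a (f.coeff k) * a y ^ (f.natDegree - 1) := by
      rw [← map_pow, h1, a.map_neg]
      refine (AbsoluteValue.sum_le _ _ _).trans (Finset.sum_le_sum fun k hk => ?_)
      rw [map_mul, map_pow]
      apply mul_le_mul_of_nonneg_left _ (a.nonneg _)
      apply pow_le_pow_right₀ h.le
      have := Finset.mem_range.mp hk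
      omega
    rw [← Finset.sum_mul] at h2
    have h3 : 0 < a y ^ (f.natDegree - 1) := by positivity
    have h4 : a y ^ f.natDegree = a y * a y ^ (f.natDegree - 1) := by
      rw [← pow_succ']
      congr 1
      omega
    rw [h4] at h2
    have h5 := le_of_mul_le_mul_right h2 h3
    linarith

lemma coeff_sum_mono {m δ : ℕ} (c : (Fin n → Fin m) × Fin δ → K) (f : Fin n → Fin m) (k : Fin δ) :
    coeff (ex f) ((∑ i, Polynomial.C (C (c i)) * mono i : Pl K n).coeff k) = c (f, k) := by
  classical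
  rw [Polynomial.finsetSum_coeff, coeff_sum, Finset.sum_eq_single (f, k)]
  · rw [mono, Polynomial.coeff_C_mul, Polynomial.coeff_C_mul, Polynomial.coeff_X_pow,
      if_pos rfl, mul_one, coeff_C_mul, coeff_monomial, if_pos rfl, mul_one]
  · rintro ⟨f', k'⟩ - hne
    rw [mono, Polynomial.coeff_C_mul, Polynomial.coeff_C_mul, Polynomial.coeff_X_pow]
    by_cases hk : k = k'
    · subst hk
      rw [if_pos rfl, mul_one, coeff_C_mul, coeff_monomial, if_neg, mul_zero]
      intro h
      apply hne
      have : f' = f := by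
        funext j
        have := DFunLike.congr_fun h j
        simp only [ex, Finsupp.equivFunOnFinite_symm_apply_apply] at this
        exact Fin.ext this
      rw [this]
    · rw [if_neg (fun h => hk (Fin.ext h)), mul_zero, mul_zero, coeff_zero]
  · exact fun h => absurd (Finset.mem_univ _) h

lemma degree_sum_mono {m δ : ℕ} (c : (Fin n → Fin m) × Fin δ → K) :
    (∑ i, Polynomial.C (C (c i)) * mono i : Pl K n).degree < δ := by
  rw [Polynomial.degree_lt_iff_coeff_zero]
  intro k hk
  rw [Polynomial.finsetSum_coeff]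
  apply Finset.sum_eq_zero
  intro i _
  rw [mono, Polynomial.coeff_C_mul, Polynomial.coeff_C_mul, Polynomial.coeff_X_pow, if_neg,
    mul_zero, mul_zero]
  have := i.2.2
  omega

lemma homW_pow {θ : Fin n → ℝ} {h w : ℝ} {g : MvPolynomial (Fin n) K}
    (hg : HomW θ h w (Polynomial.C g)) (k : ℕ) :
    HomW θ h (k * w) (Polynomial.C (g ^ k)) := by
  classical
  have h1 : ∀ k : ℕ, ∀ α, coeff α (g ^ k) ≠ 0 → wt θ h α 0 = k * w := by
    intro k
    induction k with
    | zero =>
      intro α hα
      rw [pow_zero, coeff_one] at hα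
      have : α = 0 := by
        by_contra h0
        exact hα (if_neg fun h => h0 h.symm)
      subst this
      simp [wt]
    | succ k ih =>
      intro α hα
      rw [pow_succ, coeff_mul] at hα
      obtain ⟨⟨β, γ⟩, hβγ, hne⟩ := Finset.exists_ne_zero_of_sum_ne_zero hα
      rw [Finset.HasAntidiagonal.mem_antidiagonal] at hβγ
      have h2 := ih β (left_ne_zero_of_mul hne)
      have h3 := hg 0 γ (by rw [Polynomial.coeff_C_zero]; exact right_ne_zero_of_mul hne)
      have h4 : wt θ h α 0 = wt θ h β 0 + wt θ h γ 0 := by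
        simp only at hβγ
        rw [← hβγ]
        simp only [wt, Finsupp.add_apply, Nat.cast_add, mul_add, Finset.sum_add_distrib]
        simp
      rw [h4, h2, h3]
      push_cast
      ring
  intro j α hα
  rcases j with _ | j
  · rw [Polynomial.coeff_C_zero] at hα
    exact h1 k α hα
  · rw [Polynomial.coeff_C_succ] at hα
    exact absurd (coeff_zero α) hα

end basic

section small
variable {K Λ : Type} [Field K] [Fintype Λ] [DecidableEq Λ]

lemma y_mem (Z : PSys K Λ) {n : ℕ} (P : Pl K n) (hP : P.Monic)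
    (hPO : ∀ k α, coeff α (P.coeff k) ∈ Z.O) (t : Fin n → K) (ht : ∀ j, t j ∈ Z.O) (y : K)
    (hy : evh t y P = 0) : y ∈ Z.O := by
  apply Z.closed
  refine ⟨P.map (eval t), hP.map _, fun k => ?_, ?_⟩
  · rw [Polynomial.coeff_map, eval_eq_mon]
    exact Z.O.sum_mem fun α _ => Z.O.mul_mem (hPO k α)
      (Z.O.prod_mem fun j _ => Z.O.pow_mem (ht j) _)
  · rw [Polynomial.eval_map]
    exact hy

/-- Upper bounds for the root at all absolute values. -/
lemma y_bd (Z : PSys K Λ) (σ₁ : Λ) {n : ℕ} (hn : 0 < n) (P : Pl K n) (hP : P.Monic)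
    (θ : Fin n → ℝ) (C₀ : ℝ) : ∃ C : ℝ, 1 ≤ C ∧ ∀ (r : ℝ) (t : Fin n → K) (y : K) (X : ℝ),
      Good Z σ₁ θ C₀ r t X → evh t y P = 0 → ∀ σ, Z.abv σ y ≤ Real.exp (C * X) := by
  classical
  have h1 : ∀ (σ : Λ) (k : ℕ), ∃ C : ℝ, 0 ≤ C ∧ ∀ (r : ℝ) (t : Fin n → K) (X : ℝ),
      Good Z σ₁ θ C₀ r t X → Z.abv σ (eval t (P.coeff k)) ≤ Real.exp (C * X) := by
    intro σ k
    set D : ℝ := ∑ α ∈ (P.coeff k).support, (tdeg α : ℝ) with hD
    set S : ℝ := ∑ α ∈ (P.coeff k).support, Z.abv σ (coeff α (P.coeff k)) with hS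
    have hD0 : 0 ≤ D := Finset.sum_nonneg fun _ _ => Nat.cast_nonneg _
    have hS0 : 0 ≤ S := Finset.sum_nonneg fun _ _ => (Z.abv σ).nonneg _
    refine ⟨D * |C₀| + S, by positivity, fun r t X hG => ?_⟩
    have hX1 := hG.X1
    have hC₀ := hG.C₀_nonneg hn
    rw [abs_of_nonneg hC₀, eval_eq_mon]
    calc Z.abv σ (∑ α ∈ (P.coeff k).support, coeff α (P.coeff k) * mon t α)
        ≤ ∑ α ∈ (P.coeff k).support, Z.abv σ (coeff α (P.coeff k)) * Real.exp (D * C₀ * X) := by
          refine (AbsoluteValue.sum_le _ _ _).trans (Finset.sum_le_sum fun α hα => ?_)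
          rw [map_mul]
          apply mul_le_mul_of_nonneg_left _ ((Z.abv σ).nonneg _)
          refine (hG.mon_bounds σ α).2.trans (Real.exp_le_exp.mpr ?_)
          apply mul_le_mul_of_nonneg_right _ (by linarith)
          apply mul_le_mul_of_nonneg_right _ hC₀
          exact Finset.single_le_sum (f := fun α : Fin n →₀ ℕ => (tdeg α : ℝ))
            (fun _ _ => Nat.cast_nonneg _) hα
      _ = S * Real.exp (D * C₀ * X) := by rw [← Finset.sum_mul]
      _ ≤ Real.exp (S * X) * Real.exp (D * C₀ * X) := by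
          apply mul_le_mul_of_nonneg_right _ (Real.exp_pos _).le
          have := Real.add_one_le_exp (S * X)
          nlinarith
      _ = Real.exp ((D * C₀ + S) * X) := by
          rw [← Real.exp_add]
          congr 1
          ring
  choose C hC0 hC using h1
  set C' : ℝ := 1 + ∑ σ, ∑ k ∈ Finset.range P.natDegree, C σ k with hC'
  have hC'0 : ∀ σ, ∀ k ∈ Finset.range P.natDegree, C σ k ≤ C' := by
    intro σ k hk
    have h2 : C σ k ≤ ∑ k ∈ Finset.range P.natDegree, C σ k :=
      Finset.single_le_sum (fun k _ => hC0 σ k) hk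
    have h3 : ∑ k ∈ Finset.range P.natDegree, C σ k ≤
        ∑ σ, ∑ k ∈ Finset.range P.natDegree, C σ k :=
      Finset.single_le_sum (f := fun σ => ∑ k ∈ Finset.range P.natDegree, C σ k)
        (fun σ _ => Finset.sum_nonneg fun k _ => hC0 σ k) (Finset.mem_univ σ)
    linarith
  have hC'1 : 1 ≤ C' := by
    have : 0 ≤ ∑ σ, ∑ k ∈ Finset.range P.natDegree, C σ k :=
      Finset.sum_nonneg fun σ _ => Finset.sum_nonneg fun k _ => hC0 σ k
    linarith
  refine ⟨C' + P.natDegree, by have : (0 : ℝ) ≤ P.natDegree := Nat.cast_nonneg _; linarith,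
    fun r t y X hG hy σ => ?_⟩
  have hX1 := hG.X1
  have h2 := root_bd (Z.abv σ) (P.map (eval t)) (hP.map _) y (by rw [Polynomial.eval_map]; exact hy)
  rw [hP.natDegree_map] at h2
  have h3 : ∑ k ∈ Finset.range P.natDegree, Z.abv σ ((P.map (eval t)).coeff k) ≤
      P.natDegree * Real.exp (C' * X) := by
    calc ∑ k ∈ Finset.range P.natDegree, Z.abv σ ((P.map (eval t)).coeff k)
        ≤ ∑ k ∈ Finset.range P.natDegree, Real.exp (C' * X) := by
          apply Finset.sum_le_sum
          intro k hk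
          rw [Polynomial.coeff_map]
          refine (hC σ k r t X hG).trans (Real.exp_le_exp.mpr ?_)
          exact mul_le_mul_of_nonneg_right (hC'0 σ k hk) (by linarith)
      _ = P.natDegree * Real.exp (C' * X) := by
          rw [Finset.sum_const, Finset.card_range, nsmul_eq_mul]
  have h4 : 1 ≤ Real.exp (C' * X) := Real.one_le_exp (by positivity)
  have h5 : (1 : ℝ) + P.natDegree ≤ Real.exp (P.natDegree * X) := by
    have h6 := Real.add_one_le_exp (P.natDegree * X)
    have h7 : (P.natDegree : ℝ) ≤ P.natDegree * X :=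
      le_mul_of_one_le_right (Nat.cast_nonneg _) hX1
    linarith
  calc Z.abv σ y ≤ 1 + P.natDegree * Real.exp (C' * X) := by linarith
    _ ≤ (1 + P.natDegree) * Real.exp (C' * X) := by nlinarith
    _ ≤ Real.exp (P.natDegree * X) * Real.exp (C' * X) :=
        mul_le_mul_of_nonneg_right h5 (Real.exp_pos _).le
    _ = Real.exp ((C' + P.natDegree) * X) := by
        rw [← Real.exp_add]
        congr 1
        ring

/-- A bounded set of unit points is covered by finitely many cosets. -/
lemma cov_of_bounded (Z : PSys K Λ) (σ₁ : Λ) {n : ℕ} (hn : 0 < n) (θ : Fin n → ℝ) (C₀ r B : ℝ)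
    (E : Set ((Fin n → K) × K)) (hE : ∀ p ∈ E, ∃ X, Good Z σ₁ θ C₀ r p.1 X ∧ X ≤ B) : Cov E := by
  classical
  set j₀ : Fin n := ⟨0, hn⟩ with hj₀
  have hfin := Z.fin (Real.exp (C₀ * B))
  refine ⟨hfin.toFinset.image fun x => (Pi.single j₀ 1, x), ?_, ?_⟩
  · intro a ha
    obtain ⟨x, -, rfl⟩ := Finset.mem_image.mp ha
    intro h0
    have := congrFun h0 j₀
    simp at this
  · intro p hp
    obtain ⟨X, hG, hXB⟩ := hE p hp
    have hC₀ := hG.C₀_nonneg hn
    refine ⟨(Pi.single j₀ 1, p.1 j₀), Finset.mem_image.mpr ⟨p.1 j₀, ?_, rfl⟩, ?_⟩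
    · rw [Set.Finite.mem_toFinset]
      refine ⟨(hG.unit j₀).2.1, fun σ => ?_⟩
      rw [← Real.log_le_iff_le_exp (Z.pos σ (hG.unit j₀).1)]
      have h1 := (abs_le.mp (hG.ht σ j₀)).2
      exact h1.trans (mul_le_mul_of_nonneg_left hXB hC₀)
    · rw [Finset.prod_eq_single j₀]
      · simp
      · intro j _ hj
        simp [Pi.single_eq_of_ne hj]
      · exact fun h => absurd (Finset.mem_univ _) h

/-- The polynomial `H(g⁻²)` with cleared denominators. -/
noncomputable def clear {n : ℕ} (g : MvPolynomial (Fin n) K) (H : Polynomial (Pl K n)) : Pl K n :=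
  ∑ j ∈ Finset.range (H.natDegree + 1),
    Polynomial.C (g ^ (2 * (H.natDegree - j))) * H.coeff j

lemma evh_clear {n : ℕ} (g : MvPolynomial (Fin n) K) (H : Polynomial (Pl K n)) (t : Fin n → K)
    (y : K) (hg : eval t g ≠ 0) : evh t y (clear g H) =
      eval t g ^ (2 * H.natDegree) * Polynomial.eval₂ (evh t y) ((eval t g)⁻¹ ^ 2) H := by
  rw [clear, map_sum, Polynomial.eval₂_eq_sum_range, Finset.mul_sum]
  apply Finset.sum_congr rfl
  intro j hj
  have hj' : j ≤ H.natDegree := Nat.lt_succ_iff.mp (Finset.mem_range.mp hj)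
  rw [map_mul, evh_C, map_pow]
  have h1 : eval t g ^ (2 * H.natDegree) =
      eval t g ^ (2 * (H.natDegree - j)) * eval t g ^ (2 * j) := by
    rw [← pow_add]
    congr 1
    omega
  have h2 : eval t g ^ (2 * j) * ((eval t g)⁻¹ ^ 2) ^ j = 1 := by
    rw [← pow_mul, inv_pow]
    exact mul_inv_cancel₀ (pow_ne_zero _ hg)
  calc eval t g ^ (2 * (H.natDegree - j)) * evh t y (H.coeff j)
      = eval t g ^ (2 * (H.natDegree - j)) * evh t y (H.coeff j) *
          (eval t g ^ (2 * j) * ((eval t g)⁻¹ ^ 2) ^ j) := by rw [h2, mul_one]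
    _ = _ := by rw [h1]; ring

lemma clear_deg {n : ℕ} (g : MvPolynomial (Fin n) K) (hg : g ≠ 0) (Q : Pl K n) (hQ : Q.Monic)
    (B : Polynomial (Pl K n)) (hB : ∀ j, (B.coeff j).degree < Q.degree) :
    ∃ D : ℕ, (clear g (Polynomial.C Q + Polynomial.X * Polynomial.C (Polynomial.C g) * B)).natDegree =
        Q.natDegree ∧
      (clear g (Polynomial.C Q + Polynomial.X * Polynomial.C (Polynomial.C g) * B)).leadingCoeff =
        g ^ (2 * D) ∧
      D = (Polynomial.C Q + Polynomial.X * Polynomial.C (Polynomial.C g) * B).natDegree := by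
  set H := Polynomial.C Q + Polynomial.X * Polynomial.C (Polynomial.C g) * B with hH
  have h0 : H.coeff 0 = Q := by
    rw [hH, Polynomial.coeff_add, Polynomial.coeff_C_zero, mul_assoc, Polynomial.coeff_X_mul_zero,
      add_zero]
  have hs : ∀ j, H.coeff (j + 1) = Polynomial.C g * B.coeff j := by
    intro j
    rw [hH, Polynomial.coeff_add, Polynomial.coeff_C_succ, mul_assoc, Polynomial.coeff_X_mul,
      Polynomial.coeff_C_mul, zero_add]
  have hcl : clear g H = Polynomial.C (g ^ (2 * H.natDegree)) * Q +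
      ∑ j ∈ Finset.range H.natDegree, Polynomial.C (g ^ (2 * (H.natDegree - (j + 1)))) *
        (Polynomial.C g * B.coeff j) := by
    have h5 : ∑ j ∈ Finset.range H.natDegree, Polynomial.C (g ^ (2 * (H.natDegree - (j + 1)))) *
        H.coeff (j + 1) = ∑ j ∈ Finset.range H.natDegree,
          Polynomial.C (g ^ (2 * (H.natDegree - (j + 1)))) * (Polynomial.C g * B.coeff j) :=
      Finset.sum_congr rfl fun j _ => by rw [hs]
    rw [clear, Finset.sum_range_succ', h5, h0, Nat.sub_zero, add_comm]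
  have hgD : g ^ (2 * H.natDegree) ≠ 0 := pow_ne_zero _ hg
  have hd1 : (Polynomial.C (g ^ (2 * H.natDegree)) * Q).degree = Q.degree := by
    rw [Polynomial.degree_mul, Polynomial.degree_C hgD, zero_add]
  have hd2 : (∑ j ∈ Finset.range H.natDegree, Polynomial.C (g ^ (2 * (H.natDegree - (j + 1)))) *
      (Polynomial.C g * B.coeff j)).degree < Q.degree := by
    have hbot : (⊥ : WithBot ℕ) < Q.degree :=
      bot_lt_iff_ne_bot.mpr fun h => hQ.ne_zero (Polynomial.degree_eq_bot.mp h)
    have hj : ∀ j ∈ Finset.range H.natDegree,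
        (Polynomial.C (g ^ (2 * (H.natDegree - (j + 1)))) * (Polynomial.C g * B.coeff j)).degree <
          Q.degree := by
      intro j _
      rw [← mul_assoc, ← Polynomial.C_mul]
      refine lt_of_le_of_lt ((Polynomial.degree_mul_le _ _).trans ?_) (hB j)
      exact (add_le_add Polynomial.degree_C_le le_rfl).trans (zero_add _).le
    exact lt_of_le_of_lt (Polynomial.degree_sum_le _ _) ((Finset.sup_lt_iff hbot).mpr hj)
  refine ⟨H.natDegree, ?_, ?_, rfl⟩
  · rw [Polynomial.natDegree, hcl, Polynomial.degree_add_eq_left_of_degree_lt (by rw [hd1]; exact hd2),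
      hd1]
    rfl
  · rw [hcl, Polynomial.leadingCoeff_add_of_degree_lt' (by rw [hd1]; exact hd2),
      Polynomial.leadingCoeff_mul, Polynomial.leadingCoeff_C, hQ.leadingCoeff, mul_one]

end small

end Pool.Agent.Helper10.RC
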