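import Pool.Agent.Helper10.RC.Final
import Pool.Agent.Helper10.RC.Intr

/-!
# The global theorem, intrinsic form
-/

set_option autoImplicit false

namespace Pool.Agent.Helper10.RC

open MvPolynomial NumberField
open Pool.Agent.Helper47.RC (descent)
open Pool.Agent.Helper54.RC (bezout)
open Pool.Agent.Helper16.RC (fin_classes)

lemma evh_map {L M : Type} [Field L] [Field M] (φ : L →+* M) {n : ℕ} (G : Pl L n) (T : Fin n → L)
    (y : L) : evh (fun j => φ (T j)) (φ y) (G.map (MvPolynomial.map φ)) = φ (evh T y G) := by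
  unfold evh
  rw [Polynomial.coe_eval₂RingHom, Polynomial.coe_eval₂RingHom, Polynomial.eval₂_map,
    Polynomial.hom_eval₂]
  congr 1
  apply MvPolynomial.ringHom_ext
  · intro r
    change eval (fun j => φ (T j)) (MvPolynomial.map φ (C r)) = φ (eval T (C r))
    rw [map_C, eval_C, eval_C]
  · intro i
    change eval (fun j => φ (T j)) (MvPolynomial.map φ (X i)) = φ (eval T (X i))
    rw [map_X, eval_X, eval_X]

lemma evh_pw {M : Type} [Field M] {n : ℕ} (R : Pl M n) (N : ℕ) (T : Fin n → M) (y : M) :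
    evh T y (pw R N) = evh (fun j => T j ^ N) y R := by
  unfold evh pw
  rw [Polynomial.coe_eval₂RingHom, Polynomial.coe_eval₂RingHom, Polynomial.eval₂_map]
  congr 1
  apply MvPolynomial.ringHom_ext
  · intro r
    change eval T (expand N (C r)) = eval (fun j => T j ^ N) (C r)
    rw [expand_C, eval_C, eval_C]
  · intro i
    change eval T (expand N (X i)) = eval (fun j => T j ^ N) (X i)
    rw [expand_X, map_pow, eval_X, eval_X]

lemma evh_comp {M : Type} [Field M] {n : ℕ} (G H : Pl M n) (T : Fin n → M) (y : M) :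
    evh T y (G.comp H) = evh T (evh T y H) G := by
  unfold evh
  rw [Polynomial.coe_eval₂RingHom, Polynomial.coe_eval₂RingHom, Polynomial.eval₂_comp]

section places
variable {K : Type} [Field K] [NumberField K] (S : Finset (FinitePlace K))

/-- The pairs `(u, y)`, `u` a vector of `S`-units, `R(T; y) = 0` for an `N`-th root `T` of `u`. -/
def PtsS {n : ℕ} (N : ℕ) (R : Pl (AlgebraicClosure K) n) : Set ((Fin n → K) × K) :=
  {p | (∀ j, SU S (p.1 j)) ∧ ∃ T : Fin n → AlgebraicClosure K,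
    (∀ j, T j ^ N = algebraMap K (AlgebraicClosure K) (p.1 j)) ∧
      evh T (algebraMap K (AlgebraicClosure K) p.2) R = 0}

lemma local_step' {n : ℕ} (hn : 0 < n) (N : ℕ) (hN : 1 ≤ N) (R : Pl (AlgebraicClosure K) n)
    (N' : ℕ) (hN' : 1 ≤ N') (p : InfinitePlace K ⊕ {v // v ∈ S})
    (x : InfinitePlace K ⊕ {v // v ∈ S} → Fin n → ℝ) (hs : LocData (pw R N') (x p)) :
    ∃ r B : ℝ, 0 < r ∧ 0 < B ∧
      Cov {q | q ∈ PtsS S N R ∧ B ≤ ‖lvec S q.1‖ ∧
        ‖‖lvec S q.1‖⁻¹ • lvec S q.1 - x‖ ≤ r} := by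
  classical
  obtain ⟨P, R₀, M, Q₁, Q₂, h, hP, hirr, hcomp, hQ₁, hQ₂, hd₁, hd₂, hcop, hle, hin⟩ := hs
  obtain ⟨U, V, g, hg0, hUV⟩ := bezout Q₁ Q₂ hcop
  set D : ℕ := N * N' with hD
  have hD1 : 1 ≤ D := Nat.mul_pos hN hN'
  obtain ⟨𝒞, h𝒞⟩ := fin_classes K S D hD1
  obtain ⟨L, iF, iN, iA, φ, hFs, hGs⟩ := descent
    (𝒞.biUnion fun c => (Polynomial.nthRoots D (algebraMap K (AlgebraicClosure K) c)).toFinset)
    {P, R₀, Q₁, Q₂, U, V, Polynomial.C g}
  obtain ⟨P', hP'⟩ := hGs P (by simp)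
  obtain ⟨R₀', hR₀'⟩ := hGs R₀ (by simp)
  obtain ⟨Q₁', hQ₁'⟩ := hGs Q₁ (by simp)
  obtain ⟨Q₂', hQ₂'⟩ := hGs Q₂ (by simp)
  obtain ⟨U', hU'⟩ := hGs U (by simp)
  obtain ⟨V', hV'⟩ := hGs V (by simp)
  obtain ⟨g', hg'⟩ := hGs (Polynomial.C g) (by simp)
  set ψ : MvPolynomial (Fin n) L →+* MvPolynomial (Fin n) (AlgebraicClosure K) :=
    MvPolynomial.map (φ : L →+* AlgebraicClosure K) with hψ
  have hψi : Function.Injective ψ := map_injective _ (φ : L →+* AlgebraicClosure K).injective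
  have hPi : Function.Injective (Polynomial.map ψ) := Polynomial.map_injective _ hψi
  have hg'C : g' = Polynomial.C (g'.coeff 0) := by
    apply hPi
    rw [hg', Polynomial.map_C, ← Polynomial.coeff_map, hg', Polynomial.coeff_C_zero]
  have hmap : ∀ k α, coeff α (P.coeff k) = φ (coeff α (P'.coeff k)) := by
    intro k α
    rw [← hP', Polynomial.coeff_map, coeff_map]
    rfl
  have hPm' : P'.Monic := Polynomial.monic_of_injective hψi (by rwa [hP'])
  have hdegP : P'.natDegree = P.natDegree := by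
    rw [← hP', hPm'.natDegree_map]
  -- the system of absolute values
  obtain ⟨Λ, i1, i2, Z, hF, hU, hpl, C, hC, hCle⟩ := exists_psys' S L
    (P'.support.biUnion fun k => (P'.coeff k).support.image fun α => coeff α (P'.coeff k))
  obtain ⟨σ₁, κ, hκ, hσ₁⟩ := hpl p
  have hPO : ∀ k α, coeff α (P'.coeff k) ∈ Z.O := by
    intro k α
    by_cases h0 : coeff α (P'.coeff k) = 0
    · rw [h0]
      exact Z.O.zero_mem
    · apply hF
      rw [Finset.mem_biUnion]
      refine ⟨k, ?_, Finset.mem_image.mpr ⟨α, mem_support_iff.mpr h0, rfl⟩⟩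
      rw [Polynomial.mem_support_iff]
      intro h1
      rw [h1, coeff_zero] at h0
      exact h0 rfl
  have hD0 : (0 : ℝ) < D := by exact_mod_cast hD1
  obtain ⟨r, hr, hmain⟩ := main_local Z σ₁ hn P' hPm'
    (hPm'.irreducible_of_irreducible_map ψ P' (by rwa [hP'])) hPO (x p) h Q₁' Q₂' U' V'
    (g'.coeff 0)
    (Polynomial.monic_of_injective hψi (by rwa [hQ₁']))
    (Polynomial.monic_of_injective hψi (by rwa [hQ₂']))
    (by rwa [← Polynomial.natDegree_map_eq_of_injective hψi, hQ₁'])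
    (by rwa [← Polynomial.natDegree_map_eq_of_injective hψi, hQ₂'])
    (by
      apply hPi
      rw [Polynomial.map_add, Polynomial.map_mul, Polynomial.map_mul, hU', hV', hQ₁', hQ₂', hUV,
        ← hg'C, hg'])
    (by
      intro h0
      rw [h0, Polynomial.C_0] at hg'C
      rw [hg'C, Polynomial.map_zero] at hg'
      exact hg0 (Polynomial.C_eq_zero.mp hg'.symm))
    (by
      intro k α hk
      rw [hdegP]
      apply hle k α
      rw [hmap]
      intro h0
      apply hk
      apply (φ : L →+* AlgebraicClosure K).injective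
      rw [map_zero]
      exact h0)
    (by
      intro k α
      apply (φ : L →+* AlgebraicClosure K).injective
      change φ (coeff α ((Q₁' * Q₂').coeff k)) = φ _
      have h1 := hin k α
      rw [← hQ₁', ← hQ₂', ← Polynomial.map_mul, Polynomial.coeff_map, coeff_map] at h1
      change φ (coeff α ((Q₁' * Q₂').coeff k)) = _ at h1
      rw [h1, hdegP]
      split_ifs
      · exact hmap k α
      · rw [map_zero])
    (C / κ)
  refine ⟨r, D / κ, hr, by positivity, ?_⟩
  -- lifting the points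
  set E' : Set ((Fin n → L) × L) := {q | ∃ u : Fin n → K, ∃ y : K,
    (u, y) ∈ PtsS S N R ∧ D / κ ≤ ‖lvec S u‖ ∧ ‖‖lvec S u‖⁻¹ • lvec S u - x‖ ≤ r ∧
      (∀ j, q.1 j ^ D = algebraMap K L (u j)) ∧ evh q.1 q.2 P' = 0} with hE'
  have hcov : Cov E' := by
    apply hmain
    rintro ⟨T, z⟩ ⟨u, y, ⟨hu, huy⟩, hB, hnear, hT, hTz⟩
    simp only at hT hTz
    set H := ‖lvec S u‖ with hH
    have hH0 : 0 < H := lt_of_lt_of_le (by positivity) hB
    refine ⟨hTz, κ / D * H, ?_, ?_, ?_, ?_⟩
    · rw [div_le_iff₀ hκ] at hB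
      rw [div_mul_eq_mul_div, le_div_iff₀ hD0]
      linarith
    · intro j
      apply isU_of_pow Z hD1
      change Z.IsU (T j ^ D)
      rw [hT j]
      exact hU _ (hu j)
    · intro j
      have hTU : Z.IsU (T j) := by
        apply isU_of_pow Z hD1
        rw [hT j]
        exact hU _ (hu j)
      refine ⟨hTU.1, ?_⟩
      have h1 := hσ₁ (u j) (hu j).1
      rw [← hT j, map_pow, Real.log_pow] at h1
      change |Real.log (Z.abv σ₁ (T j)) - κ / D * H * x p j| ≤ r * (κ / D * H)
      have h2 : Real.log (Z.abv σ₁ (T j)) = κ / D * plog S p (u j) := by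
        field_simp
        linarith
      have h3 : |H⁻¹ * plog S p (u j) - x p j| ≤ r := by
        have h4 := norm_le_pi_norm (H⁻¹ • lvec S u - x) p
        have h5 := norm_le_pi_norm ((H⁻¹ • lvec S u - x) p) j
        exact (h5.trans h4).trans hnear
      have h6 : Real.log (Z.abv σ₁ (T j)) - κ / D * H * x p j =
          κ / D * H * (H⁻¹ * plog S p (u j) - x p j) := by
        rw [h2]
        field_simp
      rw [h6, abs_mul, abs_of_pos (by positivity), mul_comm]
      exact mul_le_mul_of_nonneg_right h3 (by positivity)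
    · intro σ j
      have h1 := hCle σ (u j) H hH0.le (hu j) (fun p => lvec_le S u p j)
      rw [← hT j, map_pow, Real.log_pow, abs_mul, abs_of_pos hD0] at h1
      change |Real.log (Z.abv σ (T j))| ≤ C / κ * (κ / D * H)
      have h2 : C / κ * (κ / D * H) = C * H / D := by
        field_simp
      rw [h2, le_div_iff₀ hD0]
      linarith
  refine Cov.descend D ?_ hcov
  rintro ⟨u, y⟩ ⟨⟨hu, T, hT, hTy⟩, hB, hnear⟩
  simp only at hT hTy
  have hT' : ∀ j, ∃ t : L, φ t ^ N' = T j := by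
    intro j
    obtain ⟨c, hc, t, ht⟩ := h𝒞 (u j) (hu j).1 (hu j).2
    obtain ⟨τ, hτ⟩ := IsAlgClosed.exists_pow_nat_eq (T j) (n := N') (by omega)
    have ht0 : t ≠ 0 := by
      rintro rfl
      rw [zero_pow (by omega), mul_zero] at ht
      exact (hu j).1 ht
    have ht0' : algebraMap K (AlgebraicClosure K) t ≠ 0 := by
      rw [Ne, map_eq_zero]
      exact ht0
    have hγ : (τ / algebraMap K (AlgebraicClosure K) t) ^ D =
        algebraMap K (AlgebraicClosure K) c := by
      rw [div_pow, hD, mul_comm N N', pow_mul, hτ, hT j, ht, map_mul, map_pow, hD, mul_comm N' N,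
        mul_div_assoc, div_self (pow_ne_zero _ ht0'), mul_one]
    obtain ⟨z, hz⟩ := hFs (τ / algebraMap K (AlgebraicClosure K) t) (by
      rw [Finset.mem_biUnion]
      refine ⟨c, hc, ?_⟩
      rw [Multiset.mem_toFinset, Polynomial.mem_nthRoots (by omega)]
      exact hγ)
    refine ⟨z * algebraMap K L t, ?_⟩
    rw [map_mul, hz, AlgHom.commutes, div_mul_cancel₀ _ ht0', hτ]
  choose t ht using hT'
  refine ⟨(t, evh t (algebraMap K L y) R₀'), ⟨u, y, ⟨hu, T, hT, hTy⟩, hB, hnear, ?_, ?_⟩, ?_⟩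
  · intro j
    apply (φ : L →+* AlgebraicClosure K).injective
    change φ (t j ^ D) = φ (algebraMap K L (u j))
    rw [map_pow, hD, mul_comm, pow_mul, ht, hT, AlgHom.commutes]
  · change evh t (evh t (algebraMap K L y) R₀') P' = 0
    apply (φ : L →+* AlgebraicClosure K).injective
    rw [map_zero, ← evh_map, ← evh_map]
    change evh (fun j => φ (t j)) (evh (fun j => φ (t j)) (φ (algebraMap K L y)) (R₀'.map ψ))
      (P'.map ψ) = 0
    rw [hR₀', hP', ← evh_comp, hcomp, map_mul, evh_pw]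
    rw [show (fun j => φ (t j) ^ N') = T from funext ht, AlgHom.commutes, hTy, zero_mul]
  · intro j
    apply (φ : L →+* AlgebraicClosure K).injective
    change φ (t j ^ D) = φ (algebraMap K L (u j))
    rw [map_pow, hD, mul_comm, pow_mul, ht, hT, AlgHom.commutes]

/-- The points of bounded size are covered by finitely many cosets. -/
lemma cov_bounded' {n : ℕ} (hn : 0 < n) (N : ℕ) (R : Pl (AlgebraicClosure K) n) (B : ℝ) :
    Cov {q | q ∈ PtsS S N R ∧ ‖lvec S q.1‖ ≤ B} := by
  classical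
  obtain ⟨Λ, i1, i2, Z, -, hU, -, C, hC, hCle⟩ := exists_psys' S K (∅ : Finset K)
  set j₀ : Fin n := ⟨0, hn⟩ with hj₀
  have hfin := Z.fin (Real.exp (C * B))
  refine ⟨hfin.toFinset.image fun x => (Pi.single j₀ 1, x), ?_, ?_⟩
  · intro a ha
    obtain ⟨x, -, rfl⟩ := Finset.mem_image.mp ha
    intro h0
    have := congrFun h0 j₀
    simp at this
  · rintro ⟨u, y⟩ ⟨⟨hu, -⟩, hB⟩
    change ‖lvec S u‖ ≤ B at hB
    have hUj := hU (u j₀) (hu j₀)
    rw [Algebra.algebraMap_self_apply] at hUj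
    refine ⟨(Pi.single j₀ 1, u j₀), Finset.mem_image.mpr ⟨u j₀, ?_, rfl⟩, ?_⟩
    · rw [Set.Finite.mem_toFinset]
      refine ⟨hUj.2.1, fun σ => ?_⟩
      have hpos : 0 < Z.abv σ (u j₀) := (Z.abv σ).pos hUj.1
      rw [← Real.log_le_iff_le_exp hpos]
      have h1 := hCle σ (u j₀) ‖lvec S u‖ (norm_nonneg _) (hu j₀) (fun p => lvec_le S u p j₀)
      rw [Algebra.algebraMap_self_apply] at h1
      exact (abs_le.mp h1).2.trans (mul_le_mul_of_nonneg_left hB hC)
    · change ∏ j, u j ^ (Pi.single j₀ 1 : Fin n → ℤ) j = u j₀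
      rw [Finset.prod_eq_single j₀]
      · simp
      · intro j _ hj
        simp [Pi.single_eq_of_ne hj]
      · exact fun h => absurd (Finset.mem_univ _) h

variable (B : FinitePlace K → ℝ) (hB : {v | B v ≠ 0}.Finite)

open Classical in
include hB in
lemma QU.su {x : K} (hx : QU S B x) : SU (S ∪ hB.toFinset) x := by
  refine ⟨hx.1, fun v hv => ?_⟩
  rw [Finset.notMem_union, Set.Finite.mem_toFinset] at hv
  have h1 : B v = 0 := by
    by_contra h
    exact hv.2 h
  have h2 := hx.2 v hv.1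
  rw [h1] at h2
  exact Real.eq_one_of_pos_of_log_eq_zero (FinitePlace.pos_iff.mpr hx.1)
    (abs_nonpos_iff.mp h2)

include hB in
theorem fin_classes' (N : ℕ) (hN : 1 ≤ N) :
    ∃ 𝒞 : Finset K, ∀ x : K, QU S B x → ∃ c ∈ 𝒞, ∃ t : K, x = c * t ^ N := by
  classical
  obtain ⟨𝒞, h⟩ := fin_classes K (S ∪ hB.toFinset) N hN
  exact ⟨𝒞, fun x hx => h x (hx.su S B hB).1 (hx.su S B hB).2⟩

include hB in
theorem main_global' {n : ℕ} (hn : 0 < n) (s : ℕ)
    (hs : Fintype.card (InfinitePlace K) + S.card ≤ s) (N : ℕ) (hN : 1 ≤ N)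
    (R : Pl (AlgebraicClosure K) n)
    (hsplit : ∀ ν : Fin s → Fin n → ℝ, ∑ i, ν i = 0 → ν ≠ 0 →
      ∃ i, ν i ≠ 0 ∧ ∃ N', 1 ≤ N' ∧ LocData (pw R N') (ν i)) :
    Cov (PtsR S B N R) := by
  classical
  set S' : Finset (FinitePlace K) := S ∪ hB.toFinset with hS'
  have hsub : PtsR S B N R ⊆ PtsS S' N R := fun q hq => ⟨fun j => (hq.1 j).su S B hB, hq.2⟩
  -- the relevant places
  set I : Finset (InfinitePlace K ⊕ {v // v ∈ S'}) :=
    Finset.univ.filter fun p => ∀ v, p = Sum.inr v → v.1 ∈ S with hI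
  have hcard : I.card ≤ s := by
    have h1 : (((Finset.univ : Finset (InfinitePlace K)).disjSum S).card) ≤ s := by
      rw [Finset.card_disjSum, Finset.card_univ]
      exact hs
    refine le_trans (Finset.card_le_card_of_injOn (Sum.map id Subtype.val) ?_ ?_) h1
    · intro p hp
      have hp' := (Finset.mem_filter.mp hp).2
      rcases p with w | v
      · exact Finset.inl_mem_disjSum.mpr (Finset.mem_univ w)
      · exact Finset.inr_mem_disjSum.mpr (hp' v rfl)
    · intro p _ p' _ h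
      exact (Sum.map_injective.mpr ⟨Function.injective_id, Subtype.val_injective⟩) h
  obtain ⟨e⟩ : Nonempty ({p // p ∈ I} ↪ Fin s) := by
    apply Function.Embedding.nonempty_of_card_le
    rw [Fintype.card_coe, Fintype.card_fin]
    exact hcard
  have hsplit' : ∀ x : InfinitePlace K ⊕ {v // v ∈ S'} → Fin n → ℝ, (∀ p, p ∉ I → x p = 0) →
      ∑ p, x p = 0 → x ≠ 0 → ∃ p, ∃ N', 1 ≤ N' ∧ LocData (pw R N') (x p) := by
    intro x hxI hx hx0
    obtain ⟨i, hi0, hi⟩ := hsplit (Function.extend e (fun p => x p.1) 0) (by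
      rw [← hx, ← Finset.sum_subset (Finset.subset_univ I) (fun p _ hp => hxI p hp),
        ← Finset.sum_coe_sort I]
      symm
      rw [← Finset.sum_subset (Finset.subset_univ (Finset.univ.map e)), Finset.sum_map]
      · exact Finset.sum_congr rfl fun p _ => (e.injective.extend_apply (fun p => x p.1) 0 p).symm
      · intro i _ hi
        rw [Function.extend_apply']
        · rfl
        · rintro ⟨p, rfl⟩
          exact hi (Finset.mem_map_of_mem e (Finset.mem_univ p))) (by
      intro h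
      apply hx0
      funext p
      by_cases hp : p ∈ I
      · have := congrFun h (e ⟨p, hp⟩)
        rwa [e.injective.extend_apply] at this
      · exact hxI p hp)
    by_cases hp : ∃ p, e p = i
    · obtain ⟨p, rfl⟩ := hp
      rw [e.injective.extend_apply] at hi
      exact ⟨p.1, hi⟩
    · rw [Function.extend_apply' _ _ _ hp] at hi0
      exact absurd rfl hi0
  -- compactness
  set 𝒮 : Set (InfinitePlace K ⊕ {v // v ∈ S'} → Fin n → ℝ) :=
    Metric.sphere 0 1 ∩ {x | ∑ p, x p = 0} with h𝒮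
  have hcomp : IsCompact 𝒮 := by
    apply (isCompact_sphere 0 1).inter_right
    exact isClosed_eq (by fun_prop) continuous_const
  have hkey : ∃ D : ℝ, 0 < D ∧ Cov {q | q ∈ PtsR S B N R ∧ D ≤ ‖lvec S' q.1‖ ∧
      ‖lvec S' q.1‖⁻¹ • lvec S' q.1 ∈ 𝒮} := by
    refine hcomp.induction_on (p := fun A => ∃ D : ℝ, 0 < D ∧ Cov {q | q ∈ PtsR S B N R ∧
      D ≤ ‖lvec S' q.1‖ ∧ ‖lvec S' q.1‖⁻¹ • lvec S' q.1 ∈ A}) ?_ ?_ ?_ ?_
    · exact ⟨1, one_pos, Cov.mono (fun q hq => hq.2.2) Cov.empty⟩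
    · rintro A A' hA ⟨D, hD, h⟩
      refine ⟨D, hD, Cov.mono ?_ h⟩
      rintro q ⟨hq1, hq2, hq3⟩
      exact ⟨hq1, hq2, hA hq3⟩
    · rintro A A' ⟨D, hD, h⟩ ⟨D', hD', h'⟩
      refine ⟨max D D', lt_max_of_lt_left hD, Cov.mono ?_ (Cov.union h h')⟩
      rintro q ⟨hq1, hq2, hq3 | hq3⟩
      · exact Or.inl ⟨hq1, (le_max_left _ _).trans hq2, hq3⟩
      · exact Or.inr ⟨hq1, (le_max_right _ _).trans hq2, hq3⟩
    · intro x hx
      have hx0 : x ≠ 0 := by
        rintro rfl
        have := hx.1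
        simp at this
      by_cases hxI : ∀ p, p ∉ I → x p = 0
      · obtain ⟨p, N', hN', hp⟩ := hsplit' x hxI hx.2 hx0
        obtain ⟨r, D, hr, hD, h⟩ := local_step' S' hn N hN R N' hN' p x hp
        refine ⟨Metric.closedBall x r, mem_nhdsWithin_of_mem_nhds
          (Metric.closedBall_mem_nhds x hr), D, hD, Cov.mono ?_ h⟩
        rintro q ⟨hq1, hq2, hq3⟩
        refine ⟨hsub hq1, hq2, ?_⟩
        rwa [Metric.mem_closedBall, dist_eq_norm] at hq3
      · push Not at hxI
        obtain ⟨p, hpI, hxp⟩ := hxI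
        have hp : ∃ v : {v // v ∈ S'}, p = Sum.inr v ∧ v.1 ∉ S := by
          rw [hI, Finset.mem_filter] at hpI
          push Not at hpI
          exact hpI (Finset.mem_univ p)
        obtain ⟨v, rfl, hvS⟩ := hp
        obtain ⟨j, hj⟩ : ∃ j, x (Sum.inr v) j ≠ 0 := by
          by_contra hcon
          push Not at hcon
          exact hxp (funext hcon)
        have hj0 : 0 < |x (Sum.inr v) j| := abs_pos.mpr hj
        refine ⟨Metric.closedBall x (|x (Sum.inr v) j| / 2), mem_nhdsWithin_of_mem_nhds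
          (Metric.closedBall_mem_nhds x (by positivity)),
          2 * |B v.1| / |x (Sum.inr v) j| + 1, by positivity, Cov.mono ?_ Cov.empty⟩
        rintro q ⟨hq1, hq2, hq3⟩
        exfalso
        rw [Metric.mem_closedBall, dist_eq_norm] at hq3
        set H := ‖lvec S' q.1‖ with hH
        have hH0 : 0 < H := lt_of_lt_of_le (by positivity) hq2
        have h3 : |H⁻¹ * plog S' (Sum.inr v) (q.1 j) - x (Sum.inr v) j| ≤
            |x (Sum.inr v) j| / 2 := by
          have h4 := norm_le_pi_norm (H⁻¹ • lvec S' q.1 - x) (Sum.inr v)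
          have h5 := norm_le_pi_norm ((H⁻¹ • lvec S' q.1 - x) (Sum.inr v)) j
          exact (h5.trans h4).trans hq3
        have h6 : |plog S' (Sum.inr v) (q.1 j)| ≤ |B v.1| :=
          ((hq1.1 j).2 v.1 hvS).trans (le_abs_self _)
        have h7 : |x (Sum.inr v) j| / 2 ≤ |H⁻¹ * plog S' (Sum.inr v) (q.1 j)| := by
          have := abs_sub_abs_le_abs_sub (x (Sum.inr v) j) (H⁻¹ * plog S' (Sum.inr v) (q.1 j))
          rw [abs_sub_comm] at h3
          linarith
        rw [abs_mul, abs_of_pos (inv_pos.mpr hH0)] at h7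
        have h8 : |x (Sum.inr v) j| / 2 ≤ H⁻¹ * |B v.1| :=
          h7.trans (mul_le_mul_of_nonneg_left h6 (by positivity))
        rw [← div_eq_inv_mul, le_div_iff₀ hH0] at h8
        have h9 : H ≤ 2 * |B v.1| / |x (Sum.inr v) j| := by
          rw [le_div_iff₀ hj0]
          linarith
        linarith
  obtain ⟨D, hD, h⟩ := hkey
  refine Cov.mono ?_ (Cov.union (cov_bounded' S' hn N R D) h)
  intro q hq
  rcases le_total ‖lvec S' q.1‖ D with h1 | h1
  · exact Or.inl ⟨hsub hq, h1⟩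
  · refine Or.inr ⟨hq, h1, Set.mem_inter ?_ ?_⟩
    · have h2 : ‖lvec S' q.1‖ ≠ 0 := by
        have : 0 < ‖lvec S' q.1‖ := lt_of_lt_of_le hD h1
        exact this.ne'
      rw [mem_sphere_zero_iff_norm, norm_smul, norm_inv, norm_norm, inv_mul_cancel₀ h2]
    · change ∑ p, (‖lvec S' q.1‖⁻¹ • lvec S' q.1) p = 0
      funext j
      rw [Finset.sum_apply]
      simp only [Pi.smul_apply, smul_eq_mul, Pi.zero_apply]
      rw [← Finset.mul_sum]
      rw [show ∑ p, lvec S' q.1 p j = 0 from plog_sum S' ((hq.1 j).su S B hB), mul_zero]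

end places

end Pool.Agent.Helper10.RC
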