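import Pool.Agent.Helper10.RC.Step
import Pool.Agent.Helper40.RC2COS
import Pool.Agent.Helper85.RC2ONE
import Pool.Agent.Helper53.RC2FAC
import Pool.Agent.Helper19.RC2D
import Pool.Agent.Helper41.RC2A

/-!
# The strong form
-/

set_option autoImplicit false

namespace Pool.Agent.Helper10.RC

open MvPolynomial NumberField
open Pool.Agent.Helper40.RC (curves_two_of)
open Pool.Agent.Helper41.RC (locData_of_abs)

theorem curves_one (K : Type) [Field K] [NumberField K] (S : Finset (FinitePlace K))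
    (B : FinitePlace K → ℝ) (hB : {v | B v ≠ 0}.Finite) (P : Pl K 1) (hP : P.Monic) :
    ∃ (F : Set (K × K)) (𝒞 : Finset (K × ℕ × Polynomial K)), F.Finite ∧
      (∀ c ∈ 𝒞, c.1 ≠ 0 ∧ 1 ≤ c.2.1 ∧
        ∀ t : K, evh (fun _ => c.1 * t ^ c.2.1) (c.2.2.eval t) P = 0) ∧
      ∀ z y : K, z ≠ 0 → (∀ v : FinitePlace K, v ∉ S → |Real.log (v z)| ≤ B v) →
        evh (fun _ => z) y P = 0 →
        (z, y) ∈ F ∨ ∃ c ∈ 𝒞, ∃ t : K, t ≠ 0 ∧ z = c.1 * t ^ c.2.1 ∧ y = c.2.2.eval t :=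
  Pool.Agent.Helper85.RC.curves_one_of K S B
    (fun R hR hd hirr ν hν => Pool.Agent.Helper19.RC.locData_one R hR hd hirr ν hν)
    (fun P hP => Pool.Agent.Helper53.RC.stable_factors P hP)
    (fun s hs N hN R h => main_global' S B hB one_pos s hs N hN R h)
    (fun N hN => fin_classes' S B hB N hN) P hP

section
variable {K : Type} [Field K] [NumberField K] (S : Finset (FinitePlace K))
  (B : FinitePlace K → ℝ) (hB : {v | B v ≠ 0}.Finite)

/-- `R(t₁^N, …, t_n^N; Y)`. -/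
lemma kum_eq_pw {n : ℕ} (P : Pl K n) (N : ℕ) : kum (AlgebraicClosure K) P N =
    pw (P.map (MvPolynomial.map (algebraMap K (AlgebraicClosure K)))) N := by
  unfold kum pw
  rw [Polynomial.map_map]

include hB in
/-- The non-density theorem in intrinsic form. -/
theorem cov_intrinsic {n : ℕ} (hn : 0 < n) (s : ℕ)
    (hs : Fintype.card (InfinitePlace K) + S.card ≤ s) (P : Pl K n) (hP : P.Monic)
    (hirr : ∀ N, 1 ≤ N → Irreducible (kum (AlgebraicClosure K) P N))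
    (hsplit : ∀ ν : Fin s → Fin n → ℝ, ∑ i, ν i = 0 → ν ≠ 0 → ∃ i, ν i ≠ 0 ∧
      ∃ N, 1 ≤ N ∧ ∃ w₁ w₂ : AbsoluteValue (AdjoinRoot (kum (AlgebraicClosure K) P N)) ℝ,
        w₁ ≠ w₂ ∧ Extends _ (ν i) w₁ ∧ Extends _ (ν i) w₂) :
    Cov {p : (Fin n → K) × K | (∀ j, QU S B (p.1 j)) ∧ evh p.1 p.2 P = 0} := by
  refine Cov.mono ?_ (main_global' S B hB hn s hs 1 le_rfl
    (P.map (MvPolynomial.map (algebraMap K (AlgebraicClosure K)))) ?_)
  · rintro ⟨u, y⟩ ⟨hu, hy⟩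
    refine ⟨hu, fun j => algebraMap K (AlgebraicClosure K) (u j), fun j => pow_one _, ?_⟩
    have h1 := evh_map (algebraMap K (AlgebraicClosure K)) P u y
    change evh u y P = 0 at hy
    rw [hy, map_zero] at h1
    exact h1
  · intro ν hν hν0
    obtain ⟨i, hi, N, hN, w₁, w₂, hne, h₁, h₂⟩ := hsplit ν hν hν0
    refine ⟨i, hi, N, hN, ?_⟩
    rw [← kum_eq_pw]
    exact locData_of_abs _ (Pool.Agent.Helper47.RC.kum_monic P hP N _) (hirr N hN) (ν i) w₁ w₂ hne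
      h₁ h₂

/-- The roots of a monic polynomial at a point are finite in number. -/
lemma roots_finite {n : ℕ} (P : Pl K n) (hP : P.Monic) (u : Fin n → K) :
    {y : K | evh u y P = 0}.Finite := by
  have h1 : (P.map (MvPolynomial.eval u)) ≠ 0 := (hP.map _).ne_zero
  refine (Polynomial.finite_setOfPred_isRoot h1).subset ?_
  intro y hy
  change evh u y P = 0 at hy
  rw [evh, Polynomial.coe_eval₂RingHom] at hy
  rw [Set.mem_ofPred_eq, Polynomial.IsRoot, Polynomial.eval_map]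
  exact hy

/-- For `n = 1`, a set covered by finitely many cosets is finite. -/
lemma finite_of_cov (P : Pl K 1) (hP : P.Monic) (E : Set ((Fin 1 → K) × K))
    (hE : ∀ p ∈ E, p.1 0 ≠ 0 ∧ evh p.1 p.2 P = 0) (h : Cov E) : E.Finite := by
  classical
  obtain ⟨A, hA, h⟩ := h
  have h1 : (⋃ a ∈ A, {z : K | z ≠ 0 ∧ z ^ a.1 0 = a.2}).Finite := by
    refine Set.Finite.biUnion A.finite_toSet fun a ha => ?_
    have ha0 : a.1 0 ≠ 0 := by
      intro h0
      apply hA a ha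
      funext j
      rw [Subsingleton.elim j 0]
      exact h0
    have h2 : {z : K | z ^ (a.1 0).natAbs = a.2 ∨ z ^ (a.1 0).natAbs = a.2⁻¹}.Finite := by
      have h3 : ∀ b : K, {z : K | z ^ (a.1 0).natAbs = b}.Finite := by
        intro b
        refine ((Polynomial.nthRoots (a.1 0).natAbs b).toFinset.finite_toSet).subset ?_
        intro z hz
        rw [Finset.mem_coe, Multiset.mem_toFinset, Polynomial.mem_nthRoots
          (Int.natAbs_pos.mpr ha0)]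
        exact hz
      exact (h3 _).union (h3 _)
    refine h2.subset ?_
    rintro z ⟨hz0, hz⟩
    rcases Int.natAbs_eq (a.1 0) with h4 | h4
    · left
      rw [h4, zpow_natCast] at hz
      exact hz
    · right
      rw [h4, zpow_neg, zpow_natCast] at hz
      rw [← hz, inv_inv]
  have h5 : (⋃ z ∈ (⋃ a ∈ A, {z : K | z ≠ 0 ∧ z ^ a.1 0 = a.2}),
      (fun y => ((fun _ => z : Fin 1 → K), y)) '' {y : K | evh (fun _ => z) y P = 0}).Finite :=
    h1.biUnion fun z _ => (roots_finite P hP _).image _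
  refine h5.subset ?_
  rintro ⟨u, y⟩ hp
  obtain ⟨hu0, hy⟩ := hE _ hp
  obtain ⟨a, ha, hau⟩ := h _ hp
  change u 0 ≠ 0 at hu0
  change evh u y P = 0 at hy
  change ∏ j, u j ^ a.1 j = a.2 at hau
  rw [Fin.prod_univ_one] at hau
  have hu : u = fun _ => u 0 := by
    funext j
    rw [Subsingleton.elim j 0]
  refine Set.mem_biUnion (x := u 0) (Set.mem_biUnion (x := a) ha ⟨hu0, hau⟩) ⟨y, ?_, ?_⟩
  · change evh (fun _ => u 0) y P = 0
    rw [← hu]
    exact hy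
  · change ((fun _ => u 0 : Fin 1 → K), y) = (u, y)
    rw [← hu]

include hB in
/-- **The strong form.** -/
theorem strong {n : ℕ} (hn : 0 < n) (s : ℕ)
    (hs : Fintype.card (InfinitePlace K) + S.card ≤ s) (P : Pl K n) (hP : P.Monic)
    (hirr : ∀ N, 1 ≤ N → Irreducible (kum (AlgebraicClosure K) P N))
    (hsplit : ∀ ν : Fin s → Fin n → ℝ, ∑ i, ν i = 0 → ν ≠ 0 → ∃ i, ν i ≠ 0 ∧
      ∃ N, 1 ≤ N ∧ ∃ w₁ w₂ : AbsoluteValue (AdjoinRoot (kum (AlgebraicClosure K) P N)) ℝ,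
        w₁ ≠ w₂ ∧ Extends _ (ν i) w₁ ∧ Extends _ (ν i) w₂) :
    ∃ (F : Set ((Fin n → K) × K)) (𝒞 : Finset ((Fin n → K) × (Fin n → ℤ) × Polynomial K × ℕ))
      (A : Finset ((Fin n → ℤ) × K)), F.Finite ∧
      (∀ c ∈ 𝒞, (∀ j, c.1 j ≠ 0) ∧ c.2.1 ≠ 0 ∧
        ∀ t : K, t ≠ 0 → evh (fun j => c.1 j * t ^ c.2.1 j)
          (c.2.2.1.eval t / t ^ c.2.2.2) P = 0) ∧
      (∀ a ∈ A, 3 ≤ n ∧ a.1 ≠ 0) ∧
      ∀ p : (Fin n → K) × K, (∀ j, QU S B (p.1 j)) → evh p.1 p.2 P = 0 →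
        p ∈ F ∨ (∃ c ∈ 𝒞, ∃ t : K, t ≠ 0 ∧ (∀ j, p.1 j = c.1 j * t ^ c.2.1 j) ∧
          p.2 = c.2.2.1.eval t / t ^ c.2.2.2) ∨ ∃ a ∈ A, ∏ j, p.1 j ^ a.1 j = a.2 := by
  classical
  have hcov := cov_intrinsic S B hB hn s hs P hP hirr hsplit
  rcases lt_trichotomy n 2 with hn2 | hn2 | hn2
  · obtain rfl : n = 1 := by omega
    refine ⟨_, ∅, ∅, finite_of_cov P hP _ (fun p hp => ⟨(hp.1 0).1, hp.2⟩) hcov, ?_, ?_, ?_⟩
    · intro c hc
      exact absurd hc (Finset.notMem_empty c)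
    · intro c hc
      exact absurd hc (Finset.notMem_empty c)
    · exact fun p hp hy => Or.inl ⟨hp, hy⟩
  · subst hn2
    obtain ⟨A, hA, h⟩ := hcov
    choose F 𝒞 hF h𝒞 hpt using fun (a : {a // a ∈ A}) =>
      curves_two_of K (fun S B hB P hP => curves_one K S B hB P hP) S B hB P hP a.1.1
        (hA a.1 a.2) a.1.2
    refine ⟨⋃ a, F a, Finset.univ.biUnion 𝒞, ∅, Set.finite_iUnion hF, ?_, ?_, ?_⟩
    · intro c hc
      obtain ⟨a, -, ha⟩ := Finset.mem_biUnion.mp hc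
      exact h𝒞 a c ha
    · intro c hc
      exact absurd hc (Finset.notMem_empty c)
    · intro p hp hy
      obtain ⟨a, ha, hap⟩ := h p ⟨hp, hy⟩
      rcases hpt ⟨a, ha⟩ p.1 p.2 (fun j => (hp j).1) (fun v hv j => (hp j).2 v hv) hap hy with
        h1 | ⟨c, hc, h1⟩
      · exact Or.inl (Set.mem_iUnion.mpr ⟨_, h1⟩)
      · exact Or.inr (Or.inl ⟨c, Finset.mem_biUnion.mpr ⟨_, Finset.mem_univ _, hc⟩, h1⟩)
  · obtain ⟨A, hA, h⟩ := hcov
    refine ⟨∅, ∅, A, Set.finite_empty, ?_, fun a ha => ⟨by omega, hA a ha⟩, ?_⟩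
    · intro c hc
      exact absurd hc (Finset.notMem_empty c)
    · exact fun p hp hy => Or.inr (Or.inr (h p ⟨hp, hy⟩))

end

end Pool.Agent.Helper10.RC
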